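import Pool.Agent.Work.MP_b73316_nt.Q.Defs

/-!
Module Zest (size S-M): zero estimate with a prime `p > D`.

PROOF.  Let `T = toR ℚ tt`, `n = 2κ+1`, norms in `ℚ_[p]` of rational numbers.  Let `M` be the maximum
of the norms of the coefficients of `P₀` and `P₁`; suppose `M > 0`.  `F = Fs n`: its coefficient at
`q^m`, `m < 2p`, `m ≠ p`, is `p`-integral (the divisors `d` of `m` are not divisible by `p`: `d = p`
would give `m = p`), the one at `q^p` is `1 + p^(-n)`.  Let `g = P₁(T) x^κ` (`hh κ = x^κ F`):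
the coefficients of `g` have norm `≤ M` (`tt`, `xx` are integral series).
(1) For `v ≤ D` the coefficient of `P₀(T) + g F` at `q^(p+v)` vanishes (`p + v < p + D + 1`).  It is
(norm `≤ M`) `+ ∑_i g_i F_(p+v-i)` `=` (norm `≤ M`) `+ g_v p^(-n)` (`i ≤ p + v < 2p`; only `i = v` gives
`F_p`).  So `‖g_v‖ ≤ M p^(-n)` for `v ≤ D`.
(2) Lemma: if `P` has degree `≤ D`, `y` is an integral power series with constant coefficient `1`, and
`‖coeff v (P(T) y)‖ ≤ B` for all `v ≤ D`, then all the coefficients of `P` have norm `≤ B`: strong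
induction on `e`: `coeff e (P(T) y) = ∑_{k ≤ e} P_k coeff e (T^k y)` and `coeff e (T^e y) = 1`,
`coeff e (T^k y) = 0` for `k > e`.  With `y = x^κ`, `B = M p^(-n)`: the coefficients of `P₁` have norm
`≤ M p^(-n)`.
(3) For `v ≤ D` the coefficient of `P₀(T) + g F` at `q^v` vanishes, `v < p`, so `F` is integral there and
`‖coeff v (P₀(T))‖ ≤ M p^(-n)`; by the lemma with `y = 1` the coefficients of `P₀` have norm
`≤ M p^(-n)`.  So `M ≤ M p^(-n) < M`, contradiction.  (Compare `Lin.lean`: `Fs_int`, `Fs_p`, `keyA`.)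
-/

set_option autoImplicit false

open PowerSeries Finset MP0f16e1

namespace Pool.Agent.Work.MP_b73316_nt.Q

private theorem z_coeff_rat {p : ℕ} [Fact p.Prime] (G : PowerSeries ℤ) (a : ℕ) :
    ((coeff a (toR ℚ G) : ℚ) : ℚ_[p]) = ((coeff a G : ℤ) : ℚ_[p]) := by
  unfold toR
  rw [coeff_map]
  simp

private theorem z_Fs_int {p : ℕ} [hp : Fact p.Prime] (b n : ℕ) (h1 : n < 2 * p) (h2 : n ≠ p) :
    ‖((coeff n (Fs b) : ℚ) : ℚ_[p])‖ ≤ 1 := by
  unfold Fs
  rw [coeff_mk, Rat.cast_sum]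
  refine IsUltrametricDist.norm_sum_le_of_forall_le_of_nonneg zero_le_one ?_
  intro d hd
  have hdvd := Nat.dvd_of_mem_divisors hd
  have hn0 : n ≠ 0 := (Nat.mem_divisors.1 hd).2
  have hpd : ¬ p ∣ d := by
    intro h
    obtain ⟨c, hc⟩ := h.trans hdvd
    rcases c with _ | _ | c
    · omega
    · omega
    · rw [hc] at h1
      have : 2 * p ≤ p * (c + 1 + 1) := by nlinarith
      omega
  have h3 : ‖((d : ℕ) : ℚ_[p])‖ = 1 := by
    rw [Padic.norm_natCast_eq_one_iff]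
    exact (Nat.Prime.coprime_iff_not_dvd hp.out).2 hpd
  push_cast
  rw [norm_inv, norm_pow, h3, one_pow, inv_one]

private theorem z_Fs_p {p : ℕ} [hp : Fact p.Prime] (b : ℕ) :
    ((coeff p (Fs b) : ℚ) : ℚ_[p]) = 1 + ((p : ℚ_[p]) ^ b)⁻¹ := by
  unfold Fs
  rw [coeff_mk, Nat.Prime.divisors hp.out, Finset.sum_pair hp.out.one_lt.ne]
  push_cast
  rw [one_pow, inv_one]

private theorem z_G_coeff (e k v : ℕ) (h : v ≤ e) :
    coeff v (tt ^ e * xx ^ k) = if v = e then 1 else 0 := by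
  rw [coeff_mul]
  by_cases hve : v = e
  · subst hve
    rw [if_pos rfl, Finset.sum_eq_single (v, 0)]
    · change coeff v (tt ^ v) * coeff 0 (xx ^ k) = 1
      rw [tt_pow_coeff_self, coeff_zero_eq_constantCoeff_apply, map_pow,
        ← coeff_zero_eq_constantCoeff_apply, xx_coeff_zero, one_pow, mul_one]
    · intro x hx hne
      rw [HasAntidiagonal.mem_antidiagonal] at hx
      have h1 : x.1 < v := by
        rcases Nat.lt_or_ge x.1 v with h1 | h1
        · exact h1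
        · exfalso
          apply hne
          apply Prod.ext
          · change x.1 = v
            omega
          · change x.2 = 0
            omega
      rw [tt_pow_coeff_lt h1, zero_mul]
    · intro h
      exact absurd (HasAntidiagonal.mem_antidiagonal.2 (by simp)) h
  · rw [if_neg hve]
    refine Finset.sum_eq_zero fun x hx => ?_
    rw [HasAntidiagonal.mem_antidiagonal] at hx
    rw [tt_pow_coeff_lt (by omega), zero_mul]

private theorem z_aeval (P : Polynomial ℚ) (D : ℕ) (h : P.natDegree ≤ D) (k m : ℕ) :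
    coeff m (Polynomial.aeval (toR ℚ tt) P * toR ℚ (xx ^ k)) =
      ∑ e ∈ range (D + 1), P.coeff e * coeff m (toR ℚ (tt ^ e * xx ^ k)) := by
  rw [Polynomial.aeval_eq_sum_range' (Nat.lt_succ_of_le h), Finset.sum_mul, map_sum]
  refine Finset.sum_congr rfl fun e _ => ?_
  have h1 : toR ℚ (tt ^ e * xx ^ k) = (toR ℚ tt) ^ e * toR ℚ (xx ^ k) := by
    unfold toR
    rw [map_mul, map_pow]
  rw [h1, smul_mul_assoc, coeff_smul, smul_eq_mul]

private theorem z_lem {p : ℕ} [Fact p.Prime] (c : ℕ → ℚ) (D k : ℕ) (B : ℝ) (hB : 0 ≤ B)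
    (h : ∀ v ≤ D, ‖((∑ e ∈ range (D + 1), c e * coeff v (toR ℚ (tt ^ e * xx ^ k)) : ℚ) :
      ℚ_[p])‖ ≤ B) : ∀ e ≤ D, ‖((c e : ℚ) : ℚ_[p])‖ ≤ B := by
  intro e
  induction e using Nat.strong_induction_on with
  | _ e ih =>
    intro he
    have h1 := h e he
    have h2 : ∑ j ∈ range (D + 1), c j * coeff e (toR ℚ (tt ^ j * xx ^ k)) =
        (∑ j ∈ range e, c j * coeff e (toR ℚ (tt ^ j * xx ^ k))) + c e := by
      have h3 : ∑ j ∈ range (e + 1), c j * coeff e (toR ℚ (tt ^ j * xx ^ k)) =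
          ∑ j ∈ range (D + 1), c j * coeff e (toR ℚ (tt ^ j * xx ^ k)) := by
        refine Finset.sum_subset (Finset.range_subset_range.2 (by omega)) fun j _ hj => ?_
        rw [mem_range, not_lt] at hj
        have h4 : coeff e (toR ℚ (tt ^ j * xx ^ k)) = 0 := by
          unfold toR
          rw [coeff_map, z_G_coeff j k e (by omega), if_neg (by omega), map_zero]
        rw [h4, mul_zero]
      rw [← h3, Finset.sum_range_succ]
      congr 1
      have h4 : coeff e (toR ℚ (tt ^ e * xx ^ k)) = 1 := by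
        unfold toR
        rw [coeff_map, z_G_coeff e k e le_rfl, if_pos rfl, map_one]
      rw [h4, mul_one]
    have h5 : ((c e : ℚ) : ℚ_[p]) =
        ((∑ j ∈ range (D + 1), c j * coeff e (toR ℚ (tt ^ j * xx ^ k)) : ℚ) : ℚ_[p]) -
        ((∑ j ∈ range e, c j * coeff e (toR ℚ (tt ^ j * xx ^ k)) : ℚ) : ℚ_[p]) := by
      rw [h2, Rat.cast_add]
      ring
    rw [h5, sub_eq_add_neg]
    refine (Padic.nonarchimedean _ _).trans (max_le h1 ?_)
    rw [norm_neg, Rat.cast_sum]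
    refine IsUltrametricDist.norm_sum_le_of_forall_le_of_nonneg hB ?_
    intro j hj
    have hj' := mem_range.1 hj
    rw [Rat.cast_mul, norm_mul, z_coeff_rat]
    calc _ ≤ B * 1 := mul_le_mul (ih j hj' (by omega)) (Padic.norm_int_le_one _)
          (norm_nonneg _) hB
      _ = B := mul_one _

theorem zest (κ D p : ℕ) [Fact p.Prime] (hp : D < p) (P₀ P₁ : Polynomial ℚ)
    (h0 : P₀.natDegree ≤ D) (h1 : P₁.natDegree ≤ D)
    (hv : ∀ k < p + D + 1, coeff k (Polynomial.aeval (toR ℚ tt) P₀ +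
      Polynomial.aeval (toR ℚ tt) P₁ * hh κ) = 0) : P₀ = 0 ∧ P₁ = 0 := by
  have hpP : p.Prime := Fact.out
  have hpr : (1 : ℝ) < p := by exact_mod_cast hpP.one_lt
  set n := 2 * κ + 1 with hn
  obtain ⟨e0, he0, hmax⟩ := Finset.exists_max_image (range (D + 1))
    (fun e => max ‖((P₀.coeff e : ℚ) : ℚ_[p])‖ ‖((P₁.coeff e : ℚ) : ℚ_[p])‖)
    ⟨0, mem_range.2 (Nat.succ_pos D)⟩
  set N := max ‖((P₀.coeff e0 : ℚ) : ℚ_[p])‖ ‖((P₁.coeff e0 : ℚ) : ℚ_[p])‖ with hN
  have hN0 : 0 ≤ N := le_trans (norm_nonneg _) (le_max_left _ _)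
  have ha : ∀ e ≤ D, ‖((P₀.coeff e : ℚ) : ℚ_[p])‖ ≤ N := fun e he =>
    (le_max_left _ _).trans (hmax e (mem_range.2 (by omega)))
  have hb : ∀ e ≤ D, ‖((P₁.coeff e : ℚ) : ℚ_[p])‖ ≤ N := fun e he =>
    (le_max_right _ _).trans (hmax e (mem_range.2 (by omega)))
  have hsum : ∀ (c : ℕ → ℚ) (k m : ℕ), (∀ e ≤ D, ‖((c e : ℚ) : ℚ_[p])‖ ≤ N) →
      ‖((∑ e ∈ range (D + 1), c e * coeff m (toR ℚ (tt ^ e * xx ^ k)) : ℚ) : ℚ_[p])‖ ≤ N := by
    intro c k m hc
    rw [Rat.cast_sum]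
    refine IsUltrametricDist.norm_sum_le_of_forall_le_of_nonneg hN0 ?_
    intro j hj
    have hj' := mem_range.1 hj
    rw [Rat.cast_mul, norm_mul, z_coeff_rat]
    calc _ ≤ N * 1 := mul_le_mul (hc j (by omega)) (Padic.norm_int_le_one _)
          (norm_nonneg _) hN0
      _ = N := mul_one _
  set T0 := Polynomial.aeval (toR ℚ tt) P₀ with hT0
  set g := Polynomial.aeval (toR ℚ tt) P₁ * toR ℚ (xx ^ κ) with hg
  have hx0 : toR ℚ (xx ^ 0) = 1 := by
    unfold toR
    rw [pow_zero, map_one]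
  have hT : ∀ m, coeff m T0 =
      ∑ e ∈ range (D + 1), P₀.coeff e * coeff m (toR ℚ (tt ^ e * xx ^ 0)) := by
    intro m
    rw [← z_aeval P₀ D h0 0 m, hx0, mul_one]
  have hG : ∀ m, coeff m g =
      ∑ e ∈ range (D + 1), P₁.coeff e * coeff m (toR ℚ (tt ^ e * xx ^ κ)) := fun m =>
    z_aeval P₁ D h1 κ m
  have hTn : ∀ m, ‖((coeff m T0 : ℚ) : ℚ_[p])‖ ≤ N := by
    intro m
    rw [hT m]
    exact hsum _ 0 m ha
  have hGn : ∀ m, ‖((coeff m g : ℚ) : ℚ_[p])‖ ≤ N := by
    intro m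
    rw [hG m]
    exact hsum _ κ m hb
  have hrel : ∀ k < p + D + 1, coeff k T0 + coeff k (g * Fs n) = 0 := by
    intro k hk
    have h2 := hv k hk
    rw [map_add] at h2
    have h3 : Polynomial.aeval (toR ℚ tt) P₁ * hh κ = g * Fs n := by
      unfold hh
      rw [hg, mul_assoc]
    rw [h3] at h2
    exact h2
  -- step 1
  set B := N * ((p : ℝ) ^ n)⁻¹ with hB
  have hpn : (1 : ℝ) < (p : ℝ) ^ n := one_lt_pow₀ hpr (by omega)
  have hB0 : 0 ≤ B := mul_nonneg hN0 (inv_nonneg.2 (by positivity))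
  have hg1 : ∀ v ≤ D, ‖((coeff v g : ℚ) : ℚ_[p])‖ ≤ B := by
    intro v hvD
    have h2 := hrel (p + v) (by omega)
    have hmem : (v, p) ∈ HasAntidiagonal.antidiagonal (p + v) := by
      rw [HasAntidiagonal.mem_antidiagonal]
      exact add_comm v p
    rw [coeff_mul, ← Finset.add_sum_erase _ _ hmem] at h2
    have h3 := congrArg (fun x : ℚ => (x : ℚ_[p])) h2
    simp only [Rat.cast_add, Rat.cast_mul, Rat.cast_zero] at h3
    rw [z_Fs_p] at h3
    set R : ℚ_[p] := ((∑ x ∈ (HasAntidiagonal.antidiagonal (p + v)).erase (v, p),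
      coeff x.1 g * coeff x.2 (Fs n) : ℚ) : ℚ_[p]) with hR
    have hRn : ‖R‖ ≤ N := by
      rw [hR, Rat.cast_sum]
      refine IsUltrametricDist.norm_sum_le_of_forall_le_of_nonneg hN0 ?_
      intro x hx
      rw [mem_erase, HasAntidiagonal.mem_antidiagonal] at hx
      rw [Rat.cast_mul, norm_mul]
      have h4 : x.2 ≠ p := by
        intro h
        apply hx.1
        apply Prod.ext
        · change x.1 = v
          omega
        · exact h
      calc _ ≤ N * 1 := mul_le_mul (hGn _) (z_Fs_int n x.2 (by omega) h4)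
            (norm_nonneg _) hN0
        _ = N := mul_one _
    have h5 : ((coeff v g : ℚ) : ℚ_[p]) * ((p : ℚ_[p]) ^ n)⁻¹ =
        -(((coeff (p + v) T0 : ℚ) : ℚ_[p]) + ((coeff v g : ℚ) : ℚ_[p]) + R) := by
      linear_combination h3
    have h6 : ‖((coeff v g : ℚ) : ℚ_[p]) * ((p : ℚ_[p]) ^ n)⁻¹‖ ≤ N := by
      rw [h5, norm_neg]
      refine (Padic.nonarchimedean _ _).trans (max_le ?_ hRn)
      exact (Padic.nonarchimedean _ _).trans (max_le (hTn _) (hGn _))
    rw [norm_mul, norm_inv, norm_pow, Padic.norm_p, inv_pow, inv_inv] at h6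
    rw [hB, ← div_eq_mul_inv, le_div_iff₀ (by positivity)]
    exact h6
  -- step 2
  have hb1 : ∀ e ≤ D, ‖((P₁.coeff e : ℚ) : ℚ_[p])‖ ≤ B := by
    refine z_lem (fun e => P₁.coeff e) D κ B hB0 fun v hvD => ?_
    have h2 := hg1 v hvD
    rw [hG v] at h2
    exact h2
  -- step 3
  have ha1 : ∀ e ≤ D, ‖((P₀.coeff e : ℚ) : ℚ_[p])‖ ≤ B := by
    refine z_lem (fun e => P₀.coeff e) D 0 B hB0 fun v hvD => ?_
    have h2 := hrel v (by omega)
    rw [coeff_mul] at h2
    have h3 : coeff v T0 = -∑ x ∈ HasAntidiagonal.antidiagonal v, coeff x.1 g * coeff x.2 (Fs n) :=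
      eq_neg_of_add_eq_zero_left h2
    rw [hT v] at h3
    rw [h3, Rat.cast_neg, norm_neg, Rat.cast_sum]
    refine IsUltrametricDist.norm_sum_le_of_forall_le_of_nonneg hB0 ?_
    intro x hx
    rw [HasAntidiagonal.mem_antidiagonal] at hx
    rw [Rat.cast_mul, norm_mul]
    calc _ ≤ B * 1 := mul_le_mul (hg1 _ (by omega)) (z_Fs_int n x.2 (by omega) (by omega))
          (norm_nonneg _) hB0
      _ = B := mul_one _
  have hNB : N ≤ B := max_le (ha1 e0 (by have := mem_range.1 he0; omega))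
    (hb1 e0 (by have := mem_range.1 he0; omega))
  have hNz : N = 0 := by
    by_contra hne
    have hNpos : 0 < N := lt_of_le_of_ne hN0 (Ne.symm hne)
    have h2 : N * ((p : ℝ) ^ n)⁻¹ < N * 1 :=
      mul_lt_mul_of_pos_left (inv_lt_one_of_one_lt₀ hpn) hNpos
    rw [mul_one] at h2
    linarith
  have hz : ∀ P : Polynomial ℚ, P.natDegree ≤ D → (∀ e ≤ D, ‖((P.coeff e : ℚ) : ℚ_[p])‖ ≤ N) →
      P = 0 := by
    intro P hP hPN
    ext e
    rw [Polynomial.coeff_zero]
    rcases Nat.lt_or_ge D e with h2 | h2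
    · exact Polynomial.coeff_eq_zero_of_natDegree_lt (by omega)
    · have h3 := hPN e h2
      rw [hNz] at h3
      have h4 := norm_le_zero_iff.1 h3
      exact_mod_cast h4
  exact ⟨hz P₀ h0 ha, hz P₁ h1 hb⟩

end Pool.Agent.Work.MP_b73316_nt.Q
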