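import Pool.Agent.Work.MP_b73316_nt.Q.Defs
import Pool.Agent.Work.MP_b73316_nt.Q.Zest

/-!
Module Nrm (size S-M): a normal index in `[D, p)`.

PROOF.  `T = toR ℚ tt`, `W_D` = the pairs `(P₀, P₁) ≠ (0, 0)` with degrees `≤ D`,
`R = P₀(T) + P₁(T) h`.  By `zest`, a pair of `W_D` does not vanish to order `p + D + 1` (some coefficient
`k < p + D + 1` of `R` is not `0`).  Let `ν ≤ p + D` be the largest number such that some pair
`(P₀, P₁) ∈ W_D` has `coeff k R = 0` for all `k < ν`; then `coeff ν R ≠ 0`, and no pair of `W_D`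
vanishes to order `ν + 1`.
Case `ν < 2D + 2`: `D' = D` is normal.
Case `ν ≥ 2D + 2`: `D' = ν - D - 1`, `D + 1 ≤ D' ≤ p - 1`.  Claim: `Nor κ D'`.  Let `Q₀, Q₁` have degree
`≤ D'`, `R' = Q₀(T) + Q₁(T) h` with `coeff k R' = 0` for `k < 2D' + 2`, not both `Q₀, Q₁ = 0`.  The
polynomial `P₀ Q₁ - Q₀ P₁` has degree `≤ D + D' = ν - 1` and
`(P₀ Q₁ - Q₀ P₁)(T) = R Q₁(T) - R' P₁(T)` vanishes below `ν` (`2D' + 2 ≥ ν`), so it is `0`
(`poly_eq_zero`; over `ℚ`: `poly_eq_zero` is for any commutative ring, with `toR R tt`).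
`P₁ ≠ 0`: otherwise `R = P₀(T)`, `P₀ ≠ 0` vanishes below `ν > D`, contradiction with `poly_eq_zero`.
If `Q₁ = 0` then `Q₀ P₁ = 0`, `Q₀ = 0`, contradiction; so `Q₁ ≠ 0`.
`R Q₁(T) = R' P₁(T)`.  For a polynomial `A ≠ 0` the `q`-order of `A(T)` is
`a = A.natTrailingDegree` with leading coefficient `A.trailingCoeff`.  The order of `R` is exactly `ν`.
So, with `a, b` the trailing degrees of `Q₁, P₁`: `ν + a ≥ 2D' + 2 + b`, `a ≥ b + c`,
`c = 2D' + 2 - ν = D' + 1 - D ≥ 2`.  From `Q₀ P₁ = P₀ Q₁`: `X^a ∣ Q₀ P₁`, so `X^(a-b) ∣ Q₀` (`P₁ = X^b P₁'`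
with `X ∤ P₁'`, `X` prime).  So `X^c` divides `Q₀` and `Q₁`: `Q_i = X^c Q_i'`, `deg Q_i' ≤ D' - c = D - 1`
(`0` if `Q_i = 0`), `R' = T^c R''`, `R'' = Q₀'(T) + Q₁'(T) h` vanishes below
`2D' + 2 - c = D' + D + 1 = ν` (`T = q + ...`).  The pair `(X Q₀', X Q₁')` is in `W_D` and
`T R''` vanishes below `ν + 1`: contradiction.
-/

set_option autoImplicit false

open PowerSeries Finset MP0f16e1

namespace Pool.Agent.Work.MP_b73316_nt.Q

private theorem T_fac : ∃ c : PowerSeries ℚ, toR ℚ tt = X * c ∧ ¬ X ∣ c := by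
  have hc : ∀ k, coeff k (toR ℚ tt) = ((coeff k tt : ℤ) : ℚ) := by
    intro k
    unfold toR
    rw [coeff_map]
    rfl
  have h0 : coeff 0 (toR ℚ tt) = 0 := by
    have h1 := tt_pow_coeff_lt (l := 1) (k := 0) (by omega)
    rw [pow_one] at h1
    rw [hc, h1, Int.cast_zero]
  have h1 : coeff 1 (toR ℚ tt) = 1 := by
    have h1 := tt_pow_coeff_self 1
    rw [pow_one] at h1
    rw [hc, h1, Int.cast_one]
  obtain ⟨c, hc'⟩ : X ∣ toR ℚ tt := by
    rw [X_dvd_iff, ← coeff_zero_eq_constantCoeff_apply, h0]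
  refine ⟨c, hc', ?_⟩
  intro h2
  rw [X_dvd_iff, ← coeff_zero_eq_constantCoeff_apply] at h2
  rw [hc'] at h1
  have h3 := coeff_succ_X_mul 0 c
  rw [zero_add, h1, h2] at h3
  exact one_ne_zero h3

/-- the `q`-order of `A(T)` is `0` if the constant term of `A` is not `0` -/
private theorem ndvd {A : Polynomial ℚ} (hA : ¬ Polynomial.X ∣ A) :
    ¬ (X : PowerSeries ℚ) ∣ Polynomial.aeval (toR ℚ tt) A := by
  intro h
  apply hA
  rw [Polynomial.X_dvd_iff]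
  obtain ⟨c, hc, -⟩ := T_fac
  have h1 : Polynomial.aeval (toR ℚ tt) A =
      Polynomial.aeval (toR ℚ tt) A.divX * toR ℚ tt + PowerSeries.C (A.coeff 0) := by
    conv_lhs => rw [← Polynomial.divX_mul_X_add A]
    rw [map_add, map_mul, Polynomial.aeval_X, Polynomial.aeval_C]
    rfl
  rw [h1, X_dvd_iff, map_add, map_mul, hc, map_mul, constantCoeff_X, zero_mul, mul_zero, zero_add,
    constantCoeff_C] at h
  exact h

private theorem fac {A : Polynomial ℚ} (hA : A ≠ 0) : ∃ (a : ℕ) (A' : Polynomial ℚ),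
    ¬ Polynomial.X ∣ A' ∧ A = Polynomial.X ^ a * A' :=
  WfDvdMonoid.max_power_factor hA Polynomial.irreducible_X

/-- some nonzero pair of degree `≤ D` vanishes to order `n` -/
private def Va (κ D n : ℕ) : Prop := ∃ P₀ P₁ : Polynomial ℚ, P₀.natDegree ≤ D ∧
  P₁.natDegree ≤ D ∧ ¬ (P₀ = 0 ∧ P₁ = 0) ∧ (X : PowerSeries ℚ) ^ n ∣
    Polynomial.aeval (toR ℚ tt) P₀ + Polynomial.aeval (toR ℚ tt) P₁ * hh κ

private theorem nrm_core {κ D D' ν : ℕ} (hν : Va κ D ν) (hν' : ¬ Va κ D (ν + 1))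
    (h2 : 2 * D + 2 ≤ ν) (hD' : D' + D + 1 = ν) : Nor κ D' := by
  intro Q₀ Q₁ hQ₀ hQ₁ hR'
  by_contra hne
  obtain ⟨P₀, P₁, hP₀, hP₁, hP, hR⟩ := hν
  have hX : Prime (X : PowerSeries ℚ) := X_prime
  rw [← X_pow_dvd_iff] at hR'
  obtain ⟨c, hc, hcX⟩ := T_fac
  -- the cross product
  have h3 : Polynomial.aeval (toR ℚ tt) (P₀ * Q₁ - Q₀ * P₁) =
      (Polynomial.aeval (toR ℚ tt) P₀ + Polynomial.aeval (toR ℚ tt) P₁ * hh κ) *
        Polynomial.aeval (toR ℚ tt) Q₁ -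
      (Polynomial.aeval (toR ℚ tt) Q₀ + Polynomial.aeval (toR ℚ tt) Q₁ * hh κ) *
        Polynomial.aeval (toR ℚ tt) P₁ := by
    rw [map_sub, map_mul, map_mul]
    ring
  have h4 : P₀ * Q₁ - Q₀ * P₁ = 0 := by
    refine poly_eq_zero _ ν ?_ ?_
    · have h5 := Polynomial.natDegree_sub_le (P₀ * Q₁) (Q₀ * P₁)
      have h6 := Polynomial.natDegree_mul_le (p := P₀) (q := Q₁)
      have h7 := Polynomial.natDegree_mul_le (p := Q₀) (q := P₁)
      have h8 : max (P₀ * Q₁).natDegree (Q₀ * P₁).natDegree ≤ D + D' := max_le (by omega) (by omega)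
      omega
    · rw [← X_pow_dvd_iff, h3]
      refine dvd_sub (hR.mul_right _) (Dvd.dvd.mul_right ?_ _)
      exact (pow_dvd_pow _ (by omega)).trans hR'
  have hP1 : P₁ ≠ 0 := by
    intro h5
    apply hP
    refine ⟨poly_eq_zero P₀ ν (by omega) ?_, h5⟩
    rw [h5, map_zero, zero_mul, add_zero] at hR
    exact X_pow_dvd_iff.1 hR
  have hQ1 : Q₁ ≠ 0 := by
    intro h5
    apply hne
    refine ⟨?_, h5⟩
    rw [h5, mul_zero, zero_sub, neg_eq_zero] at h4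
    exact (mul_eq_zero.1 h4).resolve_right hP1
  obtain ⟨U, hU⟩ := hR
  have hUX : ¬ X ∣ U := by
    rintro ⟨U', hU'⟩
    apply hν'
    refine ⟨P₀, P₁, hP₀, hP₁, hP, U', ?_⟩
    rw [hU, hU']
    ring
  obtain ⟨U', hU'⟩ := hR'
  obtain ⟨a, Q', hQ'X, hQ'⟩ := fac hQ1
  obtain ⟨b, P', hP'X, hP'⟩ := fac hP1
  have hQT : Polynomial.aeval (toR ℚ tt) Q₁ = X ^ a * (c ^ a * Polynomial.aeval (toR ℚ tt) Q') := by
    rw [hQ', map_mul, map_pow, Polynomial.aeval_X, hc]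
    ring
  have hPT : Polynomial.aeval (toR ℚ tt) P₁ = X ^ b * (c ^ b * Polynomial.aeval (toR ℚ tt) P') := by
    rw [hP', map_mul, map_pow, Polynomial.aeval_X, hc]
    ring
  rw [h4, map_zero, hU, hU', hQT, hPT] at h3
  have h5 : (X : PowerSeries ℚ) ^ (ν + a) * (U * (c ^ a * Polynomial.aeval (toR ℚ tt) Q')) =
      X ^ (2 * D' + 2 + b) * (U' * (c ^ b * Polynomial.aeval (toR ℚ tt) P')) := by
    rw [pow_add, pow_add]
    linear_combination -h3
  have hab : 2 * D' + 2 + b ≤ ν + a := by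
    by_contra h6
    push Not at h6
    obtain ⟨m, hm⟩ := Nat.exists_eq_add_of_lt h6
    have h7 : (X : PowerSeries ℚ) ^ (2 * D' + 2 + b) = X ^ (ν + a) * (X * X ^ m) := by
      rw [hm]
      ring
    rw [h7, mul_assoc] at h5
    have h8 := mul_left_cancel₀ (pow_ne_zero _ hX.ne_zero) h5
    have h9 : X ∣ U * (c ^ a * Polynomial.aeval (toR ℚ tt) Q') := by
      rw [h8, mul_assoc]
      exact dvd_mul_right _ _
    rcases hX.dvd_or_dvd h9 with h10 | h10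
    · exact hUX h10
    · rcases hX.dvd_or_dvd h10 with h11 | h11
      · exact hcX (hX.dvd_of_dvd_pow h11)
      · exact ndvd hQ'X h11
  -- divide by `X ^ m`
  obtain ⟨m, hm⟩ : ∃ m, m + ν = 2 * D' + 2 := ⟨2 * D' + 2 - ν, by omega⟩
  obtain ⟨a', ha'⟩ : ∃ a', a = b + (m + a') := ⟨a - (b + m), by omega⟩
  have h6 : Polynomial.X ^ (m + a') ∣ Q₀ := by
    have h7 : (Polynomial.X : Polynomial ℚ) ^ b * (Polynomial.X ^ (m + a') * (P₀ * Q')) =
        Polynomial.X ^ b * (Q₀ * P') := by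
      have h8 : P₀ * Q₁ = Q₀ * P₁ := sub_eq_zero.1 h4
      rw [hQ', hP', ha'] at h8
      rw [pow_add] at h8
      linear_combination h8
    have h8 := mul_left_cancel₀ (pow_ne_zero _ Polynomial.X_ne_zero) h7
    have h9 : Polynomial.X ^ (m + a') ∣ Q₀ * P' := ⟨_, h8.symm⟩
    have h10 : IsCoprime (Polynomial.X ^ (m + a')) P' :=
      IsCoprime.pow_left ((Irreducible.coprime_iff_not_dvd Polynomial.irreducible_X).2 hP'X)
    exact h10.dvd_of_dvd_mul_right h9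
  obtain ⟨A₀, hA₀⟩ : Polynomial.X ^ m ∣ Q₀ := (pow_dvd_pow _ (by omega)).trans h6
  obtain ⟨A₁, hA₁⟩ : Polynomial.X ^ m ∣ Q₁ := by
    rw [hQ']
    exact (pow_dvd_pow _ (by omega)).mul_right _
  have hA1 : A₁ ≠ 0 := by
    intro h7
    rw [h7, mul_zero] at hA₁
    exact hQ1 hA₁
  have hdeg : ∀ A : Polynomial ℚ, (Polynomial.X ^ m * A).natDegree ≤ D' →
      (Polynomial.X * A).natDegree ≤ D := by
    intro A hA
    by_cases hA0 : A = 0
    · rw [hA0, mul_zero, Polynomial.natDegree_zero]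
      exact Nat.zero_le _
    · rw [Polynomial.natDegree_mul (pow_ne_zero _ Polynomial.X_ne_zero) hA0,
        Polynomial.natDegree_X_pow] at hA
      rw [Polynomial.natDegree_mul Polynomial.X_ne_zero hA0, Polynomial.natDegree_X]
      omega
  apply hν'
  refine ⟨Polynomial.X * A₀, Polynomial.X * A₁, hdeg A₀ (by rw [← hA₀]; exact hQ₀),
    hdeg A₁ (by rw [← hA₁]; exact hQ₁), ?_, ?_⟩
  · rintro ⟨-, h7⟩
    rcases mul_eq_zero.1 h7 with h8 | h8
    · exact Polynomial.X_ne_zero h8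
    · exact hA1 h8
  · have e0 : Polynomial.aeval (toR ℚ tt) Q₀ =
        X ^ m * (c ^ m * Polynomial.aeval (toR ℚ tt) A₀) := by
      rw [hA₀, map_mul, map_pow, Polynomial.aeval_X, hc]
      ring
    have e1 : Polynomial.aeval (toR ℚ tt) Q₁ =
        X ^ m * (c ^ m * Polynomial.aeval (toR ℚ tt) A₁) := by
      rw [hA₁, map_mul, map_pow, Polynomial.aeval_X, hc]
      ring
    have h7 : (X : PowerSeries ℚ) ^ m * (c ^ m * (Polynomial.aeval (toR ℚ tt) A₀ +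
        Polynomial.aeval (toR ℚ tt) A₁ * hh κ)) = X ^ m * (X ^ ν * U') := by
      rw [← hm, pow_add, e0, e1] at hU'
      linear_combination hU'
    have h8 := mul_left_cancel₀ (pow_ne_zero _ hX.ne_zero) h7
    have hcu : IsUnit c := by
      rw [PowerSeries.isUnit_iff_constantCoeff, isUnit_iff_ne_zero]
      intro h9
      exact hcX (X_dvd_iff.2 h9)
    have h9 : (X : PowerSeries ℚ) ^ ν ∣ Polynomial.aeval (toR ℚ tt) A₀ +
        Polynomial.aeval (toR ℚ tt) A₁ * hh κ :=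
      ((hcu.pow m).dvd_mul_left).1 ⟨U', h8⟩
    obtain ⟨W, hW⟩ := h9
    refine ⟨c * W, ?_⟩
    rw [map_mul, map_mul, Polynomial.aeval_X]
    have h10 : toR ℚ tt * Polynomial.aeval (toR ℚ tt) A₀ +
        toR ℚ tt * Polynomial.aeval (toR ℚ tt) A₁ * hh κ = toR ℚ tt * (X ^ ν * W) := by
      rw [← hW]
      ring
    rw [h10, hc]
    ring

theorem nrm (κ D p : ℕ) [Fact p.Prime] (hp : D < p) :
    ∃ D' : ℕ, D ≤ D' ∧ D' < p ∧ Nor κ D' := by
  classical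
  have hbad : ∃ n, ¬ Va κ D n := by
    refine ⟨p + D + 1, ?_⟩
    rintro ⟨P₀, P₁, h0, h1, hne, hR⟩
    exact hne (zest κ D p hp P₀ P₁ h0 h1 (X_pow_dvd_iff.1 hR))
  obtain ⟨N, hN, hmin⟩ : ∃ N, ¬ Va κ D N ∧ ∀ n < N, Va κ D n :=
    ⟨Nat.find hbad, Nat.find_spec hbad, fun n hn => not_not.1 (Nat.find_min hbad hn)⟩
  have hN1 : N ≤ p + D + 1 := by
    by_contra h
    push Not at h
    obtain ⟨P₀, P₁, h0, h1, hne, hR⟩ := hmin _ h
    exact hne (zest κ D p hp P₀ P₁ h0 h1 (X_pow_dvd_iff.1 hR))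
  have hN0 : N ≠ 0 := by
    rintro rfl
    apply hN
    refine ⟨1, 0, by simp, by simp, by simp, by simp⟩
  obtain ⟨ν, rfl⟩ := Nat.exists_eq_succ_of_ne_zero hN0
  rw [Nat.succ_eq_add_one] at *
  rcases Nat.lt_or_ge ν (2 * D + 2) with h | h
  · refine ⟨D, le_rfl, hp, ?_⟩
    intro P₀ P₁ h0 h1 hR
    by_contra hne
    apply hN
    exact ⟨P₀, P₁, h0, h1, hne, (pow_dvd_pow _ (by omega)).trans (X_pow_dvd_iff.2 hR)⟩
  · exact ⟨ν - D - 1, by omega, by omega, nrm_core (hmin ν (by omega)) hN h (by omega)⟩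

end Pool.Agent.Work.MP_b73316_nt.Q
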