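import Pool.Agent.Work.MP_b73316_nt.Q.Defs
import Pool.Agent.Work.MP_b73316_nt.Q.Nrm
import Pool.Agent.Work.MP_b73316_nt.Pnt

/-!
Module NrmE (size S): normal indices are dense.

PROOF.  `theta_near ε₁` with `ε₁ = min(ε,1)/8`: `θ(y) ≥ (1 - ε₁) y - C`, `θ(D) ≤ (1 + ε₁) D + C`
(`Chebyshev.theta`).  With `y = ⌊(1 + ε) D⌋` (natural number, `y ≥ (1+ε)D - 1`; w.l.o.g. `ε ≤ 1`):
`θ(y) - θ(D) ≥ (1 - ε₁)((1+ε) D - 1) - (1 + ε₁) D - 2C > 0` for `D` large, so there is a prime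
`D < p ≤ y` (otherwise `θ(y) = θ(D)`).  Apply `nrm`.
-/

set_option autoImplicit false

open PowerSeries Finset Filter MP0f16e1

namespace Pool.Agent.Work.MP_b73316_nt.Q

private theorem theta_no {D y : ℕ} (h : ∀ p, D < p → p ≤ y → ¬ p.Prime) :
    Chebyshev.theta y ≤ Chebyshev.theta D := by
  unfold Chebyshev.theta
  rw [Nat.floor_natCast, Nat.floor_natCast]
  refine Finset.sum_le_sum_of_subset_of_nonneg ?_ ?_
  · intro p hp
    simp only [Finset.mem_filter, Finset.mem_Ioc] at hp ⊢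
    refine ⟨⟨hp.1.1, ?_⟩, hp.2⟩
    by_contra hD
    exact h p (by omega) hp.1.2 hp.2
  · intro p hp _
    simp only [Finset.mem_filter, Finset.mem_Ioc] at hp
    exact Real.log_nonneg (by exact_mod_cast hp.2.one_lt.le)

theorem nor_ex (κ : ℕ) (ε : ℝ) (hε : 0 < ε) : ∃ D₀ : ℕ, ∀ D : ℕ, D₀ ≤ D →
    ∃ D' : ℕ, D ≤ D' ∧ (D' : ℝ) ≤ (1 + ε) * D ∧ Nor κ D' := by
  set e : ℝ := min ε 1 with he
  have he0 : 0 < e := lt_min hε one_pos
  have he1 : e ≤ 1 := min_le_right _ _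
  have heε : e ≤ ε := min_le_left _ _
  obtain ⟨C, hC⟩ := theta_near (e / 8) (by positivity)
  refine ⟨⌈(2 + 2 * |C|) * 2 / e⌉₊ + 1, fun D hD => ?_⟩
  have hD1 : (2 + 2 * |C|) * 2 / e ≤ D := by
    refine (Nat.le_ceil _).trans ?_
    exact_mod_cast (by omega : ⌈(2 + 2 * |C|) * 2 / e⌉₊ ≤ D)
  rw [div_le_iff₀ he0] at hD1
  set y : ℕ := ⌊(1 + e) * (D : ℝ)⌋₊ with hy
  have hD0 : (0 : ℝ) ≤ D := Nat.cast_nonneg D
  have hy1 : (y : ℝ) ≤ (1 + e) * D := Nat.floor_le (by positivity)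
  have hy2 : (1 + e) * (D : ℝ) < y + 1 := Nat.lt_floor_add_one _
  have hex : ∃ p, D < p ∧ p ≤ y ∧ p.Prime := by
    by_contra hcon
    push Not at hcon
    have h1 := theta_no hcon
    have h2 := abs_le.1 (hC y)
    have h3 := abs_le.1 (hC D)
    have h4 : C ≤ |C| := le_abs_self C
    nlinarith [mul_nonneg he0.le hD0, mul_nonneg (mul_nonneg he0.le hD0) (sub_nonneg.2 he1)]
  obtain ⟨p, hp1, hp2, hp3⟩ := hex
  have := Fact.mk hp3
  obtain ⟨D', h1, h2, h3⟩ := nrm κ D p hp1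
  refine ⟨D', h1, ?_, h3⟩
  have h4 : (D' : ℝ) ≤ y := by exact_mod_cast (by omega : D' ≤ y)
  nlinarith [mul_le_mul_of_nonneg_right heε hD0]

end Pool.Agent.Work.MP_b73316_nt.Q
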