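import Pool.Agent.Work.MP_b73316_nt.Q.Defs

/-!
Module SumG (size S-M): two elementary sums.

PROOF.  `sum_GG`: `GG S 12 D l = ∑_s max 0 (12 (l - D)/s - l)` vanishes for `l ≤ D`
(`12 (l-D)/s - l ≤ 0`), so the sum is `∑_{j < 2(D+1)} GG S 12 D j`, and the bound
`(D²/2) gain S 12 2 ≤ ∑_{j < 2 (D+1)} GG S 12 D j` is the step `h1` in the proof of `V.idl`
(`V/Idl.lean`, `K = 1`; copy `pos_step`, `pos_sum`, `one_s`).
`vv_ww`: exchange the sums over `l` and `s`; for each `s ≤ S` the numbers `l` with `D+1 ≤ l ≤ 2D+1`,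
`l < p` and `s (p + 12) + 12 (D + E) < 12 l` satisfy `l > α = D + E + s + s p/12` and
`l ≤ b = min (p - 1, 2D + 1)`: their number is `0` or `≤ b - α + 1 ≤ min (p, 2D) - D - s p/12` as
`b ≤ min (p, 2D) + 1` and `E + s ≥ 2` (`E ≥ 1`, `s ≥ 1`).
(In Lean: if there is such an `l`, let `l₀` be the least one: all are in `Icc l₀ b`, and
`l₀ > α`, so the number is `≤ b - l₀ + 1 < b - α + 1`; all the `l` being natural numbers.)
-/

set_option autoImplicit false

open Finset

namespace Pool.Agent.Work.MP_b73316_nt.Q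

private theorem pos_step {A x : ℝ} (hA : 0 < A) :
    (max 0 (x + A)) ^ 2 / (2 * A) ≤ (max 0 x) ^ 2 / (2 * A) + max 0 (x + A) := by
  have h1 : (max 0 x) ^ 2 / (2 * A) + max 0 (x + A) =
      ((max 0 x) ^ 2 + 2 * A * max 0 (x + A)) / (2 * A) := by
    field_simp
  rw [h1]
  apply div_le_div_of_nonneg_right _ (by positivity)
  rcases le_total x 0 with hx | hx
  · rw [max_eq_left hx]
    rcases le_total (x + A) 0 with hy | hy
    · rw [max_eq_left hy]
      norm_num
    · rw [max_eq_right hy]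
      nlinarith
  · rw [max_eq_right hx, max_eq_right (by linarith : 0 ≤ x + A)]
    nlinarith

private theorem pos_sum {A B : ℝ} (hA : 0 < A) (hB : 0 ≤ B) (n : ℕ) :
    (max 0 (A * n - B)) ^ 2 / (2 * A) ≤ ∑ j ∈ range (n + 1), max 0 (A * (j : ℝ) - B) := by
  induction n with
  | zero =>
    rw [sum_range_succ, range_zero, sum_empty, zero_add, Nat.cast_zero, mul_zero, zero_sub,
      max_eq_left (by linarith)]
    norm_num
  | succ n ih =>
    rw [sum_range_succ]
    have h := pos_step (x := A * n - B) hA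
    have e : A * ((n + 1 : ℕ) : ℝ) - B = A * n - B + A := by push_cast; ring
    rw [e]
    linarith

private theorem one_s (D : ℕ) (u s : ℝ) (hu : 0 < u) (hs : 0 < s) :
    (D : ℝ) ^ 2 / 2 * (if u < (u - s) * 2 then
      ((u - s) * 2 - u) ^ 2 / (s * (u - s)) else 0) ≤
    ∑ j ∈ range (2 * (D + 1)), max 0 (u * ((j : ℝ) - D) / s - j) := by
  split_ifs with h
  · have hus : 0 < u - s := by
      by_contra hc
      push Not at hc
      nlinarith
    have hA : 0 < (u - s) / s := div_pos hus hs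
    obtain ⟨n, hn⟩ : ∃ n, 2 * (D + 1) = n + 1 := ⟨2 * D + 1, by ring⟩
    have hn1 : 2 * D ≤ n := by omega
    have hn2 : (2 : ℝ) * D ≤ n := by exact_mod_cast hn1
    rw [hn]
    have hB : 0 ≤ u * D / s := by positivity
    have h1 := pos_sum hA hB n
    have h2 : ∀ j : ℕ, (u - s) / s * (j : ℝ) - u * D / s = u * ((j : ℝ) - D) / s - j := by
      intro j
      field_simp
      ring
    rw [sum_congr rfl fun j _ => by rw [h2 j]] at h1
    refine le_trans ?_ h1
    have h3 : D * ((u - s) * 2 - u) / s ≤ max 0 ((u - s) / s * n - u * D / s) := by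
      refine le_trans ?_ (le_max_right _ _)
      have h4 : (u - s) / s * (2 * D) ≤ (u - s) / s * n :=
        mul_le_mul_of_nonneg_left hn2 hA.le
      have h5 : D * ((u - s) * 2 - u) / s =
          (u - s) / s * (2 * D) - u * D / s := by
        field_simp
      linarith
    have h6 : 0 ≤ D * ((u - s) * 2 - u) / s := by
      apply div_nonneg _ hs.le
      apply mul_nonneg (Nat.cast_nonneg _)
      linarith
    have h7 := pow_le_pow_left₀ h6 h3 2
    have h8 : (D : ℝ) ^ 2 / 2 * (((u - s) * 2 - u) ^ 2 / (s * (u - s))) =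
        (D * ((u - s) * 2 - u) / s) ^ 2 / (2 * ((u - s) / s)) := by
      field_simp
    rw [h8]
    exact div_le_div_of_nonneg_right h7 (by positivity)
  · rw [mul_zero]
    exact sum_nonneg fun _ _ => le_max_left _ _

theorem sum_GG (S D : ℕ) :
    (D : ℝ) ^ 2 / 2 * V.gain S 12 2 ≤ ∑ l ∈ Icc (D + 1) (2 * D + 1), V.GG S 12 D l := by
  have h1 : (D : ℝ) ^ 2 / 2 * V.gain S 12 2 ≤
      ∑ j ∈ range (2 * (D + 1)), V.GG S 12 D (j : ℝ) := by
    unfold V.gain V.GG
    rw [sum_comm, mul_sum]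
    refine sum_le_sum fun s hs => ?_
    rw [mem_Icc] at hs
    have hs0 : (0 : ℝ) < s := by
      have : 0 < s := by omega
      exact_mod_cast this
    exact one_s D 12 s (by norm_num) hs0
  refine h1.trans (le_of_eq ?_)
  have e1 : range (2 * (D + 1)) = range (D + 1) ∪ Icc (D + 1) (2 * D + 1) := by
    ext j
    simp only [mem_range, mem_union, mem_Icc]
    omega
  have e2 : Disjoint (range (D + 1)) (Icc (D + 1) (2 * D + 1)) := by
    rw [Finset.disjoint_left]
    intro j hj hj2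
    rw [mem_range] at hj
    rw [mem_Icc] at hj2
    omega
  rw [e1, sum_union e2]
  have e3 : ∑ j ∈ range (D + 1), V.GG S 12 D (j : ℝ) = 0 := by
    refine sum_eq_zero fun j hj => ?_
    unfold V.GG
    refine sum_eq_zero fun s hs => ?_
    rw [mem_range] at hj
    have hjD : (j : ℝ) ≤ D := by exact_mod_cast (by omega : j ≤ D)
    have hj0 : (0 : ℝ) ≤ j := Nat.cast_nonneg j
    have hs0 : (0 : ℝ) ≤ s := Nat.cast_nonneg s
    have h2 : (12 : ℝ) * (j - D) / s ≤ 0 := div_nonpos_of_nonpos_of_nonneg (by linarith) hs0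
    exact max_eq_left (by linarith)
  rw [e3, zero_add]

private theorem one_ww (D E p s : ℕ) (hE : 1 ≤ E) (hs : 1 ≤ s) :
    (((Icc (D + 1) (2 * D + 1)).filter
      (fun l => l < p ∧ s * (p + 12) + 12 * (D + E) < 12 * l)).card : ℝ) ≤
      max 0 (min (p : ℝ) (2 * D) - D - s * p / 12) := by
  set T := (Icc (D + 1) (2 * D + 1)).filter
      (fun l => l < p ∧ s * (p + 12) + 12 * (D + E) < 12 * l) with hT
  rcases T.eq_empty_or_nonempty with h0 | hne
  · rw [h0, card_empty, Nat.cast_zero]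
    exact le_max_left _ _
  · refine le_trans ?_ (le_max_right _ _)
    obtain ⟨l0, hl0, hmin⟩ : ∃ l0 ∈ T, ∀ l ∈ T, l0 ≤ l :=
      ⟨T.min' hne, T.min'_mem hne, fun l hl => T.min'_le l hl⟩
    have hm := hl0
    rw [hT, mem_filter, mem_Icc] at hm
    obtain ⟨⟨h1, h2⟩, h3, h4⟩ := hm
    have hsub : T ⊆ Icc l0 (min (p - 1) (2 * D + 1)) := by
      intro l hl
      have h5 := hmin l hl
      rw [hT, mem_filter, mem_Icc] at hl
      obtain ⟨⟨h6, h7⟩, h8, -⟩ := hl
      rw [mem_Icc]
      exact ⟨h5, le_min (by omega) h7⟩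
    have hc := card_le_card hsub
    rw [Nat.card_Icc] at hc
    have hb : l0 ≤ min (p - 1) (2 * D + 1) := le_min (by omega) h2
    have c1 : T.card + l0 ≤ p := by
      have : min (p - 1) (2 * D + 1) ≤ p - 1 := min_le_left _ _
      omega
    have c2 : T.card + l0 ≤ 2 * D + 2 := by
      have : min (p - 1) (2 * D + 1) ≤ 2 * D + 1 := min_le_right _ _
      omega
    have c1' : (T.card : ℝ) + l0 ≤ p := by exact_mod_cast c1
    have c2' : (T.card : ℝ) + l0 ≤ 2 * D + 2 := by exact_mod_cast c2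
    have h4' : (s : ℝ) * (p + 12) + 12 * (D + E) < 12 * l0 := by exact_mod_cast h4
    have hE' : (1 : ℝ) ≤ E := by exact_mod_cast hE
    have hs' : (1 : ℝ) ≤ s := by exact_mod_cast hs
    have c3 : (T.card : ℝ) + D + s * p / 12 ≤ p := by nlinarith
    have c4 : (T.card : ℝ) + D + s * p / 12 ≤ 2 * D := by nlinarith
    have c5 := le_min c3 c4
    linarith

theorem vv_ww (S D E p : ℕ) (hE : 1 ≤ E) :
    2 * ∑ l ∈ Icc (D + 1) (2 * D + 1), (if l < p then (V.ww S (D + E) p l : ℝ) else 0) ≤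
      vv S D p := by
  unfold vv
  refine mul_le_mul_of_nonneg_left ?_ (by norm_num)
  have e1 : ∀ l ∈ Icc (D + 1) (2 * D + 1), (if l < p then (V.ww S (D + E) p l : ℝ) else 0) =
      ∑ s ∈ Icc 1 S, if l < p ∧ s * (p + 12) + 12 * (D + E) < 12 * l then (1 : ℝ) else 0 := by
    intro l _
    by_cases h : l < p
    · simp only [h, if_true, true_and]
      unfold V.ww
      rw [Finset.sum_boole]
    · simp only [h, if_false, false_and, sum_const_zero]
  rw [sum_congr rfl e1, sum_comm]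
  refine sum_le_sum fun s hs => ?_
  rw [Finset.sum_boole]
  exact one_ww D E p s hE (mem_Icc.1 hs).1

theorem vv_nonneg (S : ℕ) (D p : ℝ) : 0 ≤ vv S D p := by
  unfold vv
  exact mul_nonneg (by norm_num) (sum_nonneg fun _ _ => le_max_left _ _)

/-- `vv` vanishes for `p ≥ 12 D` -/
theorem vv_big (S : ℕ) (D p : ℝ) (hD : 0 ≤ D) (hp : 12 * D ≤ p) : vv S D p = 0 := by
  unfold vv
  rw [sum_eq_zero, mul_zero]
  intro s hs
  refine max_eq_left ?_
  have h1 : min p (2 * D) ≤ 2 * D := min_le_right _ _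
  have h2 : (1 : ℝ) ≤ s := by exact_mod_cast (mem_Icc.1 hs).1
  have h3 : (0 : ℝ) ≤ p := by linarith
  have h4 : p ≤ s * p := by nlinarith
  linarith

end Pool.Agent.Work.MP_b73316_nt.Q
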