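import Pool.Agent.Work.MP_b73316_nt.Q.Defs
import Pool.Agent.Work.MP_b73316_nt.Q.NrmE
import Pool.Agent.Work.MP_b73316_nt.Q.SumG

/-!
Module AllD (size S-M): from the normal indices to all the indices.

PROOF.  `S ≤ 5`.  `sg ≥ 0` (`vv_nonneg`, `log p ≥ 0`), so if `c - ε ≤ 0` there is nothing to prove; let
`c > ε`.  Take `η ∈ (0, 1]` with `240 log 4 η ≤ ε/2`, `h (ε/2)` gives `D₁`, `nor_ex κ η` gives `D₂`.  Let
`D ≥ max D₁ D₂` and `D ≤ D' ≤ (1+η) D` normal.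
(a) For `D ≤ D'`: `vv S D' p ≤ vv S D p + 2 S (D' - D)` since
`min (p, 2D') - D' ≤ min (p, 2D) - D + (D' - D)`.
(b) `sg G S D' = ∑_{p ≤ 12 D', G} log p vv S D' p ≤ ∑_{p ≤ 12 D', G} log p vv S D p +
2 S (D' - D) ∑_{p ≤ 12 D'} log p ≤ sg G S D + 10 η D · log 4 · 24 D`: `vv S D p = 0` for `p ≥ 12 D`
(`vv_big`), `∑_{p ≤ x} log p = θ(x) ≤ log 4 · x` (`Chebyshev.theta_le_log4_mul_x`), `12 D' ≤ 24 D`.
(c) `(c - ε/2) D² ≤ (c - ε/2) D'² ≤ sg G S D' ≤ sg G S D + (ε/2) D²`.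
-/

set_option autoImplicit false

open PowerSeries Finset Filter MP0f16e1

namespace Pool.Agent.Work.MP_b73316_nt.Q

private theorem vv_step (S : ℕ) (D D' p : ℝ) (h : D ≤ D') :
    vv S D' p ≤ vv S D p + 2 * S * (D' - D) := by
  unfold vv
  have h1 : ∑ s ∈ Icc (1 : ℕ) S, max 0 (min p (2 * D') - D' - s * p / 12) ≤
      ∑ s ∈ Icc (1 : ℕ) S, (max 0 (min p (2 * D) - D - s * p / 12) + (D' - D)) := by
    refine Finset.sum_le_sum fun s _ => ?_
    have h2 : min p (2 * D') ≤ min p (2 * D) + 2 * (D' - D) := by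
      rcases le_total p (2 * D) with h3 | h3
      · rw [min_eq_left h3, min_eq_left (by linarith)]; linarith
      · rw [min_eq_right h3]
        have := min_le_right p (2 * D')
        linarith
    refine max_le ?_ ?_
    · have := le_max_left (0 : ℝ) (min p (2 * D) - D - s * p / 12)
      linarith
    · have := le_max_right (0 : ℝ) (min p (2 * D) - D - s * p / 12)
      linarith
  rw [Finset.sum_add_distrib, Finset.sum_const, Nat.card_Icc, nsmul_eq_mul] at h1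
  simp only [Nat.add_sub_cancel] at h1
  nlinarith [h1]

private theorem sum_log_le (G : Set ℕ) (D' : ℕ) [DecidablePred fun p => Nat.Prime p ∧ p ∈ G] :
    ∑ p ∈ (Icc 1 (12 * D')).filter (fun p => p.Prime ∧ p ∈ G), Real.log p ≤
      Real.log 4 * (12 * D') := by
  have h1 := Chebyshev.theta_le_log4_mul_x (x := ((12 * D' : ℕ) : ℝ)) (by positivity)
  rw [Chebyshev.theta_eq_sum_Icc, Nat.floor_natCast] at h1
  push_cast at h1
  refine le_trans ?_ h1
  refine Finset.sum_le_sum_of_subset_of_nonneg ?_ ?_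
  · intro p hp
    simp only [Finset.mem_filter, Finset.mem_Icc] at hp ⊢
    exact ⟨⟨Nat.zero_le _, hp.1.2⟩, hp.2.1⟩
  · intro p hp _
    simp only [Finset.mem_filter, Finset.mem_Icc] at hp
    exact Real.log_nonneg (by exact_mod_cast hp.2.one_le)

private theorem sg_step (G : Set ℕ) (S : ℕ) (hS : S ≤ 5) (D D' : ℕ) (η : ℝ) (h : D ≤ D')
    (h2 : (D' : ℝ) ≤ (1 + η) * D) (hη : 0 ≤ η) (hη1 : η ≤ 1) :
    sg G S D' ≤ sg G S D + 240 * Real.log 4 * η * (D : ℝ) ^ 2 := by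
  classical
  have hDR : (0 : ℝ) ≤ D := Nat.cast_nonneg D
  have hDD : (D : ℝ) ≤ D' := by exact_mod_cast h
  have hSR : (S : ℝ) ≤ 5 := by exact_mod_cast hS
  have hS0 : (0 : ℝ) ≤ S := Nat.cast_nonneg S
  have h4 : 0 ≤ Real.log 4 := Real.log_nonneg (by norm_num)
  have e1 : sg G S D = ∑ p ∈ (Icc 1 (12 * D')).filter (fun p => p.Prime ∧ p ∈ G),
      Real.log p * vv S D p := by
    unfold sg
    refine Finset.sum_subset_zero_on_sdiff ?_ ?_ ?_
    · intro p hp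
      simp only [Finset.mem_filter, Finset.mem_Icc] at hp ⊢
      exact ⟨⟨hp.1.1, by omega⟩, hp.2⟩
    · intro p hp
      simp only [Finset.mem_sdiff, Finset.mem_filter, Finset.mem_Icc] at hp
      have : 12 * D ≤ p := by
        by_contra hc
        exact hp.2 ⟨⟨hp.1.1.1, by omega⟩, hp.1.2⟩
      rw [vv_big S D p hDR (by exact_mod_cast this), mul_zero]
    · intro p _
      rfl
  have e2 : sg G S D' ≤ ∑ p ∈ (Icc 1 (12 * D')).filter (fun p => p.Prime ∧ p ∈ G),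
      (Real.log p * vv S D p + Real.log p * (10 * (η * D))) := by
    unfold sg
    refine Finset.sum_le_sum fun p hp => ?_
    simp only [Finset.mem_filter, Finset.mem_Icc] at hp
    have hl : 0 ≤ Real.log p := Real.log_nonneg (by exact_mod_cast hp.2.1.one_le)
    have h5 := vv_step S D D' p hDD
    have h6 : 2 * (S : ℝ) * ((D' : ℝ) - D) ≤ 10 * (η * D) := by
      have h7 : (D' : ℝ) - D ≤ η * D := by nlinarith
      have h8 : (0 : ℝ) ≤ (D' : ℝ) - D := by linarith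
      nlinarith
    rw [← mul_add]
    exact mul_le_mul_of_nonneg_left (by linarith) hl
  rw [Finset.sum_add_distrib, ← e1, ← Finset.sum_mul] at e2
  have h9 := sum_log_le G D'
  have h10 : Real.log 4 * (12 * (D' : ℝ)) ≤ Real.log 4 * (24 * D) := by
    refine mul_le_mul_of_nonneg_left ?_ h4
    nlinarith
  have h11 : 0 ≤ 10 * (η * (D : ℝ)) := by positivity
  have h12 := mul_le_mul_of_nonneg_right (h9.trans h10) h11
  nlinarith [h12, e2]

private theorem sg_nonneg (G : Set ℕ) (S D : ℕ) : 0 ≤ sg G S D := by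
  classical
  unfold sg
  refine Finset.sum_nonneg fun p hp => ?_
  simp only [Finset.mem_filter, Finset.mem_Icc] at hp
  exact mul_nonneg (Real.log_nonneg (by exact_mod_cast hp.2.1.one_le)) (vv_nonneg S D p)

theorem alld (S : ℕ) (hS : S ≤ 5) (κ : ℕ) (G : Set ℕ) (c : ℝ)
    (h : ∀ ε : ℝ, 0 < ε → ∃ D₀ : ℕ, ∀ D : ℕ, D₀ ≤ D → Nor κ D →
      (c - ε) * (D : ℝ) ^ 2 ≤ sg G S D) :
    ∀ ε : ℝ, 0 < ε → ∃ D₀ : ℕ, ∀ D : ℕ, D₀ ≤ D → (c - ε) * (D : ℝ) ^ 2 ≤ sg G S D := by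
  intro ε hε
  by_cases hc : c - ε ≤ 0
  · refine ⟨0, fun D _ => ?_⟩
    have h1 := sg_nonneg G S D
    have h2 : (c - ε) * (D : ℝ) ^ 2 ≤ 0 := mul_nonpos_of_nonpos_of_nonneg hc (sq_nonneg _)
    linarith
  push Not at hc
  have h4 : 0 < Real.log 4 := Real.log_pos (by norm_num)
  obtain ⟨η, hη, hη1, hη2⟩ : ∃ η : ℝ, 0 < η ∧ η ≤ 1 ∧ 240 * Real.log 4 * η ≤ ε / 2 := by
    refine ⟨min 1 (ε / 2 / (240 * Real.log 4)), lt_min one_pos (by positivity),
      min_le_left _ _, ?_⟩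
    have h5 := min_le_right (1 : ℝ) (ε / 2 / (240 * Real.log 4))
    rw [le_div_iff₀ (by positivity)] at h5
    linarith
  obtain ⟨D₁, h1⟩ := h (ε / 2) (by linarith)
  obtain ⟨D₂, h2⟩ := nor_ex κ η hη
  refine ⟨max D₁ D₂, fun D hD => ?_⟩
  obtain ⟨D', hDD, hD', hN⟩ := h2 D (le_trans (le_max_right _ _) hD)
  have h5 := h1 D' (le_trans (le_trans (le_max_left _ _) hD) hDD) hN
  have h6 := sg_step G S hS D D' η hDD hD' hη.le hη1
  have h7 : (D : ℝ) ^ 2 ≤ (D' : ℝ) ^ 2 := by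
    have : (D : ℝ) ≤ D' := by exact_mod_cast hDD
    have h0 : (0 : ℝ) ≤ D := Nat.cast_nonneg D
    nlinarith
  have h8 : (c - ε / 2) * (D : ℝ) ^ 2 ≤ (c - ε / 2) * (D' : ℝ) ^ 2 :=
    mul_le_mul_of_nonneg_left h7 (by linarith)
  have h9 : 240 * Real.log 4 * η * (D : ℝ) ^ 2 ≤ ε / 2 * (D : ℝ) ^ 2 :=
    mul_le_mul_of_nonneg_right hη2 (sq_nonneg _)
  nlinarith

end Pool.Agent.Work.MP_b73316_nt.Q
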