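import Pool.Agent.Work.MP_b73316_nt.Q.Defs

/-!
Module Chb (size S): monic Chebyshev polynomials of `[-4, 1728]`.

PROOF.  The interval has centre `862`, half length `866 = 2 · 433`.  `A_0 = 1`;
`A_k(x) = 2 · 433^k T_k((x - 862)/866)` for `k ≥ 1`: degree `k`, leading coefficient
`2 · 433^k 2^(k-1)/866^k = 1`, and `|T_k| ≤ 1` on `[-1, 1]` (Mathlib: `Polynomial.Chebyshev.T`,
`Polynomial.Chebyshev.T_real_cos`, leading coefficient and degree lemmas), or define
`A_0 = 1`, `A_1 = X - 862`, `A_2 = (X - 862) A_1 - 2 · 433²`, `A_{k+1} = (X - 862) A_k - 433² A_{k-1}`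
(`k ≥ 2`) and prove `A_k(862 + 866 cos φ) = 2 · 433^k cos (kφ)` for `k ≥ 1`.
-/

set_option autoImplicit false

open Finset

namespace Pool.Agent.Work.MP_b73316_nt.Q

theorem chb (k : ℕ) : ∃ A : Polynomial ℝ, A.Monic ∧ A.natDegree = k ∧
    ∀ x ∈ Set.Icc (-4 : ℝ) 1728, |A.eval x| ≤ 2 * 433 ^ k := by
  rcases Nat.eq_zero_or_pos k with rfl | hk
  · refine ⟨1, Polynomial.monic_one, Polynomial.natDegree_one, fun x _ => ?_⟩
    simp
  · set L : Polynomial ℝ := Polynomial.C (1 / 866 : ℝ) * (Polynomial.X - Polynomial.C 862) with hL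
    have h0 : (1 / 866 : ℝ) ≠ 0 := by norm_num
    have hLd : L.natDegree = 1 := by
      rw [hL, Polynomial.natDegree_C_mul h0, Polynomial.natDegree_X_sub_C]
    have hLl : L.leadingCoeff = 1 / 866 := by
      rw [hL, Polynomial.leadingCoeff_mul, Polynomial.leadingCoeff_C,
        Polynomial.leadingCoeff_X_sub_C, mul_one]
    set T : Polynomial ℝ := Polynomial.Chebyshev.T ℝ (k : ℤ) with hT
    have hTd : T.natDegree = k := by
      rw [hT, Polynomial.Chebyshev.natDegree_T]; simp
    have hTl : T.leadingCoeff = 2 ^ (k - 1) := by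
      rw [hT, Polynomial.Chebyshev.leadingCoeff_T]; simp
    have hc : (2 * 433 ^ k : ℝ) ≠ 0 := by positivity
    refine ⟨Polynomial.C (2 * 433 ^ k : ℝ) * T.comp L, ?_, ?_, ?_⟩
    · unfold Polynomial.Monic
      rw [Polynomial.leadingCoeff_mul, Polynomial.leadingCoeff_C,
        Polynomial.leadingCoeff_comp (by rw [hLd]; exact one_ne_zero), hLl, hTl, hTd]
      obtain ⟨m, rfl⟩ : ∃ m, k = m + 1 := ⟨k - 1, by omega⟩
      rw [Nat.add_sub_cancel, pow_succ, div_pow, one_pow]
      have e : (866 : ℝ) ^ (m + 1) = 2 ^ m * 2 * (433 ^ m * 433) := by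
        rw [show (866 : ℝ) = 2 * 433 by norm_num, mul_pow, pow_succ, pow_succ]
      rw [e]
      field_simp
    · rw [Polynomial.natDegree_C_mul hc, Polynomial.natDegree_comp, hLd, hTd, mul_one]
    · intro x hx
      rw [Polynomial.eval_mul, Polynomial.eval_C, Polynomial.eval_comp, abs_mul,
        abs_of_pos (by positivity : (0 : ℝ) < 2 * 433 ^ k)]
      have h1 : |L.eval x| ≤ 1 := by
        rw [hL, Polynomial.eval_mul, Polynomial.eval_C, Polynomial.eval_sub, Polynomial.eval_X,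
          Polynomial.eval_C, abs_le]
        constructor <;> linarith [hx.1, hx.2]
      have h2 := Polynomial.Chebyshev.abs_eval_T_real_le_one (k : ℤ) h1
      calc 2 * 433 ^ k * |T.eval (L.eval x)| ≤ 2 * 433 ^ k * 1 :=
            mul_le_mul_of_nonneg_left h2 (by positivity)
        _ = 2 * 433 ^ k := mul_one _

end Pool.Agent.Work.MP_b73316_nt.Q
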