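import Pool.Agent.Work.MP_b73316_nt.Q.Defs
import Pool.Agent.Work.MP_b73316_nt.Q.Chb
import Pool.Agent.Work.MP_b73316_nt.DetR

/-!
Module DetH (size S-M): Hankel determinants of moments.

PROOF.  `A_i` (`i ≤ D`) from `chb`, `V i j = (A_i).coeff j` (`i, j ≤ D`): lower unitriangular, `det V = 1`.
`H = (m (i + k))`.  `V * H * Vᵀ` has the entries `∑_{j, l} V i j m (j + l) V k l`, which as a complex
number is `∫ A_i(x θ) A_k(x θ) g θ dθ` (linearity of the integral; `ContinuousOn` gives interval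
integrability), of norm `≤ (π/3) · (2 · 433^i) (2 · 433^k) C`.  `det_real` with
`ρ i = (4 C π/3) 433^i`, `τ k = 433^k` and `det (V H Vᵀ) = det H`:
`|det H| ≤ (D+1)! (4 C π/3)^(D+1) 433^(2 ∑_{i ≤ D} i)`, `2 ∑_{i ≤ D} i = D (D+1)`.
-/

set_option autoImplicit false

open Finset

namespace Pool.Agent.Work.MP_b73316_nt.Q

theorem detH (m : ℕ → ℝ) (x : ℝ → ℝ) (g : ℝ → ℂ) (C : ℝ) (hC : 0 ≤ C)
    (hx : ContinuousOn x (Set.Icc (Real.pi / 3) (2 * Real.pi / 3)))
    (hg : ContinuousOn g (Set.Icc (Real.pi / 3) (2 * Real.pi / 3)))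
    (hx1 : ∀ θ ∈ Set.Icc (Real.pi / 3) (2 * Real.pi / 3), x θ ∈ Set.Icc (-4 : ℝ) 1728)
    (hgC : ∀ θ ∈ Set.Icc (Real.pi / 3) (2 * Real.pi / 3), ‖g θ‖ ≤ C)
    (hm : ∀ k : ℕ, ((m k : ℝ) : ℂ) =
      ∫ θ in (Real.pi / 3)..(2 * Real.pi / 3), ((x θ : ℂ)) ^ k * g θ) (D : ℕ) :
    |(Matrix.of fun i k : Fin (D + 1) => m (i + k)).det| ≤
      (D + 1).factorial * (4 * C * (Real.pi / 3)) ^ (D + 1) * 433 ^ (D * (D + 1)) := by
  classical
  set H : Matrix (Fin (D + 1)) (Fin (D + 1)) ℝ := Matrix.of fun i k : Fin (D + 1) => m (i + k) with hH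
  have hA : ∀ k : ℕ, ∃ A : Polynomial ℝ, A.Monic ∧ A.natDegree = k ∧
    ∀ x ∈ Set.Icc (-4 : ℝ) 1728, |A.eval x| ≤ 2 * 433 ^ k := chb
  choose A hA1 hA2 hA3 using hA
  set V : Matrix (Fin (D + 1)) (Fin (D + 1)) ℝ :=
    Matrix.of fun i j : Fin (D + 1) => (A i).coeff j with hV
  have hdetV : V.det = 1 := by
    rw [Matrix.det_of_lowerTriangular]
    · refine Finset.prod_eq_one fun i _ => ?_
      have h1 := hA1 (i : ℕ)
      have h2 := hA2 (i : ℕ)
      have : (A i).coeff i = (A i).leadingCoeff := by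
        unfold Polynomial.leadingCoeff
        rw [h2]
      simp only [hV, Matrix.of_apply]
      rw [this, h1.leadingCoeff]
    · intro i j hij
      simp only [hV, Matrix.of_apply]
      apply Polynomial.coeff_eq_zero_of_natDegree_lt
      rw [hA2]
      exact hij
  have hdet : (V * H * V.transpose).det = H.det := by
    rw [Matrix.det_mul, Matrix.det_mul, Matrix.det_transpose, hdetV]
    ring
  rw [← hdet]
  have hpi := Real.pi_pos
  have hle : Real.pi / 3 ≤ 2 * Real.pi / 3 := by linarith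
  -- the polynomial values
  have heval : ∀ (i : Fin (D + 1)) (y : ℝ), ∑ j : Fin (D + 1), V i j * y ^ (j : ℕ) = (A i).eval y := by
    intro i y
    rw [Polynomial.eval_eq_sum_range' (n := D + 1) (by rw [hA2]; exact i.2), ← Fin.sum_univ_eq_sum_range
      (fun j => (A i).coeff j * y ^ j)]
    rfl
  have hent : ∀ i k : Fin (D + 1), (((V * H * V.transpose) i k : ℝ) : ℂ) =
      ∫ θ in (Real.pi / 3)..(2 * Real.pi / 3),
        (((A i).eval (x θ) * (A k).eval (x θ) : ℝ) : ℂ) * g θ := by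
    intro i k
    have h1 : (V * H * V.transpose) i k =
        ∑ l : Fin (D + 1), ∑ j : Fin (D + 1), V i j * V k l * m (j + l) := by
      rw [Matrix.mul_apply]
      refine Finset.sum_congr rfl fun l _ => ?_
      rw [Matrix.mul_apply, Finset.sum_mul]
      refine Finset.sum_congr rfl fun j _ => ?_
      simp only [Matrix.transpose_apply, hH, Matrix.of_apply]
      ring
    rw [h1]
    push_cast
    have hint : ∀ n : ℕ, IntervalIntegrable (fun θ => ((x θ : ℂ)) ^ n * g θ) MeasureTheory.volume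
        (Real.pi / 3) (2 * Real.pi / 3) := by
      intro n
      apply ContinuousOn.intervalIntegrable
      rw [Set.uIcc_of_le hle]
      exact ((Complex.continuous_ofReal.comp_continuousOn hx).pow n).mul hg
    have h2 : ∀ l j : Fin (D + 1), ((V i j : ℝ) : ℂ) * ((V k l : ℝ) : ℂ) * ((m (j + l) : ℝ) : ℂ) =
        ∫ θ in (Real.pi / 3)..(2 * Real.pi / 3),
          (((V i j : ℝ) : ℂ) * ((V k l : ℝ) : ℂ)) * (((x θ : ℂ)) ^ ((j : ℕ) + (l : ℕ)) * g θ) := by
      intro l j
      rw [intervalIntegral.integral_const_mul, hm]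
    simp_rw [h2]
    simp_rw [← intervalIntegral.integral_finset_sum
      (fun (j : Fin (D + 1)) _ => (hint _).const_mul _)]
    rw [← intervalIntegral.integral_finset_sum]
    · congr 1
      ext θ
      rw [← heval i, ← heval k]
      push_cast
      rw [Finset.sum_mul_sum, Finset.sum_mul, Finset.sum_comm]
      refine Finset.sum_congr rfl fun j _ => ?_
      rw [Finset.sum_mul]
      refine Finset.sum_congr rfl fun l _ => ?_
      ring
    · intro l _
      apply ContinuousOn.intervalIntegrable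
      rw [Set.uIcc_of_le hle]
      apply continuousOn_finset_sum
      intro j _
      exact continuousOn_const.mul (((Complex.continuous_ofReal.comp_continuousOn hx).pow _).mul hg)
  have hbd : ∀ i k : Fin (D + 1), |(V * H * V.transpose) i k| ≤
      ((4 * C * (Real.pi / 3)) * 433 ^ (i : ℕ)) * 433 ^ (k : ℕ) := by
    intro i k
    have h1 : |(V * H * V.transpose) i k| = ‖(((V * H * V.transpose) i k : ℝ) : ℂ)‖ := by
      rw [Complex.norm_real, Real.norm_eq_abs]
    rw [h1, hent i k]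
    have h2 : ‖∫ θ in (Real.pi / 3)..(2 * Real.pi / 3),
        (((A i).eval (x θ) * (A k).eval (x θ) : ℝ) : ℂ) * g θ‖ ≤
        ((2 * 433 ^ (i : ℕ)) * (2 * 433 ^ (k : ℕ)) * C) * |2 * Real.pi / 3 - Real.pi / 3| := by
      apply intervalIntegral.norm_integral_le_of_norm_le_const
      intro θ hθ
      rw [Set.uIoc_of_le hle] at hθ
      have hθ' : θ ∈ Set.Icc (Real.pi / 3) (2 * Real.pi / 3) := ⟨hθ.1.le, hθ.2⟩
      rw [norm_mul, Complex.norm_real, Real.norm_eq_abs, abs_mul]
      have e1 := hA3 i (x θ) (hx1 θ hθ')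
      have e2 := hA3 k (x θ) (hx1 θ hθ')
      have e3 := hgC θ hθ'
      gcongr
    refine h2.trans (le_of_eq ?_)
    rw [show 2 * Real.pi / 3 - Real.pi / 3 = Real.pi / 3 by ring, abs_of_pos (by positivity)]
    ring
  refine (det_real _ (fun i => (4 * C * (Real.pi / 3)) * 433 ^ (i : ℕ)) (fun k => 433 ^ (k : ℕ))
    hbd).trans (le_of_eq ?_)
  rw [Finset.prod_mul_distrib, Finset.prod_const, Finset.card_univ, Fintype.card_fin]
  have h3 : ∏ i : Fin (D + 1), (433 : ℝ) ^ (i : ℕ) = 433 ^ (∑ i ∈ range (D + 1), i) := by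
    rw [Fin.prod_univ_eq_prod_range (fun i => (433 : ℝ) ^ i), Finset.prod_pow_eq_pow_sum]
  rw [h3]
  have h4 : (∑ i ∈ range (D + 1), i) + (∑ i ∈ range (D + 1), i) = D * (D + 1) := by
    have := Finset.sum_range_id_mul_two (D + 1)
    have h5 : (D + 1) * (D + 1 - 1) = D * (D + 1) := by
      rw [Nat.add_sub_cancel]; ring
    omega
  rw [← h4, pow_add]
  ring

end Pool.Agent.Work.MP_b73316_nt.Q
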