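import Pool.Agent.Work.MP_b73316_nt.Q.Defs
import Pool.Agent.Work.MP_b73316_nt.BdA
import Pool.Agent.Work.MP_b73316_nt.BdD

/-!
Module BdQ (size S-M): `ℓ¹` bounds at `r = 1/230 = 0.0043478...`.

PROOF.  As in `BdE.lean`, `BdF.lean` and `BdD.lean` (there `r = 7/2000`).
`bq_e4'`: `(e4 - 1)/q` has coefficients `240 σ₃(n+1)` and `∑_{n ≥ 0} 240 σ₃(n+1) r^n =
240 (1 + 9 r + 28 r² + 73 r³ + 126 r⁴ + ...) = 249.54 ≤ 250` (`σ₃(m) ≤ m^4 ≤ 4^m` for `m ≥ 4`, as in
`BdE.lean`).  `bq_dl1`: `∑_{n ≥ 1} |τ(n+1)| r^n = 24 r + 252 r² + 1472 r³ + 4830 r⁴ + ... = 0.10924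
≤ 0.12` (adapt the proof of `bd_dl` in `BdD.lean`, which shows `∑ |τ(n)| r^n ≤ 0.00383` for
`r = 0.0035`, from the recursion `(n-1) τ(n) = -24 ∑ σ(m) τ(n-m)`, i.e. `theta_dl`).
`bq_dq`: `dl1 * dq = 1`, `bd_inv`.  The others: crude.
-/

set_option autoImplicit false

open PowerSeries Finset MP0f16e1
open scoped ArithmeticFunction.sigma

namespace Pool.Agent.Work.MP_b73316_nt.Q

private theorem bq_coeff_toR (f : PowerSeries ℤ) (n : ℕ) :
    coeff n (toR ℝ f) = ((coeff n f : ℤ) : ℝ) := by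
  rw [toR, PowerSeries.coeff_map]
  rfl

private theorem bq_X {r : ℝ} (hr : 0 ≤ r) : Bd r r X := by
  intro N
  have h1 : ∀ n, |coeff n (X : PowerSeries ℝ)| * r ^ n = if n = 1 then r else 0 := by
    intro n
    rw [coeff_X]
    split_ifs with h
    · subst h
      simp
    · simp
  rw [Finset.sum_congr rfl fun n _ => h1 n, Finset.sum_ite_eq']
  split_ifs
  · exact le_rfl
  · exact hr

/-- `|E₂ - 1|` -/
private def bq_w (i : ℕ) : ℝ := if i = 0 then 0 else 24 * ((σ 1 i : ℕ) : ℝ)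

private theorem bq_w_nonneg (i : ℕ) : 0 ≤ bq_w i := by
  unfold bq_w
  split_ifs
  · exact le_rfl
  · positivity

private theorem bq_w_eq (i : ℕ) : |((coeff i (e2 - 1) : ℤ) : ℝ)| = bq_w i := by
  unfold bq_w
  rw [map_sub, coeff_one]
  by_cases h : i = 0
  · subst h
    rw [e2_coeff_zero]
    simp
  · rw [if_neg h, if_neg h, e2, coeff_mk, if_neg h]
    push_cast
    rw [sub_zero, abs_mul]
    norm_num

private theorem bq_rec (n : ℕ) : |((coeff n dl : ℤ) : ℝ)| ≤ (if n = 1 then 1 else 0) +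
    ∑ p ∈ antidiagonal n, bq_w p.1 * |((coeff p.2 dl : ℤ) : ℝ)| := by
  have hnn : 0 ≤ ∑ p ∈ antidiagonal n, bq_w p.1 * |((coeff p.2 dl : ℤ) : ℝ)| :=
    Finset.sum_nonneg fun p _ => mul_nonneg (bq_w_nonneg _) (abs_nonneg _)
  rcases Nat.lt_or_ge n 2 with hn | hn
  · interval_cases n
    · rw [dl_coeff_zero]
      simpa using hnn
    · rw [dl_coeff_one, if_pos rfl]
      simp only [Int.cast_one, abs_one]
      linarith
  · have h1 : (e2 - 1) * dl = theta ℤ dl - dl := by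
      rw [theta_dl]
      ring
    have h2 := congrArg (coeff n) h1
    rw [coeff_mul, map_sub] at h2
    have h3 : coeff n (theta ℤ dl) = (n : ℤ) * coeff n dl := by
      simp [theta]
    rw [h3] at h2
    have h4 : ((n : ℝ) - 1) * ((coeff n dl : ℤ) : ℝ) =
        ∑ p ∈ antidiagonal n, ((coeff p.1 (e2 - 1) : ℤ) : ℝ) * ((coeff p.2 dl : ℤ) : ℝ) := by
      have h5 := congrArg (fun z : ℤ => (z : ℝ)) h2
      push_cast at h5
      rw [h5]
      ring
    have hn' : (1 : ℝ) ≤ (n : ℝ) - 1 := by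
      have : (2 : ℝ) ≤ n := by exact_mod_cast hn
      linarith
    calc |((coeff n dl : ℤ) : ℝ)| ≤ ((n : ℝ) - 1) * |((coeff n dl : ℤ) : ℝ)| :=
          le_mul_of_one_le_left (abs_nonneg _) hn'
      _ = |((n : ℝ) - 1) * ((coeff n dl : ℤ) : ℝ)| := by
          rw [abs_mul, abs_of_nonneg (by linarith : (0 : ℝ) ≤ (n : ℝ) - 1)]
      _ = |∑ p ∈ antidiagonal n, ((coeff p.1 (e2 - 1) : ℤ) : ℝ) * ((coeff p.2 dl : ℤ) : ℝ)| := by
          rw [h4]
      _ ≤ ∑ p ∈ antidiagonal n,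
            |((coeff p.1 (e2 - 1) : ℤ) : ℝ) * ((coeff p.2 dl : ℤ) : ℝ)| :=
          Finset.abs_sum_le_sum_abs _ _
      _ = ∑ p ∈ antidiagonal n, bq_w p.1 * |((coeff p.2 dl : ℤ) : ℝ)| := by
          refine Finset.sum_congr rfl fun p _ => ?_
          rw [abs_mul, bq_w_eq]
      _ ≤ _ := by
          rw [if_neg (by omega)]
          linarith

private theorem bq_cauchy (N : ℕ) (u v : ℕ → ℝ) (hu : ∀ i, 0 ≤ u i) (hv : ∀ i, 0 ≤ v i) :
    ∑ n ∈ range N, ∑ p ∈ antidiagonal n, u p.1 * v p.2 ≤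
      (∑ i ∈ range N, u i) * ∑ j ∈ range N, v j := by
  classical
  have h1 : ∀ n ∈ range N, ∑ p ∈ antidiagonal n, u p.1 * v p.2 =
      ∑ p ∈ (range N ×ˢ range N) with p.1 + p.2 = n, u p.1 * v p.2 := by
    intro n hn
    apply Finset.sum_congr _ fun _ _ => rfl
    ext ⟨a, b⟩
    simp only [HasAntidiagonal.mem_antidiagonal, mem_filter, mem_product, mem_range] at hn ⊢
    constructor
    · intro h
      refine ⟨⟨?_, ?_⟩, h⟩ <;> omega
    · exact fun h => h.2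
  rw [Finset.sum_congr rfl h1, Finset.sum_mul_sum, ← Finset.sum_product']
  exact Finset.sum_fiberwise_le_sum_of_sum_fiber_nonneg fun y _ =>
    Finset.sum_nonneg fun p _ => mul_nonneg (hu _) (hv _)

private theorem bq_sq (k : ℕ) : (k + 1) ^ 2 ≤ 4 ^ k := by
  induction k with
  | zero => norm_num
  | succ m ih =>
    have h1 : (m + 1 + 1) ^ 2 ≤ 4 * (m + 1) ^ 2 := by
      rw [show 4 * (m + 1) ^ 2 = (m + 1 + 1) ^ 2 + (3 * m ^ 2 + 4 * m) by ring]
      exact Nat.le_add_right _ _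
    calc (m + 1 + 1) ^ 2 ≤ 4 * (m + 1) ^ 2 := h1
      _ ≤ 4 * 4 ^ m := Nat.mul_le_mul_left 4 ih
      _ = 4 ^ (m + 1) := by rw [pow_succ]; ring

private theorem bq_wsum (N : ℕ) :
    ∑ i ∈ range N, bq_w i * (1 / 230 : ℝ) ^ i ≤ 24 / 226 := by
  have h1 : ∀ i, bq_w (i + 1) * (1 / 230 : ℝ) ^ (i + 1) ≤
      24 * (1 / 230) * (4 / 230 : ℝ) ^ i := by
    intro i
    have e1 : ((σ 1 (i + 1) : ℕ) : ℝ) ≤ 4 ^ i := by
      have e2 := (ArithmeticFunction.sigma_le_pow_succ 1 (i + 1)).trans (bq_sq i)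
      exact_mod_cast e2
    unfold bq_w
    rw [if_neg (by omega)]
    calc 24 * ((σ 1 (i + 1) : ℕ) : ℝ) * (1 / 230 : ℝ) ^ (i + 1)
        ≤ 24 * 4 ^ i * (1 / 230 : ℝ) ^ (i + 1) := by gcongr
      _ = 24 * (1 / 230) * (4 / 230 : ℝ) ^ i := by
          rw [show (4 / 230 : ℝ) = 4 * (1 / 230) by norm_num, mul_pow, pow_succ]
          ring
  have h2 : ∑ i ∈ range N, bq_w i * (1 / 230 : ℝ) ^ i ≤
      ∑ i ∈ range N, bq_w (i + 1) * (1 / 230 : ℝ) ^ (i + 1) := by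
    rcases N with _ | M
    · simp
    · rw [Finset.sum_range_succ', Finset.sum_range_succ]
      have e1 : bq_w 0 * (1 / 230 : ℝ) ^ 0 = 0 := by simp [bq_w]
      have e2 : 0 ≤ bq_w (M + 1) * (1 / 230 : ℝ) ^ (M + 1) :=
        mul_nonneg (bq_w_nonneg _) (by positivity)
      linarith
  calc ∑ i ∈ range N, bq_w i * (1 / 230 : ℝ) ^ i
      ≤ ∑ i ∈ range N, bq_w (i + 1) * (1 / 230 : ℝ) ^ (i + 1) := h2
    _ ≤ ∑ i ∈ range N, 24 * (1 / 230) * (4 / 230 : ℝ) ^ i :=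
        Finset.sum_le_sum fun i _ => h1 i
    _ = 24 * (1 / 230) * ∑ i ∈ range N, (4 / 230 : ℝ) ^ i := by rw [Finset.mul_sum]
    _ ≤ 24 * (1 / 230) * (1 - 4 / 230)⁻¹ := by
        apply mul_le_mul_of_nonneg_left _ (by norm_num)
        exact sum_le_hasSum _ (fun _ _ => by positivity)
          (hasSum_geometric_of_lt_one (by norm_num) (by norm_num : (4 / 230 : ℝ) < 1))
    _ ≤ 24 / 226 := by norm_num

private theorem bq_dl (N : ℕ) :
    ∑ n ∈ range N, |((coeff n dl : ℤ) : ℝ)| * (1 / 230 : ℝ) ^ n ≤ (1 / 230) * (226 / 202) := by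
  set r : ℝ := 1 / 230 with hr
  set v : ℕ → ℝ := fun j => |((coeff j dl : ℤ) : ℝ)| * r ^ j with hv
  set u : ℕ → ℝ := fun i => bq_w i * r ^ i with hu
  have hr0 : 0 < r := by rw [hr]; norm_num
  have hv0 : ∀ j, 0 ≤ v j := fun j => by positivity
  have hu0 : ∀ j, 0 ≤ u j := fun j => mul_nonneg (bq_w_nonneg _) (by positivity)
  have h1 : ∀ n, v n ≤ (if n = 1 then r else 0) + ∑ p ∈ antidiagonal n, u p.1 * v p.2 := by
    intro n
    have h2 := mul_le_mul_of_nonneg_right (bq_rec n) (pow_nonneg hr0.le n)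
    have h3 : (∑ p ∈ antidiagonal n, bq_w p.1 * |((coeff p.2 dl : ℤ) : ℝ)|) * r ^ n =
        ∑ p ∈ antidiagonal n, u p.1 * v p.2 := by
      rw [Finset.sum_mul]
      refine Finset.sum_congr rfl fun p hp => ?_
      have h4 : p.1 + p.2 = n := by simpa using hp
      simp only [hu, hv]
      rw [← h4, pow_add]
      ring
    rw [add_mul, h3] at h2
    refine h2.trans (add_le_add ?_ le_rfl)
    split_ifs with h5
    · subst h5
      rw [one_mul, pow_one]
    · rw [zero_mul]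
  have h2 : ∑ n ∈ range N, v n ≤ r + (∑ i ∈ range N, u i) * ∑ j ∈ range N, v j := by
    calc ∑ n ∈ range N, v n
        ≤ ∑ n ∈ range N, ((if n = 1 then r else 0) + ∑ p ∈ antidiagonal n, u p.1 * v p.2) :=
          Finset.sum_le_sum fun n _ => h1 n
      _ = (∑ n ∈ range N, if n = 1 then r else 0) +
            ∑ n ∈ range N, ∑ p ∈ antidiagonal n, u p.1 * v p.2 := Finset.sum_add_distrib
      _ ≤ r + (∑ i ∈ range N, u i) * ∑ j ∈ range N, v j := by
          refine add_le_add ?_ (bq_cauchy N u v hu0 hv0)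
          rw [Finset.sum_ite_eq']
          split_ifs
          · exact le_rfl
          · exact hr0.le
  have h3 : ∑ i ∈ range N, u i ≤ 24 / 226 := bq_wsum N
  have hS : 0 ≤ ∑ j ∈ range N, v j := Finset.sum_nonneg fun j _ => hv0 j
  have h4 : (∑ i ∈ range N, u i) * ∑ j ∈ range N, v j ≤ 24 / 226 * ∑ j ∈ range N, v j :=
    mul_le_mul_of_nonneg_right h3 hS
  have key : ∀ r W S : ℝ, S ≤ r + W * S → W * S ≤ 24 / 226 * S → S ≤ r * (226 / 202) := by
    intro r W S h1 h2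
    linarith
  exact key _ _ _ h2 h4

private theorem bq_four_pow (n : ℕ) : (n + 4) ^ 4 ≤ 4 ^ (n + 4) := by
  induction n with
  | zero => norm_num
  | succ n ih =>
    have h1 : (n + 1 + 4) ^ 4 ≤ 4 * (n + 4) ^ 4 := by
      have : 4 * (n + 1 + 4) ≤ 5 * (n + 4) := by omega
      have h2 : (4 * (n + 1 + 4)) ^ 4 ≤ (5 * (n + 4)) ^ 4 := Nat.pow_le_pow_left this 4
      rw [mul_pow, mul_pow] at h2
      omega
    calc (n + 1 + 4) ^ 4 ≤ 4 * (n + 4) ^ 4 := h1
      _ ≤ 4 * 4 ^ (n + 4) := Nat.mul_le_mul_left 4 ih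
      _ = 4 ^ (n + 1 + 4) := by ring

/-- `(E₄ - 1)/q` -/
noncomputable def e4s : PowerSeries ℝ := PowerSeries.mk fun n => coeff (n + 1) (toR ℝ e4)

theorem e4s_eq : toR ℝ e4 = 1 + X * e4s := by
  ext n
  rcases n with _ | n
  · rw [bq_coeff_toR, e4, coeff_mk, if_pos rfl, map_add, coeff_zero_X_mul]
    simp
  · rw [map_add, coeff_succ_X_mul, e4s, coeff_mk, coeff_one, if_neg (Nat.succ_ne_zero n), zero_add]

theorem dl1_eq : dl = X * dl1 := by
  ext n
  rcases n with _ | n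
  · rw [dl_coeff_zero, coeff_zero_X_mul]
  · rw [coeff_succ_X_mul, dl1, coeff_mk]

theorem dl1_dq : dl1 * dq = 1 := by
  unfold dq
  apply mul_invOfUnit
  rw [← coeff_zero_eq_constantCoeff_apply, dl1, coeff_mk, zero_add, dl_coeff_one]
  rfl

theorem tt_jq : tt * jq = X := by
  have h1 := e4_mul_e4i
  have h2 := dl1_dq
  unfold tt jq
  calc dl * e4i ^ 3 * (e4 ^ 3 * dq) = dl * (e4 * e4i) ^ 3 * dq := by ring
    _ = X * (dl1 * dq) := by
      rw [h1, one_pow, mul_one, dl1_eq, mul_assoc]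
    _ = X := by rw [h2, mul_one]

private theorem bq_c_e4s (n : ℕ) : coeff n e4s =
    240 * ((ArithmeticFunction.sigma 3 (n + 1) : ℕ) : ℝ) := by
  rw [e4s, coeff_mk, bq_coeff_toR, e4, PowerSeries.coeff_mk, if_neg (Nat.succ_ne_zero n)]
  push_cast
  ring

private theorem bq_part (N : ℕ) :
    ∑ n ∈ range (N + 3), |coeff n e4s| * (1 / 230 : ℝ) ^ n ≤
      240 + 2160 * (1 / 230) + 6720 * (1 / 230) ^ 2 +
        960 * (4 / 230) ^ 3 / (1 - 4 / 230) * (1 - (4 / 230) ^ N) := by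
  induction N with
  | zero =>
    have s1 : ArithmeticFunction.sigma 3 1 = 1 := by decide
    have s2 : ArithmeticFunction.sigma 3 2 = 9 := by decide
    have s3 : ArithmeticFunction.sigma 3 3 = 28 := by decide
    have c0 : coeff 0 e4s = 240 := by
      rw [bq_c_e4s, zero_add, s1]
      norm_num
    have c1 : coeff 1 e4s = 2160 := by
      rw [bq_c_e4s, s2]
      norm_num
    have c2 : coeff 2 e4s = 6720 := by
      rw [bq_c_e4s, s3]
      norm_num
    simp only [zero_add, Finset.sum_range_succ, Finset.sum_range_zero, c0, c1, c2]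
    norm_num
  | succ N ih =>
    rw [show N + 1 + 3 = (N + 3) + 1 by ring, Finset.sum_range_succ]
    have h1 : |coeff (N + 3) e4s| * (1 / 230 : ℝ) ^ (N + 3) ≤ 960 * (4 / 230) ^ (N + 3) := by
      rw [bq_c_e4s]
      have h2 : ((ArithmeticFunction.sigma 3 (N + 3 + 1) : ℕ) : ℝ) ≤ 4 ^ (N + 4) := by
        have := (ArithmeticFunction.sigma_le_pow_succ 3 (N + 4)).trans (bq_four_pow N)
        exact_mod_cast this
      have h3 : (0 : ℝ) ≤ 240 * ((ArithmeticFunction.sigma 3 (N + 3 + 1) : ℕ) : ℝ) := by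
        positivity
      rw [abs_of_nonneg h3]
      calc 240 * ((ArithmeticFunction.sigma 3 (N + 3 + 1) : ℕ) : ℝ) * (1 / 230 : ℝ) ^ (N + 3)
          ≤ 240 * 4 ^ (N + 4) * (1 / 230 : ℝ) ^ (N + 3) := by gcongr
        _ = 960 * (4 / 230) ^ (N + 3) := by
            rw [show (4 / 230 : ℝ) = 4 * (1 / 230) by norm_num, mul_pow, pow_succ]
            ring
    have h4 : (960 : ℝ) * (4 / 230) ^ 3 / (1 - 4 / 230) * (1 - (4 / 230) ^ (N + 1)) =
        960 * (4 / 230) ^ 3 / (1 - 4 / 230) * (1 - (4 / 230) ^ N) + 960 * (4 / 230) ^ (N + 3) := by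
      rw [pow_succ, pow_add]
      ring
    rw [h4]
    linarith

theorem bq_e4s : Bd (1 / 230) 250 e4s := by
  intro N
  have h1 : ∑ n ∈ range N, |coeff n e4s| * (1 / 230 : ℝ) ^ n ≤
      ∑ n ∈ range (N + 3), |coeff n e4s| * (1 / 230 : ℝ) ^ n := by
    apply Finset.sum_le_sum_of_subset_of_nonneg
    · exact Finset.range_mono (by omega)
    · intro n _ _
      positivity
  have h2 := bq_part N
  have h3 : (0 : ℝ) ≤ (4 / 230) ^ N := by positivity
  have h4 : (960 : ℝ) * (4 / 230) ^ 3 / (1 - 4 / 230) * (1 - (4 / 230) ^ N) ≤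
      960 * (4 / 230) ^ 3 / (1 - 4 / 230) * 1 := by
    apply mul_le_mul_of_nonneg_left _ (by norm_num)
    linarith
  have h5 : (240 : ℝ) + 2160 * (1 / 230) + 6720 * (1 / 230) ^ 2 +
      960 * (4 / 230) ^ 3 / (1 - 4 / 230) * 1 ≤ 250 := by norm_num
  linarith

theorem bq_e4 : ∃ C : ℝ, Bd (1 / 230) C (toR ℝ e4) := by
  refine ⟨1 + 1 / 230 * 250, ?_⟩
  rw [e4s_eq]
  exact bd_add bd_one (bd_mul (by norm_num) (bq_X (by norm_num)) bq_e4s) (by norm_num)

theorem bq_e6 : ∃ C : ℝ, Bd (1 / 230) C (toR ℝ e6) := by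
  have hr : ‖(1 / 230 : ℝ)‖ < 1 := by
    rw [Real.norm_eq_abs, abs_of_pos (by norm_num)]
    norm_num
  have h0 : Summable (fun n : ℕ => ((n : ℝ) ^ 0 * (1 / 230 : ℝ) ^ n +
      504 * ((n : ℝ) ^ 6 * (1 / 230 : ℝ) ^ n))) :=
    (summable_pow_mul_geometric_of_norm_lt_one 0 hr).add
      ((summable_pow_mul_geometric_of_norm_lt_one 6 hr).mul_left 504)
  refine ⟨_, fun N => le_trans (Finset.sum_le_sum fun n _ => ?_)
    (h0.sum_le_tsum (range N) (fun n _ => by positivity))⟩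
  rw [bq_coeff_toR, e6, PowerSeries.coeff_mk]
  have hp : (0 : ℝ) < (1 / 230 : ℝ) ^ n := by positivity
  have h1 : |(((if n = 0 then 1 else -504 * ((ArithmeticFunction.sigma 5 n : ℕ) : ℤ) : ℤ)) : ℝ)| ≤
      1 + 504 * (n : ℝ) ^ 6 := by
    split_ifs with hn
    · subst hn
      norm_num
    · have h2 : ((ArithmeticFunction.sigma 5 n : ℕ) : ℝ) ≤ (n : ℝ) ^ 6 := by
        exact_mod_cast ArithmeticFunction.sigma_le_pow_succ 5 n
      push_cast
      rw [abs_mul, abs_neg, abs_of_nonneg (by norm_num : (0 : ℝ) ≤ 504),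
        abs_of_nonneg (Nat.cast_nonneg _)]
      linarith
  calc _ ≤ (1 + 504 * (n : ℝ) ^ 6) * (1 / 230 : ℝ) ^ n :=
        mul_le_mul_of_nonneg_right h1 hp.le
    _ = (n : ℝ) ^ 0 * (1 / 230 : ℝ) ^ n + 504 * ((n : ℝ) ^ 6 * (1 / 230 : ℝ) ^ n) := by ring

theorem bq_dl1 : Bd (1 / 230) (12 / 100) (toR ℝ dl1 - 1) := by
  intro N
  have hc : ∀ n, |coeff n (toR ℝ dl1 - 1)| * (1 / 230 : ℝ) ^ (n + 1) +
      (if n = 0 then 1 / 230 else 0) = |((coeff (n + 1) dl : ℤ) : ℝ)| * (1 / 230 : ℝ) ^ (n + 1) := by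
    intro n
    rw [map_sub, bq_coeff_toR, dl1, coeff_mk, coeff_one]
    by_cases hn : n = 0
    · subst hn
      rw [if_pos rfl, if_pos rfl, zero_add, dl_coeff_one]
      norm_num
    · rw [if_neg hn, if_neg hn, sub_zero, add_zero]
  rcases N with _ | N
  · simp only [Finset.range_zero, Finset.sum_empty]
    norm_num
  have h1 := bq_dl (N + 2)
  rw [Finset.sum_range_succ', dl_coeff_zero] at h1
  have h2 : ∑ n ∈ range (N + 1), |((coeff (n + 1) dl : ℤ) : ℝ)| * (1 / 230 : ℝ) ^ (n + 1) =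
      (1 / 230) * ∑ n ∈ range (N + 1), |coeff n (toR ℝ dl1 - 1)| * (1 / 230 : ℝ) ^ n + 1 / 230 := by
    rw [← Finset.sum_congr rfl fun n _ => hc n, Finset.sum_add_distrib, Finset.sum_ite_eq',
      if_pos (Finset.mem_range.2 (Nat.succ_pos N)), Finset.mul_sum]
    congr 1
    refine Finset.sum_congr rfl fun n _ => ?_
    rw [pow_succ]
    ring
  rw [h2] at h1
  simp only [Int.cast_zero, abs_zero, zero_mul, add_zero] at h1
  linarith

theorem bq_dq : ∃ C : ℝ, Bd (1 / 230) C (toR ℝ dq) := by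
  refine ⟨_, bd_inv (by norm_num) ?_ bq_dl1 (by norm_num)⟩
  unfold toR
  rw [← map_mul, mul_comm, dl1_dq, map_one]

private theorem bq_coeff_Fs (b n : ℕ) :
    0 ≤ coeff n (Fs b) ∧ coeff n (Fs b) ≤ (2 : ℚ) ^ n := by
  rw [Fs, coeff_mk]
  constructor
  · apply Finset.sum_nonneg
    intro d _
    positivity
  · calc ∑ d ∈ n.divisors, ((d : ℚ) ^ b)⁻¹ ≤ ∑ d ∈ n.divisors, (1 : ℚ) := by
          apply Finset.sum_le_sum
          intro d hd
          have h1 : 1 ≤ d := Nat.pos_of_mem_divisors hd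
          have h2 : (1 : ℚ) ≤ (d : ℚ) ^ b := one_le_pow₀ (by exact_mod_cast h1)
          exact inv_le_one_of_one_le₀ h2
      _ = (n.divisors.card : ℚ) := by simp
      _ ≤ (n : ℚ) := by exact_mod_cast Nat.card_divisors_le_self n
      _ ≤ (2 : ℚ) ^ n := by exact_mod_cast (Nat.lt_two_pow_self (n := n)).le

theorem bq_Fs (b : ℕ) : ∃ C : ℝ, Bd (1 / 230) C ((Fs b).map (algebraMap ℚ ℝ)) := by
  refine ⟨(1 - 2 * (1 / 230) : ℝ)⁻¹, ?_⟩
  intro N
  have hs : Summable (fun n : ℕ => ((2 : ℝ) * (1 / 230)) ^ n) :=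
    summable_geometric_of_lt_one (by norm_num) (by norm_num)
  rw [← tsum_geometric_of_lt_one (by norm_num : (0 : ℝ) ≤ 2 * (1 / 230)) (by norm_num)]
  refine le_trans ?_ (hs.sum_le_tsum (Finset.range N) (fun n _ => by positivity))
  apply Finset.sum_le_sum
  intro n _
  rw [mul_pow]
  apply mul_le_mul_of_nonneg_right _ (by positivity)
  rw [coeff_map]
  obtain ⟨h1, h2⟩ := bq_coeff_Fs b n
  have h3 : (0 : ℝ) ≤ algebraMap ℚ ℝ (coeff n (Fs b)) := by
    rw [eq_ratCast]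
    exact_mod_cast h1
  rw [abs_of_nonneg h3, eq_ratCast]
  exact_mod_cast h2

end Pool.Agent.Work.MP_b73316_nt.Q
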