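import Pool.Agent.Work.MP_b73316_nt.Q.Defs
import Pool.Agent.Work.MP_b73316_nt.ZrA
import Pool.Agent.Work.MP_b73316_nt.Q.BdQ
import Pool.Agent.Work.MP_b73316_nt.ZrA

/-!
Module HanA (size S-M): the determinant `δ` is, up to sign, the Hankel determinant of the
coefficients `mu κ m` of `h` in powers of `t`.

PROOF.  For `l ≥ 1` let `c l R = coeff l (toR ℚ (xx * jq^l) * R)` (`ℚ`-linear in `R`): the coefficient
of `t^l` in `R`.
(1) Unipotent at `l`: if `coeff k R = 0` for `k < l` then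
`coeff l (u R) = coeff 0 u * coeff l R`, `coeff 0 (xx jq^l) = 1` (`xx_coeff_zero`, `coeff 0 jq = 1`).
(2) `c l (tt^e) = 0` for `e < l`: `tt jq = X` (`tt_jq`), so `xx jq^l tt^e = X^e xx jq^(l-e)`, and its
coefficient at `q^l` is `coeff (l-e) (xx jq^(l-e))`.  With `a = l - e ≥ 1`: `theta_tt : theta tt = tt xx`
and `tt jq = X` give `theta jq = jq (1 - xx)` (apply `theta` to `tt jq = X`, `theta X = X`, cancel
`tt ≠ 0`), `theta (jq^a) = a jq^a (1 - xx)`; compare the coefficients at `q^a`: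
`a coeff a (jq^a) = a (coeff a (jq^a) - coeff a (xx jq^a))`, so `coeff a (xx jq^a) = 0`.
(3) `Han.det` with `F = ℚ`, `lam k = c (D+1+k)`: the entries are
`c (D+1+k) (hr κ e) = coeff (D+1+k) (xx jq^(D+1+k) tt^e xx^κ F) = coeff (D+1+k-e) (xx^(κ+1)
jq^(D+1+k-e) F) = mu κ (D+1+k-e)` (`jq^(l) tt^e = X^e jq^(l-e)`).
(4) Reverse the rows (`e = D - i`, `Fin.revPerm`; the determinant changes by a sign,
`Matrix.det_permute`/`Matrix.abs_det_submatrix_equiv_equiv`): `mu κ (1 + i + k)`.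
-/

set_option autoImplicit false

open PowerSeries Finset MP0f16e1

namespace Pool.Agent.Work.MP_b73316_nt.Q

private theorem toR_mul_h (a b : PowerSeries ℤ) : toR ℚ (a * b) = toR ℚ a * toR ℚ b := by
  unfold toR
  exact map_mul _ _ _

private theorem tt_jq_h : tt * jq = X := by
  have h1 : dl = X * dl1 := by
    ext n
    cases n with
    | zero => rw [dl_coeff_zero, coeff_zero_X_mul]
    | succ n => rw [coeff_succ_X_mul, dl1, coeff_mk]
  have h2 : dl1 * dq = 1 := by
    unfold dq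
    refine PowerSeries.mul_invOfUnit dl1 1 ?_
    rw [← coeff_zero_eq_constantCoeff_apply, dl1, coeff_mk, zero_add, dl_coeff_one, Units.val_one]
  have h3 := e4_mul_e4i
  unfold tt jq
  calc dl * e4i ^ 3 * (e4 ^ 3 * dq) = (e4 * e4i) ^ 3 * (dl * dq) := by ring
    _ = dl * dq := by rw [h3, one_pow, one_mul]
    _ = X * (dl1 * dq) := by rw [h1]; ring
    _ = X := by rw [h2, mul_one]

private theorem jq_coeff_zero_h : coeff 0 jq = 1 := by
  unfold jq
  rw [coeff_zero_eq_constantCoeff_apply, map_mul, map_pow, ← coeff_zero_eq_constantCoeff_apply,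
    e4_coeff_zero]
  unfold dq
  rw [constantCoeff_invOfUnit]
  simp

private theorem coeff_theta_h (i : ℕ) (f : PowerSeries ℤ) :
    coeff i (theta ℤ f) = (i : ℤ) * coeff i f := by
  simp [theta]

private theorem tt_ne_h : tt ≠ 0 := by
  intro h
  have h1 := tt_jq_h
  rw [h, zero_mul] at h1
  exact X_ne_zero h1.symm

private theorem theta_jq_h : theta ℤ jq = jq * (1 - xx) := by
  have h1 := congrArg (theta ℤ) tt_jq_h
  rw [theta_mul, theta_tt] at h1
  have h2 : theta ℤ (X : PowerSeries ℤ) = X := by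
    ext n
    rw [coeff_theta_h, coeff_X]
    split_ifs with h
    · rw [h]; simp
    · simp
  rw [h2] at h1
  have h3 := tt_jq_h
  apply mul_left_cancel₀ tt_ne_h
  linear_combination h1 - h3

private theorem theta_jq_pow_h (a : ℕ) : theta ℤ (jq ^ a) = (a : PowerSeries ℤ) * (jq ^ a * (1 - xx)) := by
  induction a with
  | zero =>
    have h : theta ℤ (1 : PowerSeries ℤ) = 0 := by
      have h := theta_mul ℤ 1 1
      rw [mul_one] at h
      linear_combination -h
    rw [pow_zero, h]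
    simp
  | succ n ih =>
    rw [pow_succ, theta_mul, ih, theta_jq_h]
    push_cast
    ring

private theorem key_h (a : ℕ) (ha : 1 ≤ a) : coeff a (xx * jq ^ a) = 0 := by
  have h1 := congrArg (coeff a) (theta_jq_pow_h a)
  rw [coeff_theta_h] at h1
  have h2 : (a : PowerSeries ℤ) * (jq ^ a * (1 - xx)) = (a : ℤ) • (jq ^ a - xx * jq ^ a) := by
    rw [zsmul_eq_mul]
    push_cast
    ring
  rw [h2, map_zsmul, map_sub, smul_eq_mul] at h1
  have h3 : (a : ℤ) ≠ 0 := by
    have : 0 < a := ha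
    exact_mod_cast this.ne'
  have h4 := mul_left_cancel₀ h3 h1
  linarith

private noncomputable def cf (l : ℕ) : PowerSeries ℚ →ₗ[ℚ] ℚ :=
  (coeff l).comp (LinearMap.mulLeft ℚ (toR ℚ (xx * jq ^ l)))

private theorem cf_apply (l : ℕ) (R : PowerSeries ℚ) :
    cf l R = coeff l (toR ℚ (xx * jq ^ l) * R) := rfl

private theorem split_h (l e : ℕ) (he : e ≤ l) (w : PowerSeries ℤ) :
    w * jq ^ l * tt ^ e = X ^ e * (w * jq ^ (l - e)) := by
  have h1 := tt_jq_h
  have h2 : jq ^ l = jq ^ (l - e) * jq ^ e := by rw [← pow_add, Nat.sub_add_cancel he]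
  rw [h2, ← h1, mul_pow]
  ring

private theorem fnl_h (D l : ℕ) (hl : D < l) : Fnl D l (cf l) := by
  refine ⟨fun R hR => ?_, fun e he => ?_⟩
  · rw [cf_apply]
    have h1 : X ^ l ∣ R := X_pow_dvd_iff.2 hR
    obtain ⟨S, hS⟩ := h1
    have h2 : toR ℚ (xx * jq ^ l) * R = X ^ l * (toR ℚ (xx * jq ^ l) * S) := by
      rw [hS]; ring
    have h3 : coeff 0 (toR ℚ (xx * jq ^ l)) = 1 := by
      unfold toR
      rw [coeff_map, coeff_zero_eq_constantCoeff_apply, map_mul, map_pow,
        ← coeff_zero_eq_constantCoeff_apply, ← coeff_zero_eq_constantCoeff_apply, xx_coeff_zero,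
        jq_coeff_zero_h]
      simp
    have h4 : ∀ T : PowerSeries ℚ, coeff l (X ^ l * T) = coeff 0 T := fun T => by
      have := coeff_X_pow_mul T l 0
      rwa [zero_add] at this
    rw [h2, hS, h4, h4, coeff_zero_eq_constantCoeff_apply, map_mul,
      ← coeff_zero_eq_constantCoeff_apply, h3, one_mul, ← coeff_zero_eq_constantCoeff_apply]
    rfl
  · rw [cf_apply, ← toR_mul_h, split_h l e (by omega)]
    unfold toR
    rw [coeff_map]
    have h1 := coeff_X_pow_mul (xx * jq ^ (l - e)) e (l - e)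
    rw [Nat.sub_add_cancel (by omega)] at h1
    rw [h1, key_h (l - e) (by omega), map_zero]

private theorem ent_h (κ l e : ℕ) (he : e ≤ l) : cf l (hr κ e) = mu κ (l - e) := by
  rw [cf_apply, hr, hh, mu]
  have h1 : toR ℚ (xx * jq ^ l) * (toR ℚ (tt ^ e) * (toR ℚ (xx ^ κ) * Fs (2 * κ + 1))) =
      X ^ e * (toR ℚ (xx ^ (κ + 1) * jq ^ (l - e)) * Fs (2 * κ + 1)) := by
    have h2 : toR ℚ (xx * jq ^ l) * toR ℚ (tt ^ e) * toR ℚ (xx ^ κ) =
        X ^ e * toR ℚ (xx ^ (κ + 1) * jq ^ (l - e)) := by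
      rw [← toR_mul_h, ← toR_mul_h]
      have h3 : (X : PowerSeries ℚ) ^ e = toR ℚ (X ^ e) := by
        unfold toR
        rw [map_pow, PowerSeries.map_X]
      rw [h3, ← toR_mul_h]
      congr 1
      rw [split_h l e he]
      ring
    rw [← mul_assoc, ← mul_assoc, h2, mul_assoc]
  rw [h1]
  have h4 := coeff_X_pow_mul (toR ℚ (xx ^ (κ + 1) * jq ^ (l - e)) * Fs (2 * κ + 1)) e (l - e)
  rw [Nat.sub_add_cancel he] at h4
  exact h4

theorem hanA (κ D : ℕ) (δ : ℚ) (h : Han κ D δ) :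
    |δ| = |(Matrix.of fun i k : Fin (D + 1) => mu κ (i + k + 1)).det| := by
  have h1 := h.det ℚ (fun k : Fin (D + 1) => cf (D + 1 + k)) fun k => fnl_h D _ (by omega)
  have h2 : algebraMap ℚ ℚ δ = δ := rfl
  rw [h2] at h1
  rw [← h1, ← Matrix.abs_det_submatrix_equiv_equiv Fin.revPerm (Equiv.refl _)]
  congr 2
  ext i k
  simp only [Matrix.submatrix_apply, Matrix.of_apply, Fin.revPerm_apply, Equiv.refl_apply]
  rw [ent_h κ _ _ (by omega), Fin.val_rev]
  congr 1
  omega

end Pool.Agent.Work.MP_b73316_nt.Q
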