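import Pool.Agent.Work.MP_b73316_nt.Q.Defs
import Pool.Agent.Work.MP_b73316_nt.BdA

/-!
Module EvA (size S-M): evaluation of absolutely convergent power series.

`Bd r C A : ∀ N, ∑_{n < N} |A_n| r^n ≤ C`, `ev A z = ∑' n, A_n z^n`.

PROOF.  For `‖z‖ ≤ r` the terms are bounded by `|A_n| r^n` with bounded partial sums
(`summable_of_sum_range_le`).  `ev_mul`: Cauchy product
(`tsum_mul_tsum_eq_tsum_sum_antidiagonal_of_summable_norm`), `coeff_mul`.  `ev_norm`:
`norm_tsum_le_tsum_norm`, `tsum_le_of_sum_range_le`.  `ev_conj`: `Complex.conj_tsum`.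
`ev_cont`: `continuousOn_tsum` with the majorant `|A_n| r^n`.
-/

set_option autoImplicit false

open PowerSeries Finset MP0f16e1

namespace Pool.Agent.Work.MP_b73316_nt.Q

private theorem term_le {r : ℝ} (A : PowerSeries ℝ) {z : ℂ} (hz : ‖z‖ ≤ r) (n : ℕ) :
    ‖((coeff n A : ℝ) : ℂ) * z ^ n‖ ≤ |coeff n A| * r ^ n := by
  rw [norm_mul, norm_pow, Complex.norm_real, Real.norm_eq_abs]
  exact mul_le_mul_of_nonneg_left (pow_le_pow_left₀ (norm_nonneg z) hz n) (abs_nonneg _)

private theorem summable_abs {r C : ℝ} {A : PowerSeries ℝ} (hA : Bd r C A) (hr : 0 ≤ r) :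
    Summable fun n : ℕ => |coeff n A| * r ^ n :=
  summable_of_sum_range_le (fun n => by positivity) hA

theorem ev_summable {r C : ℝ} {A : PowerSeries ℝ} {z : ℂ} (hA : Bd r C A) (hz : ‖z‖ ≤ r) :
    Summable fun n : ℕ => ‖((coeff n A : ℝ) : ℂ) * z ^ n‖ :=
  Summable.of_nonneg_of_le (fun n => norm_nonneg _) (term_le A hz)
    (summable_abs hA ((norm_nonneg z).trans hz))

theorem ev_mul {r C C' : ℝ} {A B : PowerSeries ℝ} {z : ℂ} (hA : Bd r C A) (hB : Bd r C' B)
    (hz : ‖z‖ ≤ r) : ev (A * B) z = ev A z * ev B z := by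
  unfold ev
  rw [tsum_mul_tsum_eq_tsum_sum_antidiagonal_of_summable_norm (ev_summable hA hz)
    (ev_summable hB hz)]
  congr 1
  funext n
  rw [coeff_mul, Complex.ofReal_sum, Finset.sum_mul]
  apply Finset.sum_congr rfl
  intro p hp
  rw [HasAntidiagonal.mem_antidiagonal] at hp
  rw [← hp, pow_add, Complex.ofReal_mul]
  ring

theorem ev_add {r C C' : ℝ} {A B : PowerSeries ℝ} {z : ℂ} (hA : Bd r C A) (hB : Bd r C' B)
    (hz : ‖z‖ ≤ r) : ev (A + B) z = ev A z + ev B z := by
  unfold ev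
  rw [← Summable.tsum_add (ev_summable hA hz).of_norm (ev_summable hB hz).of_norm]
  congr 1
  funext n
  rw [map_add, Complex.ofReal_add, add_mul]

theorem ev_smul (c : ℝ) (A : PowerSeries ℝ) (z : ℂ) : ev (c • A) z = c * ev A z := by
  unfold ev
  rw [← tsum_mul_left]
  congr 1
  funext n
  rw [map_smul, smul_eq_mul, Complex.ofReal_mul, mul_assoc]

theorem ev_one (z : ℂ) : ev 1 z = 1 := by
  unfold ev
  rw [tsum_eq_single 0]
  · simp
  · intro n hn
    simp [coeff_one, hn]

theorem ev_X (z : ℂ) : ev X z = z := by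
  unfold ev
  rw [tsum_eq_single 1]
  · simp
  · intro n hn
    simp [coeff_X, hn]

theorem ev_pow {r C : ℝ} {A : PowerSeries ℝ} {z : ℂ} (hA : Bd r C A) (hz : ‖z‖ ≤ r) (k : ℕ) :
    ev (A ^ k) z = ev A z ^ k := by
  induction k with
  | zero => rw [pow_zero, pow_zero, ev_one]
  | succ k ih =>
    rw [pow_succ, pow_succ, ev_mul (bd_pow ((norm_nonneg z).trans hz) hA k) hA hz, ih]

theorem ev_norm {r C : ℝ} {A : PowerSeries ℝ} {z : ℂ} (hA : Bd r C A) (hz : ‖z‖ ≤ r) :
    ‖ev A z‖ ≤ C := by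
  unfold ev
  refine (norm_tsum_le_tsum_norm (ev_summable hA hz)).trans ?_
  refine (Summable.tsum_le_tsum (term_le A hz) (ev_summable hA hz)
    (summable_abs hA ((norm_nonneg z).trans hz))).trans ?_
  have hr : 0 ≤ r := (norm_nonneg z).trans hz
  exact Real.tsum_le_of_sum_range_le (fun n => by positivity) hA

theorem ev_conj (A : PowerSeries ℝ) (z : ℂ) :
    ev A ((starRingEnd ℂ) z) = (starRingEnd ℂ) (ev A z) := by
  unfold ev
  rw [Complex.conj_tsum]
  congr 1
  funext n
  rw [map_mul, map_pow, Complex.conj_ofReal]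

theorem ev_cont {r C : ℝ} {A : PowerSeries ℝ} (hA : Bd r C A) :
    ContinuousOn (ev A) {z : ℂ | ‖z‖ ≤ r} := by
  rcases lt_or_ge r 0 with hr | hr
  · intro z hz
    exact absurd ((norm_nonneg z).trans hz) (not_le.mpr hr)
  · unfold ev
    apply continuousOn_tsum (u := fun n => |coeff n A| * r ^ n)
    · intro n
      fun_prop
    · exact summable_abs hA hr
    · intro n z hz
      exact term_le A hz n

end Pool.Agent.Work.MP_b73316_nt.Q
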