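import Pool.Agent.Work.MP_b73316_nt.Q.Defs
import Pool.Agent.Work.MP_b73316_nt.Q.EvA

/-!
Module ArcI (size S-M): coefficients as integrals over the arc `τ = e^(iθ)`, `π/3 ≤ θ ≤ 2π/3`.

PROOF.  `qq θ = exp (2πi e^(iθ))`, `‖qq θ‖ = exp (-2π sin θ)`; `sin θ ≥ √3/2` on the arc
(`π/3 ≤ θ ≤ 2π/3`), `2π √3/2 = π √3 ≥ 3.1415 · 1.732 = 5.4410 ≥ log 230 = 5.43808`, so
`exp (-2π) ≤ ‖qq θ‖ ≤ 1/230`.
(a) For `k : ℤ`, `k ≠ 0`: `∫_{π/3}^{2π/3} (qq θ)^k i e^(iθ) dθ = [exp (2πik e^(iθ))/(2πik)] = 0` since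
`e^(2πi/3) = e^(πi/3) - 1` (fundamental theorem of calculus, `HasDerivAt`).  For `k = 0` it is
`e^(2πi/3) - e^(πi/3) = -1`.
(b) `ev A (qq θ) (qq θ)^(-m) i e^(iθ) = ∑_n A_n (qq θ)^(n-m) i e^(iθ)`, with norms
`≤ |A_n| (1/230)^n exp (2π m)`, summable; exchange sum and integral
(`intervalIntegral.hasSum_integral_of_summable_norm` / `hasSum_intervalIntegral_of_summable_norm`).
-/

set_option autoImplicit false

open PowerSeries Finset MP0f16e1

namespace Pool.Agent.Work.MP_b73316_nt.Q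

theorem qq_cont : Continuous qq := by
  unfold qq
  fun_prop

theorem qq_ne (θ : ℝ) : qq θ ≠ 0 := Complex.exp_ne_zero _

private theorem qq_norm (θ : ℝ) : ‖qq θ‖ = Real.exp (-(2 * Real.pi * Real.sin θ)) := by
  unfold qq
  rw [Complex.norm_exp]
  congr 1
  have h1 : (Complex.exp (Complex.I * θ)).im = Real.sin θ := by
    rw [mul_comm]
    exact Complex.exp_ofReal_mul_I_im θ
  simp [Complex.mul_re, h1]

private theorem sin_ge {θ : ℝ} (h : θ ∈ Set.Icc (Real.pi / 3) (2 * Real.pi / 3)) :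
    Real.sqrt 3 / 2 ≤ Real.sin θ := by
  have h1 : Real.sin θ = Real.cos (|θ - Real.pi / 2|) := by
    rw [Real.cos_abs, Real.cos_sub_pi_div_two]
  rw [h1, ← Real.cos_pi_div_six]
  have hpi := Real.pi_pos
  apply Real.cos_le_cos_of_nonneg_of_le_pi (abs_nonneg _) (by linarith)
  rw [abs_le]
  constructor <;> linarith [h.1, h.2]

private theorem exp544 : (230 : ℝ) ≤ Real.exp 5.44 := by
  have h1 : Real.exp 5.44 = Real.exp 1 ^ 5 * Real.exp 0.44 := by
    rw [← Real.exp_nat_mul, ← Real.exp_add]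
    norm_num
  have h2 : (2.7182 : ℝ) ^ 5 ≤ Real.exp 1 ^ 5 := by
    apply pow_le_pow_left₀ (by norm_num)
    have := Real.exp_one_gt_d9
    linarith
  have h3 : (1.55 : ℝ) ≤ Real.exp 0.44 := by
    have := Real.sum_le_exp_of_nonneg (x := (0.44 : ℝ)) (by norm_num) 4
    refine le_trans ?_ this
    simp [Finset.sum_range_succ, Nat.factorial]
    norm_num
  rw [h1]
  calc (230 : ℝ) ≤ 2.7182 ^ 5 * 1.55 := by norm_num
    _ ≤ _ := mul_le_mul h2 h3 (by norm_num) (by positivity)

theorem qq_le {θ : ℝ} (h : θ ∈ Set.Icc (Real.pi / 3) (2 * Real.pi / 3)) : ‖qq θ‖ ≤ 1 / 230 := by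
  rw [qq_norm, Real.exp_neg, ← one_div]
  apply one_div_le_one_div_of_le (by norm_num)
  refine exp544.trans (Real.exp_le_exp.2 ?_)
  have h1 := sin_ge h
  have h2 : (1.732 : ℝ) ≤ Real.sqrt 3 := by
    apply Real.le_sqrt_of_sq_le
    norm_num
  have h3 := Real.pi_gt_d2
  have h4 : (3.1415 : ℝ) < Real.pi := by
    have := Real.pi_gt_d4
    linarith
  have h5 : (1.732 : ℝ) ≤ 2 * Real.sin θ := by linarith
  nlinarith

theorem qq_ge (θ : ℝ) : Real.exp (-(2 * Real.pi)) ≤ ‖qq θ‖ := by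
  rw [qq_norm]
  apply Real.exp_le_exp.2
  have h1 := Real.sin_le_one θ
  have h2 := Real.pi_pos
  nlinarith

private theorem arc_end : Complex.exp (Complex.I * ((2 * Real.pi / 3 : ℝ) : ℂ)) =
    Complex.exp (Complex.I * ((Real.pi / 3 : ℝ) : ℂ)) - 1 := by
  have e1 : Real.cos (2 * Real.pi / 3) = -(1 / 2) := by
    have : 2 * Real.pi / 3 = Real.pi - Real.pi / 3 := by ring
    rw [this, Real.cos_pi_sub, Real.cos_pi_div_three]
  have e2 : Real.sin (2 * Real.pi / 3) = Real.sin (Real.pi / 3) := by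
    have : 2 * Real.pi / 3 = Real.pi - Real.pi / 3 := by ring
    rw [this, Real.sin_pi_sub]
  rw [mul_comm Complex.I, mul_comm Complex.I]
  apply Complex.ext
  · rw [Complex.sub_re, Complex.exp_ofReal_mul_I_re, Complex.exp_ofReal_mul_I_re, e1,
      Real.cos_pi_div_three, Complex.one_re]
    norm_num
  · rw [Complex.sub_im, Complex.exp_ofReal_mul_I_im, Complex.exp_ofReal_mul_I_im, e2,
      Complex.one_im, sub_zero]

private theorem hd_e (θ : ℝ) : HasDerivAt (fun θ : ℝ => Complex.exp (Complex.I * θ))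
    (Complex.I * Complex.exp (Complex.I * θ)) θ := by
  have h1 : HasDerivAt (fun z : ℂ => Complex.exp (Complex.I * z))
      (Complex.exp (Complex.I * θ) * (Complex.I * 1)) (θ : ℂ) :=
    ((hasDerivAt_id (θ : ℂ)).const_mul Complex.I).cexp
  have h2 := h1.comp_ofReal
  convert h2 using 1
  ring

private theorem qq_zpow (k : ℤ) (θ : ℝ) : qq θ ^ k =
    Complex.exp (2 * Real.pi * Complex.I * k * Complex.exp (Complex.I * θ)) := by
  unfold qq
  rw [← Complex.exp_int_mul]
  congr 1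
  ring

private theorem arc_int (k : ℤ) : ∫ θ in (Real.pi / 3)..(2 * Real.pi / 3),
    qq θ ^ k * (Complex.I * Complex.exp (Complex.I * θ)) = if k = 0 then -1 else 0 := by
  by_cases hk : k = 0
  · subst hk
    simp only [zpow_zero, one_mul, if_true]
    rw [intervalIntegral.integral_eq_sub_of_hasDerivAt (fun θ _ => hd_e θ)
      (Continuous.intervalIntegrable (by fun_prop) _ _), arc_end]
    ring
  · rw [if_neg hk]
    have hc : (2 * Real.pi * Complex.I * k : ℂ) ≠ 0 := by
      have h1 : (k : ℂ) ≠ 0 := by exact_mod_cast hk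
      have h2 : (Real.pi : ℂ) ≠ 0 := by exact_mod_cast Real.pi_ne_zero
      simp [h1, h2, Complex.I_ne_zero]
    have hd : ∀ θ ∈ Set.uIcc (Real.pi / 3) (2 * Real.pi / 3), HasDerivAt
        (fun θ : ℝ => Complex.exp (2 * Real.pi * Complex.I * k * Complex.exp (Complex.I * θ)) /
          (2 * Real.pi * Complex.I * k))
        (qq θ ^ k * (Complex.I * Complex.exp (Complex.I * θ))) θ := by
      intro θ _
      have h1 := (((hd_e θ).const_mul (2 * Real.pi * Complex.I * k : ℂ)).cexp).div_const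
        (2 * Real.pi * Complex.I * k : ℂ)
      have h2 : qq θ ^ k * (Complex.I * Complex.exp (Complex.I * θ)) =
          Complex.exp (2 * Real.pi * Complex.I * k * Complex.exp (Complex.I * θ)) *
            (2 * Real.pi * Complex.I * k * (Complex.I * Complex.exp (Complex.I * θ))) /
              (2 * Real.pi * Complex.I * k) := by
        rw [qq_zpow]
        field_simp
      rw [h2]
      exact h1
    rw [intervalIntegral.integral_eq_sub_of_hasDerivAt hd ?_, arc_end]
    · have h3 : Complex.exp (2 * Real.pi * Complex.I * k *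
          (Complex.exp (Complex.I * ((Real.pi / 3 : ℝ) : ℂ)) - 1)) =
          Complex.exp (2 * Real.pi * Complex.I * k *
            Complex.exp (Complex.I * ((Real.pi / 3 : ℝ) : ℂ))) := by
        have h4 : (2 * Real.pi * Complex.I * k *
          (Complex.exp (Complex.I * ((Real.pi / 3 : ℝ) : ℂ)) - 1) : ℂ) =
          2 * Real.pi * Complex.I * k * Complex.exp (Complex.I * ((Real.pi / 3 : ℝ) : ℂ)) -
            k * (2 * Real.pi * Complex.I) := by ring
        rw [h4, Complex.exp_sub, Complex.exp_int_mul_two_pi_mul_I, div_one]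
      rw [h3, sub_self]
    · apply Continuous.intervalIntegrable
      have h5 : (fun θ : ℝ => qq θ ^ k * (Complex.I * Complex.exp (Complex.I * θ))) =
          fun θ : ℝ => Complex.exp (2 * Real.pi * Complex.I * k * Complex.exp (Complex.I * θ)) *
            (Complex.I * Complex.exp (Complex.I * θ)) := by
        funext θ
        rw [qq_zpow]
      rw [h5]
      fun_prop

theorem arc_coeff (A : PowerSeries ℝ) (C : ℝ) (hA : Bd (1 / 230) C A) (m : ℕ) :
    ((coeff m A : ℝ) : ℂ) = -∫ θ in (Real.pi / 3)..(2 * Real.pi / 3),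
      ev A (qq θ) * (qq θ ^ m)⁻¹ * (Complex.I * Complex.exp (Complex.I * θ)) := by
  have hpi := Real.pi_pos
  have hle : Real.pi / 3 ≤ 2 * Real.pi / 3 := by linarith
  have hmem : ∀ θ ∈ Set.uIoc (Real.pi / 3) (2 * Real.pi / 3),
      θ ∈ Set.Icc (Real.pi / 3) (2 * Real.pi / 3) := by
    intro θ hθ
    rw [Set.uIoc_of_le hle] at hθ
    exact ⟨hθ.1.le, hθ.2⟩
  have hS : Summable fun n : ℕ => |(coeff n A : ℝ)| * (1 / 230 : ℝ) ^ n := by
    have h1 := ev_summable (z := ((1 / 230 : ℝ) : ℂ)) hA (by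
      rw [Complex.norm_real, Real.norm_of_nonneg (by norm_num)])
    refine h1.congr fun n => ?_
    rw [norm_mul, norm_pow, Complex.norm_real, Complex.norm_real,
      Real.norm_of_nonneg (by norm_num : (0 : ℝ) ≤ 1 / 230), Real.norm_eq_abs]
  have hI : ∀ θ : ℝ, ‖Complex.I * Complex.exp (Complex.I * θ)‖ = 1 := by
    intro θ
    rw [norm_mul, Complex.norm_I, one_mul, mul_comm, Complex.norm_exp_ofReal_mul_I]
  set K : ℝ := (Real.exp (-(2 * Real.pi)) ^ m)⁻¹ with hK
  have hKb : ∀ θ : ℝ, ‖(qq θ ^ m)⁻¹‖ ≤ K := by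
    intro θ
    rw [norm_inv, norm_pow, hK]
    exact inv_anti₀ (by positivity) (pow_le_pow_left₀ (Real.exp_pos _).le (qq_ge θ) m)
  have hsum := intervalIntegral.hasSum_integral_of_dominated_convergence
    (μ := MeasureTheory.volume) (a := Real.pi / 3) (b := 2 * Real.pi / 3)
    (F := fun (n : ℕ) (θ : ℝ) => ((coeff n A : ℝ) : ℂ) * qq θ ^ n * (qq θ ^ m)⁻¹ *
      (Complex.I * Complex.exp (Complex.I * θ)))
    (f := fun θ : ℝ => ev A (qq θ) * (qq θ ^ m)⁻¹ * (Complex.I * Complex.exp (Complex.I * θ)))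
    (fun n _ => |(coeff n A : ℝ)| * (1 / 230 : ℝ) ^ n * K)
    (fun n => by
      apply Continuous.aestronglyMeasurable
      have h1 := qq_cont
      have h2 : Continuous fun θ : ℝ => (qq θ ^ m)⁻¹ :=
        (h1.pow m).inv₀ fun θ => pow_ne_zero _ (qq_ne θ)
      exact ((continuous_const.mul (h1.pow n)).mul h2).mul (by fun_prop))
    (fun n => Filter.Eventually.of_forall fun θ hθ => by
      rw [norm_mul, hI, mul_one, norm_mul, norm_mul, norm_pow, Complex.norm_real,
        Real.norm_eq_abs]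
      refine mul_le_mul (mul_le_mul_of_nonneg_left
        (pow_le_pow_left₀ (norm_nonneg _) (qq_le (hmem θ hθ)) n) (abs_nonneg _)) (hKb θ)
        (norm_nonneg _) (by positivity))
    (Filter.Eventually.of_forall fun θ _ => hS.mul_right K)
    (Continuous.intervalIntegrable continuous_const _ _)
    (Filter.Eventually.of_forall fun θ hθ => by
      have h1 : HasSum (fun n : ℕ => ((coeff n A : ℝ) : ℂ) * qq θ ^ n) (ev A (qq θ)) :=
        ((ev_summable hA (qq_le (hmem θ hθ))).of_norm).hasSum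
      exact (h1.mul_right _).mul_right _)
  have hterm : ∀ n : ℕ, (∫ θ in (Real.pi / 3)..(2 * Real.pi / 3),
      ((coeff n A : ℝ) : ℂ) * qq θ ^ n * (qq θ ^ m)⁻¹ *
        (Complex.I * Complex.exp (Complex.I * θ))) =
      if n = m then -((coeff m A : ℝ) : ℂ) else 0 := by
    intro n
    have h1 : (fun θ : ℝ => ((coeff n A : ℝ) : ℂ) * qq θ ^ n * (qq θ ^ m)⁻¹ *
        (Complex.I * Complex.exp (Complex.I * θ))) =
        fun θ : ℝ => ((coeff n A : ℝ) : ℂ) * (qq θ ^ ((n : ℤ) - m) *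
          (Complex.I * Complex.exp (Complex.I * θ))) := by
      funext θ
      rw [zpow_sub₀ (qq_ne θ), zpow_natCast, zpow_natCast]
      ring
    rw [h1, intervalIntegral.integral_const_mul, arc_int]
    by_cases hnm : n = m
    · subst hnm
      simp
    · have h2 : ((n : ℤ) - m) ≠ 0 := by omega
      rw [if_neg h2, if_neg hnm, mul_zero]
  have h3 : HasSum (fun n : ℕ => if n = m then -((coeff m A : ℝ) : ℂ) else 0)
      (-((coeff m A : ℝ) : ℂ)) := hasSum_ite_eq m _
  have h4 := hsum.unique (by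
    have h5 := h3
    simp only [← hterm] at h5
    exact h5)
  rw [h4, neg_neg]

end Pool.Agent.Work.MP_b73316_nt.Q
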