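import Pool.Agent.Work.MP_b73316_nt.Q.Defs
import Pool.Agent.Work.MP_b73316_nt.Q.EvA
import Pool.Agent.Work.MP_b73316_nt.Q.BdQ
import Pool.Agent.Work.MP_b73316_nt.Q.ArcI
import Pool.Agent.Work.MP_0f16e1_nt.BridgeE

/-!
Module ArcM (size M): modularity of `E₄`, `E₆` on the arc: `τ² E₄(τ)` and `τ³ E₆(τ)` are real.

PROOF.  `τ = e^(iθ)`, `0 < θ < π`, in the upper half plane, `q = qq θ = e^(2πiτ)`.
(1) `ev (toR ℝ e4) (qq θ) = E₄(τ)` (Mathlib's `ModularForm.E`, weight 4; `‖qq θ‖ < 1`): the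
`q`-expansion `EisensteinSeries.q_expansion_bernoulli` (weight 4: `1 + 240 ∑ σ₃(n) q^n`, as
`B_4 = -1/30`; see also `EisensteinSeries.E_qExpansion_coeff` and how
`Pool/Agent/Work/MP_0f16e1_nt/BridgeE.lean` identifies `e4`, `e6`).  Same for `E₆` (`-504 σ₅(n)`,
`B_6 = 1/42`).
(2) Modularity under `S`: `E_k(-1/τ) = τ^k E_k(τ)` (`SlashInvariantForm`/`ModularForm` slash action of
`ModularGroup.S`).  For `|τ| = 1`, `-1/τ = -conj τ = e^(i(π-θ))`, and `qq (π - θ) = conj (qq θ)`, so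
`E_k(-1/τ) = ev (..) (conj (qq θ)) = conj (E_k(τ))` (`ev_conj`).  Hence `conj E_k(τ) = τ^k E_k(τ)`, and
for `k = 4`: `conj (τ² E₄) = τ^(-2) τ⁴ E₄ = τ² E₄` is real; for `k = 6`: `τ³ E₆` is real.
-/

set_option autoImplicit false

open PowerSeries Finset MP0f16e1

namespace Pool.Agent.Work.MP_b73316_nt.Q

open UpperHalfPlane ModularForm ModularFormClass EisensteinSeries in
open scoped MatrixGroups in
private theorem ev_eq {k : ℤ} (f : ModularForm 𝒮ℒ k) (A : PowerSeries ℤ)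
    (hf : qExpansion 1 (f : ℍ → ℂ) = toR ℂ A) (τ : ℍ) :
    f τ = ev (toR ℝ A) (Function.Periodic.qParam 1 τ) := by
  have h := ModularForm.hasSum_qExpansion (f := f) one_pos one_mem_strictPeriods_SL τ
  rw [hf] at h
  rw [← h.tsum_eq]
  unfold ev toR
  refine tsum_congr fun n => ?_
  rw [coeff_map, coeff_map]
  simp

open UpperHalfPlane ModularForm ModularFormClass EisensteinSeries in
open scoped MatrixGroups in
private theorem ev_S {k : ℤ} (f : ModularForm 𝒮ℒ k) (τ : ℍ) :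
    f (.mk _ τ.im_inv_neg_coe_pos) = (τ : ℂ) ^ k * f τ := by
  rw [← modular_S_smul]
  have hm : Matrix.SpecialLinearGroup.mapGL ℝ ModularGroup.S ∈
      (Matrix.SpecialLinearGroup.mapGL (n := Fin 2) (R := ℤ) ℝ).range := ⟨ModularGroup.S, rfl⟩
  have h := SlashInvariantForm.slash_action_eqn'' (k := k) f hm τ
  have h2 : denom (Matrix.SpecialLinearGroup.mapGL ℝ ModularGroup.S) (τ : ℂ) = τ :=
    ModularGroup.denom_S τ
  rw [h2] at h
  exact h

open UpperHalfPlane ModularForm ModularFormClass EisensteinSeries in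
open scoped MatrixGroups in
private theorem ev_arc {k : ℤ} (f : ModularForm 𝒮ℒ k) (A : PowerSeries ℤ)
    (hf : qExpansion 1 (f : ℍ → ℂ) = toR ℂ A) {θ : ℝ}
    (h : θ ∈ Set.Icc (Real.pi / 3) (2 * Real.pi / 3)) :
    (starRingEnd ℂ) (ev (toR ℝ A) (qq θ)) =
      Complex.exp (Complex.I * θ) ^ k * ev (toR ℝ A) (qq θ) := by
  have hpi := Real.pi_pos
  have him : 0 < (Complex.exp (Complex.I * θ)).im := by
    rw [mul_comm, Complex.exp_mul_I]
    simp only [Complex.add_im, Complex.mul_im, Complex.I_re, Complex.I_im]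
    rw [← Complex.ofReal_cos, ← Complex.ofReal_sin]
    simp only [Complex.ofReal_im, Complex.ofReal_re]
    have := Real.sin_pos_of_pos_of_lt_pi (x := θ) (by linarith [h.1]) (by linarith [h.2])
    linarith
  set τ : ℍ := ⟨Complex.exp (Complex.I * θ), him⟩ with hτ
  have h1 : Function.Periodic.qParam 1 (τ : ℂ) = qq θ := by
    unfold Function.Periodic.qParam qq
    congr 1
    rw [hτ]
    simp
  have h2 : Function.Periodic.qParam 1 ((UpperHalfPlane.mk _ τ.im_inv_neg_coe_pos : ℍ) : ℂ) =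
      (starRingEnd ℂ) (qq θ) := by
    unfold Function.Periodic.qParam qq
    rw [← Complex.exp_conj]
    congr 1
    simp only [map_mul, Complex.conj_I, ← Complex.exp_conj, Complex.conj_ofReal, map_ofNat]
    have h3 : (-(τ : ℂ))⁻¹ = -Complex.exp (-Complex.I * θ) := by
      show (-(Complex.exp (Complex.I * θ)))⁻¹ = _
      rw [inv_neg, ← Complex.exp_neg]
      congr 2
      ring
    rw [h3]
    push_cast
    ring
  have e1 := ev_eq f A hf τ
  have e2 := ev_eq f A hf (UpperHalfPlane.mk _ τ.im_inv_neg_coe_pos)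
  have e3 := ev_S f τ
  rw [h1] at e1
  rw [h2, ev_conj] at e2
  rw [← e2, ← e1, e3]

theorem arc_e4 {θ : ℝ} (h : θ ∈ Set.Icc (Real.pi / 3) (2 * Real.pi / 3)) :
    (Complex.exp (2 * (Complex.I * θ)) * ev (toR ℝ e4) (qq θ)).im = 0 := by
  rw [← Complex.conj_eq_iff_im, map_mul, ev_arc _ e4 qE4 h]
  rw [← Complex.exp_conj]
  simp only [map_mul, Complex.conj_I, Complex.conj_ofReal, map_ofNat]
  rw [← mul_assoc, ← Complex.exp_int_mul, ← Complex.exp_add]
  congr 2
  push_cast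
  ring

theorem arc_e6 {θ : ℝ} (h : θ ∈ Set.Icc (Real.pi / 3) (2 * Real.pi / 3)) :
    (Complex.exp (3 * (Complex.I * θ)) * ev (toR ℝ e6) (qq θ)).im = 0 := by
  rw [← Complex.conj_eq_iff_im, map_mul, ev_arc _ e6 qE6 h]
  rw [← Complex.exp_conj]
  simp only [map_mul, Complex.conj_I, Complex.conj_ofReal, map_ofNat]
  rw [← mul_assoc, ← Complex.exp_int_mul, ← Complex.exp_add]
  congr 2
  push_cast
  ring

end Pool.Agent.Work.MP_b73316_nt.Q
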