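import Pool.Agent.Work.MP_b73316_nt.Q.Defs
import Pool.Agent.Work.MP_b73316_nt.Q.EvA
import Pool.Agent.Work.MP_b73316_nt.Q.BdQ
import Pool.Agent.Work.MP_b73316_nt.Q.ArcI
import Pool.Agent.Work.MP_b73316_nt.Q.ArcM

/-!
Module ArcJ (size M): `j` is real, between `-4` and `1728`, on the arc.

PROOF.  `I = [π/3, 2π/3]`, `θ ∈ I`, `τ = e^(iθ)`, `q = qq θ`, `‖q‖ ≤ 1/230`; evaluation `ev · q` is
multiplicative on the series bounded by `BdQ`.  Write `a = τ² E₄`, `b = τ³ E₆` (real, `arc_e4`,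
`arc_e6`; `E₄ = ev (toR ℝ e4) q`, ...), `Δ = ev (toR ℝ dl) q = q · ev (toR ℝ dl1) q`,
`|ev (toR ℝ dl1) q - 1| ≤ 0.12` (`bq_dl1`, `ev_norm`), so `Δ ≠ 0`, `|Δ| ≥ 0.88 |q|`.
`e4^3 - e6^2 = 1728 dl` (`dl_spec`), so `1728 τ⁶ Δ = a³ - b²` is real; call it `1728 w`.
(1) `w < 0` on `I`: `θ ↦ w` is continuous (real part of `τ⁶ Δ`), never `0`, and negative at `θ = π/2`
(`τ = i`, `q = e^(-2π)` real: `E₄ > 0` real, `a = -E₄ < 0`; `b = -i E₆` is real and `E₆` is real so
`b = 0`; `w = a³/1728 < 0`); intermediate value theorem on the interval `I`.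
(2) `ev (toR ℝ jq) q = E₄³ · ev dq q` and `dl1 * dq = 1` gives `ev dq q = 1/ev dl1 q = q/Δ`, so
`ev (toR ℝ jq) q = q E₄³/Δ = q · a³/w`.  Put `x = a³/w` (real).
(3) `x - 1728 = (a³ - 1728 w)/w = b²/w ≤ 0`.
(4) `x ≥ -1`: if `a ≤ 0` then `x ≥ 0`.  If `a > 0`: `|E₄ - 1 - 240 q| ≤ 10 |q|` (`bq_e4s`),
`Re (τ² q) = |q| cos (2θ + 2π cos θ) ≤ |q|/2` (`π/3 ≤ 2θ + 2π cos θ ≤ 5π/3`), `cos 2θ ≤ -1/2`, so
`0 < a ≤ -1/2 + 130 |q| ≤ 0.066`, `|w| ≥ 0.88 |q|`, `|x| ≤ 0.066² · 130/0.88 < 1`.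
Continuity of `x` on `I`: `x θ = Re (ev (toR ℝ jq) (qq θ) / qq θ)`.
-/

set_option autoImplicit false

open PowerSeries Finset MP0f16e1

namespace Pool.Agent.Work.MP_b73316_nt.Q

/-- `j` on the arc -/
noncomputable def jj (θ : ℝ) : ℝ := (ev (toR ℝ jq) (qq θ) / qq θ).re

private theorem aj_mul (a b : PowerSeries ℤ) : toR ℝ (a * b) = toR ℝ a * toR ℝ b := by
  unfold toR
  exact map_mul _ _ _

private theorem aj_pow (a : PowerSeries ℤ) (n : ℕ) : toR ℝ (a ^ n) = toR ℝ a ^ n := by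
  unfold toR
  exact map_pow _ _ _

private theorem aj_X : toR ℝ X = X := by
  unfold toR
  exact map_X _

private theorem bd_dl1' : Bd (1 / 230) (112 / 100) (toR ℝ dl1) := by
  have h := bd_add (bd_one (r := 1 / 230)) bq_dl1 (by norm_num)
  have e : (1 : PowerSeries ℝ) + (toR ℝ dl1 - 1) = toR ℝ dl1 := by ring
  rw [e] at h
  exact bd_mono h (by norm_num)

/-- the facts at a point with `‖q‖ ≤ 1/230` -/
private theorem aj_facts {q : ℂ} (hq : ‖q‖ ≤ 1 / 230) :
    ev (toR ℝ dl1) q * ev (toR ℝ dq) q = 1 ∧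
    ev (toR ℝ e4) q ^ 3 - ev (toR ℝ e6) q ^ 2 = 1728 * (q * ev (toR ℝ dl1) q) ∧
    ev (toR ℝ jq) q = ev (toR ℝ e4) q ^ 3 * ev (toR ℝ dq) q ∧
    ‖ev (toR ℝ dl1) q - 1‖ ≤ 12 / 100 ∧
    ‖ev (toR ℝ e4) q - 1‖ ≤ 250 * ‖q‖ := by
  obtain ⟨C4, h4⟩ := bq_e4
  obtain ⟨C6, h6⟩ := bq_e6
  obtain ⟨Cq, hq'⟩ := bq_dq
  have h1 := bd_dl1'
  have h3 : Bd (1 / 230) (C4 ^ 3) (toR ℝ e4 ^ 3) := bd_pow (by norm_num) h4 3
  have h62 : Bd (1 / 230) (C6 ^ 2) (toR ℝ e6 ^ 2) := bd_pow (by norm_num) h6 2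
  have hX : Bd (1 / 230) (1 / 230) (X : PowerSeries ℝ) := by
    intro N
    rcases N with _ | _ | N
    · norm_num
    · norm_num [coeff_X]
    · rw [Finset.sum_range_succ', Finset.sum_range_succ']
      simp [coeff_X]
  refine ⟨?_, ?_, ?_, ?_, ?_⟩
  · rw [← ev_mul h1 hq' hq, ← aj_mul, dl1_dq]
    have e : toR ℝ (1 : PowerSeries ℤ) = 1 := by
      unfold toR
      exact map_one _
    rw [e, ev_one]
  · have e1 : toR ℝ e4 ^ 3 = (1728 : ℝ) • (X * toR ℝ dl1) + toR ℝ e6 ^ 2 := by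
      have h := congrArg (toR ℝ) dl_spec
      rw [aj_mul] at h
      have e2 : toR ℝ (e4 ^ 3 - e6 ^ 2) = toR ℝ e4 ^ 3 - toR ℝ e6 ^ 2 := by
        rw [← aj_pow, ← aj_pow]
        unfold toR
        exact map_sub _ _ _
      have e3 : toR ℝ (1728 : PowerSeries ℤ) = (1728 : PowerSeries ℝ) := by
        unfold toR
        exact map_ofNat _ _
      rw [e2, e3, dl1_eq, aj_mul, aj_X] at h
      have e4' : (1728 : ℝ) • (X * toR ℝ dl1) = (1728 : PowerSeries ℝ) * (X * toR ℝ dl1) := by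
        rw [PowerSeries.smul_eq_C_mul]
        congr 1
      rw [e4', h]
      ring
    have hXd := bd_mul (by norm_num) hX h1
    have hs : Bd (1 / 230) (1728 * (1 / 230 * (112 / 100))) ((1728 : ℝ) • (X * toR ℝ dl1)) := by
      intro N
      have h := hXd N
      calc ∑ n ∈ range N, |coeff n ((1728 : ℝ) • (X * toR ℝ dl1))| * (1 / 230) ^ n
          = 1728 * ∑ n ∈ range N, |coeff n (X * toR ℝ dl1)| * (1 / 230) ^ n := by
            rw [Finset.mul_sum]
            refine Finset.sum_congr rfl fun n _ => ?_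
            rw [map_smul, smul_eq_mul, abs_mul, abs_of_nonneg (by norm_num : (0 : ℝ) ≤ 1728)]
            ring
        _ ≤ _ := mul_le_mul_of_nonneg_left h (by norm_num)
    have h : ev (toR ℝ e4 ^ 3) q = ev ((1728 : ℝ) • (X * toR ℝ dl1) + toR ℝ e6 ^ 2) q := by
      rw [e1]
    rw [ev_pow h4 hq, ev_add hs h62 hq, ev_smul, ev_mul hX h1 hq, ev_X, ev_pow h6 hq] at h
    rw [h]
    push_cast
    ring
  · unfold jq
    rw [aj_mul, aj_pow, ev_mul h3 hq' hq, ev_pow h4 hq]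
  · have h := ev_norm bq_dl1 hq
    have e : toR ℝ dl1 = 1 + (toR ℝ dl1 - 1) := by ring
    have h2 : ev (toR ℝ dl1) q = 1 + ev (toR ℝ dl1 - 1) q := by
      conv_lhs => rw [e]
      rw [ev_add bd_one bq_dl1 hq, ev_one]
    rw [h2, add_sub_cancel_left]
    exact h
  · have hXe := bd_mul (by norm_num) hX bq_e4s
    have h2 : ev (toR ℝ e4) q = 1 + q * ev e4s q := by
      rw [e4s_eq, ev_add bd_one hXe hq, ev_one, ev_mul hX bq_e4s hq, ev_X]
    rw [h2, add_sub_cancel_left, norm_mul, mul_comm]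
    exact mul_le_mul_of_nonneg_right (ev_norm bq_e4s hq) (norm_nonneg _)

private noncomputable def aj_W (θ : ℝ) : ℂ :=
  Complex.exp (6 * (Complex.I * θ)) * (qq θ * ev (toR ℝ dl1) (qq θ))

private noncomputable def aj_a (θ : ℝ) : ℂ :=
  Complex.exp (2 * (Complex.I * θ)) * ev (toR ℝ e4) (qq θ)

private noncomputable def aj_b (θ : ℝ) : ℂ :=
  Complex.exp (3 * (Complex.I * θ)) * ev (toR ℝ e6) (qq θ)

private theorem aj_rel {θ : ℝ} (h : θ ∈ Set.Icc (Real.pi / 3) (2 * Real.pi / 3)) :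
    1728 * aj_W θ = aj_a θ ^ 3 - aj_b θ ^ 2 := by
  have h2 := (aj_facts (qq_le h)).2.1
  unfold aj_W aj_a aj_b
  have e1 : Complex.exp (2 * (Complex.I * θ)) ^ 3 = Complex.exp (6 * (Complex.I * θ)) := by
    rw [← Complex.exp_nat_mul]
    congr 1
    push_cast
    ring
  have e2 : Complex.exp (3 * (Complex.I * θ)) ^ 2 = Complex.exp (6 * (Complex.I * θ)) := by
    rw [← Complex.exp_nat_mul]
    congr 1
    push_cast
    ring
  rw [mul_pow, mul_pow, e1, e2]
  linear_combination (-Complex.exp (6 * (Complex.I * θ))) * h2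

private theorem aj_real {z : ℂ} (h : z.im = 0) : z = (z.re : ℂ) := by
  apply Complex.ext <;> simp [h]

private theorem aj_Wim {θ : ℝ} (h : θ ∈ Set.Icc (Real.pi / 3) (2 * Real.pi / 3)) :
    1728 * (aj_W θ).re = (aj_a θ).re ^ 3 - (aj_b θ).re ^ 2 ∧ (aj_W θ).im = 0 := by
  have h1 := aj_rel h
  have ha : aj_a θ = ((aj_a θ).re : ℂ) := aj_real (arc_e4 h)
  have hb : aj_b θ = ((aj_b θ).re : ℂ) := aj_real (arc_e6 h)
  rw [ha, hb] at h1
  have h2 : 1728 * aj_W θ = (((aj_a θ).re ^ 3 - (aj_b θ).re ^ 2 : ℝ) : ℂ) := by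
    rw [h1]
    push_cast
    rfl
  have h3 := congrArg Complex.re h2
  have h4 := congrArg Complex.im h2
  rw [Complex.ofReal_re] at h3
  rw [Complex.ofReal_im] at h4
  simp only [Complex.mul_re, Complex.mul_im] at h3 h4
  norm_num at h3 h4
  exact ⟨h3, h4⟩

private theorem aj_Wnorm {θ : ℝ} (h : θ ∈ Set.Icc (Real.pi / 3) (2 * Real.pi / 3)) :
    88 / 100 * ‖qq θ‖ ≤ |(aj_W θ).re| := by
  have h1 := (aj_facts (qq_le h)).2.2.2.1
  have h2 : ‖aj_W θ‖ = ‖qq θ‖ * ‖ev (toR ℝ dl1) (qq θ)‖ := by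
    unfold aj_W
    rw [norm_mul, norm_mul]
    have e : (6 * (Complex.I * θ) : ℂ) = ((6 * θ : ℝ) : ℂ) * Complex.I := by
      push_cast
      ring
    rw [e, Complex.norm_exp_ofReal_mul_I, one_mul]
  have h3 : 88 / 100 ≤ ‖ev (toR ℝ dl1) (qq θ)‖ := by
    have h4 : ‖(1 : ℂ)‖ ≤ ‖ev (toR ℝ dl1) (qq θ)‖ + ‖ev (toR ℝ dl1) (qq θ) - 1‖ := by
      have e : (1 : ℂ) = ev (toR ℝ dl1) (qq θ) - (ev (toR ℝ dl1) (qq θ) - 1) := by ring
      calc ‖(1 : ℂ)‖ = ‖ev (toR ℝ dl1) (qq θ) - (ev (toR ℝ dl1) (qq θ) - 1)‖ := by rw [← e]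
        _ ≤ _ := norm_sub_le _ _
    rw [norm_one] at h4
    linarith
  have h5 : ‖aj_W θ‖ = |(aj_W θ).re| := by
    conv_lhs => rw [aj_real (aj_Wim h).2]
    exact Complex.norm_real _
  rw [← h5, h2, mul_comm]
  exact mul_le_mul_of_nonneg_left h3 (norm_nonneg _)

private theorem aj_Wne {θ : ℝ} (h : θ ∈ Set.Icc (Real.pi / 3) (2 * Real.pi / 3)) :
    (aj_W θ).re ≠ 0 := by
  have h1 := aj_Wnorm h
  have h2 : 0 < ‖qq θ‖ := norm_pos_iff.2 (qq_ne θ)
  intro h3
  rw [h3, abs_zero] at h1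
  linarith

private theorem aj_evq {A : PowerSeries ℝ} {C : ℝ} (hA : Bd (1 / 230) C A) :
    ContinuousOn (fun θ : ℝ => ev A (qq θ)) (Set.Icc (Real.pi / 3) (2 * Real.pi / 3)) :=
  (ev_cont hA).comp qq_cont.continuousOn fun _ h => qq_le h

private theorem aj_Wcont :
    ContinuousOn (fun θ => (aj_W θ).re) (Set.Icc (Real.pi / 3) (2 * Real.pi / 3)) := by
  refine Complex.continuous_re.comp_continuousOn ?_
  unfold aj_W
  refine ContinuousOn.mul ?_ (qq_cont.continuousOn.mul (aj_evq bd_dl1'))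
  exact Continuous.continuousOn (by fun_prop)

private theorem aj_qpi : qq (Real.pi / 2) = ((Real.exp (-(2 * Real.pi)) : ℝ) : ℂ) := by
  unfold qq
  have h1 : Complex.exp (Complex.I * ((Real.pi / 2 : ℝ) : ℂ)) = Complex.I := by
    have e : Complex.I * ((Real.pi / 2 : ℝ) : ℂ) = (Real.pi : ℂ) / 2 * Complex.I := by
      push_cast
      ring
    rw [e, Complex.exp_pi_div_two_mul_I]
  rw [h1, Complex.ofReal_exp]
  congr 1
  push_cast
  linear_combination (2 * (Real.pi : ℂ)) * Complex.I_mul_I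

private theorem aj_mid : Real.pi / 2 ∈ Set.Icc (Real.pi / 3) (2 * Real.pi / 3) := by
  have := Real.pi_pos
  constructor <;> linarith

private theorem aj_W2 : (aj_W (Real.pi / 2)).re < 0 := by
  have hm := aj_mid
  set q := qq (Real.pi / 2) with hq
  have hconj : (starRingEnd ℂ) q = q := by
    rw [hq, aj_qpi]
    exact Complex.conj_ofReal _
  have hreal : ∀ A : PowerSeries ℝ, (ev A q).im = 0 := by
    intro A
    have h := ev_conj A q
    rw [hconj] at h
    have h2 := congrArg Complex.im h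
    rw [Complex.conj_im] at h2
    linarith
  have e2 : Complex.exp (2 * (Complex.I * ((Real.pi / 2 : ℝ) : ℂ))) = -1 := by
    have e : 2 * (Complex.I * ((Real.pi / 2 : ℝ) : ℂ)) = (Real.pi : ℂ) * Complex.I := by
      push_cast
      ring
    rw [e, Complex.exp_pi_mul_I]
  have e3 : Complex.exp (3 * (Complex.I * ((Real.pi / 2 : ℝ) : ℂ))) = -Complex.I := by
    have e : 3 * (Complex.I * ((Real.pi / 2 : ℝ) : ℂ)) =
        (Real.pi : ℂ) * Complex.I + (Real.pi : ℂ) / 2 * Complex.I := by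
      push_cast
      ring
    rw [e, Complex.exp_add, Complex.exp_pi_mul_I, Complex.exp_pi_div_two_mul_I]
    ring
  have hb : (aj_b (Real.pi / 2)).re = 0 := by
    have h6 := arc_e6 hm
    have h7 := hreal (toR ℝ e6)
    unfold aj_b
    rw [e3] at h6 ⊢
    rw [← hq] at h6 ⊢
    simp only [Complex.mul_re, Complex.mul_im, Complex.neg_re, Complex.neg_im, Complex.I_re,
      Complex.I_im] at h6 ⊢
    rw [h7]
    ring
  have ha : (aj_a (Real.pi / 2)).re < 0 := by
    have h8 := (aj_facts (qq_le hm)).2.2.2.2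
    rw [← hq] at h8
    have hn : ‖q‖ = Real.exp (-(2 * Real.pi)) := by
      rw [hq, aj_qpi, Complex.norm_real, Real.norm_of_nonneg (Real.exp_pos _).le]
    have h9 : Real.exp (-(2 * Real.pi)) < 1 / 300 := by
      rw [Real.exp_neg, one_div]
      apply inv_strictAnti₀ (by norm_num)
      have h10 : (6 : ℝ) ≤ 2 * Real.pi := by
        have := Real.pi_gt_three
        linarith
      have h11 := Real.exp_one_gt_d9
      have h12 : Real.exp 6 = Real.exp 1 ^ 6 := by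
        rw [← Real.exp_nat_mul]
        norm_num
      have h13 : (2.7 : ℝ) ^ 6 < Real.exp 1 ^ 6 :=
        pow_lt_pow_left₀ (by linarith) (by norm_num) (by norm_num)
      have h14 := Real.exp_le_exp.2 h10
      have h15 : (300 : ℝ) < 2.7 ^ 6 := by norm_num
      linarith
    have h16 : |(ev (toR ℝ e4) q - 1).re| ≤ ‖ev (toR ℝ e4) q - 1‖ := Complex.abs_re_le_norm _
    have h17 := (abs_le.1 (h16.trans h8)).1
    rw [hn] at h17
    rw [Complex.sub_re, Complex.one_re] at h17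
    unfold aj_a
    rw [e2, ← hq]
    have e4' : ((-1 : ℂ) * ev (toR ℝ e4) q).re = -(ev (toR ℝ e4) q).re := by simp
    rw [e4']
    linarith
  have h := (aj_Wim hm).1
  rw [hb] at h
  have h18 : (aj_a (Real.pi / 2)).re ^ 3 < 0 := by
    have : Odd 3 := by decide
    exact this.pow_neg ha
  linarith

private theorem aj_Wneg {θ : ℝ} (h : θ ∈ Set.Icc (Real.pi / 3) (2 * Real.pi / 3)) :
    (aj_W θ).re < 0 := by
  by_contra hcon
  push Not at hcon
  have h1 := isPreconnected_Icc.intermediate_value aj_mid h aj_Wcont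
  obtain ⟨θ', hθ', h0⟩ := h1 ⟨aj_W2.le, hcon⟩
  exact aj_Wne hθ' h0

private theorem aj_cos {θ : ℝ} (h : θ ∈ Set.Icc (Real.pi / 3) (2 * Real.pi / 3)) :
    Real.cos (2 * θ) ≤ -1 / 2 := by
  have h1 : Real.cos θ ^ 2 ≤ 1 / 4 := by
    have hp := Real.pi_pos
    have h2 : Real.cos θ ≤ 1 / 2 := by
      rw [← Real.cos_pi_div_three]
      exact Real.cos_le_cos_of_nonneg_of_le_pi (by positivity) (by linarith [h.2]) h.1
    have h3 : -(1 / 2) ≤ Real.cos θ := by
      rw [← Real.cos_pi_div_three, ← Real.cos_pi_sub]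
      refine Real.cos_le_cos_of_nonneg_of_le_pi (by linarith [h.1]) (by linarith) ?_
      linarith [h.2]
    nlinarith
  rw [Real.cos_two_mul]
  linarith

/-- `|E₄ - 1 - 240 q| ≤ 10 |q|` -/
private theorem aj_e4b {q : ℂ} (hq : ‖q‖ ≤ 1 / 230) :
    ‖ev (toR ℝ e4) q - 1 - 240 * q‖ ≤ 10 * ‖q‖ := by
  have hX : Bd (1 / 230) (1 / 230) (X : PowerSeries ℝ) := by
    intro N
    rcases N with _ | _ | N
    · norm_num
    · norm_num [coeff_X]
    · rw [Finset.sum_range_succ', Finset.sum_range_succ']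
      simp [coeff_X]
  have hXe := bd_mul (by norm_num) hX bq_e4s
  have h2 : ev (toR ℝ e4) q = 1 + q * ev e4s q := by
    rw [e4s_eq, ev_add bd_one hXe hq, ev_one, ev_mul hX bq_e4s hq, ev_X]
  have h0 : coeff 0 e4s = 240 := by
    unfold e4s toR
    rw [coeff_mk, coeff_map]
    unfold e4
    rw [coeff_mk]
    simp
  set B : PowerSeries ℝ := e4s - (240 : ℝ) • 1 with hB
  have hBd : Bd (1 / 230) 10 B := by
    intro N
    rcases N with _ | N
    · norm_num
    · have h := bq_e4s (N + 1)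
      rw [Finset.sum_range_succ'] at h ⊢
      have h3 : ∀ n, coeff (n + 1) B = coeff (n + 1) e4s := by
        intro n
        rw [hB, map_sub, map_smul, coeff_one, if_neg (by omega), smul_zero, sub_zero]
      have h4 : coeff 0 B = 0 := by
        rw [hB, map_sub, map_smul, coeff_one, if_pos rfl, h0]
        norm_num
      rw [h0, pow_zero, mul_one, abs_of_nonneg (by norm_num : (0 : ℝ) ≤ 240)] at h
      rw [h4, abs_zero, zero_mul, add_zero]
      simp only [h3]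
      linarith
  have h1b : Bd (1 / 230) 240 ((240 : ℝ) • (1 : PowerSeries ℝ)) := by
    intro N
    have h := bd_one (r := 1 / 230) N
    calc ∑ n ∈ range N, |coeff n ((240 : ℝ) • (1 : PowerSeries ℝ))| * (1 / 230) ^ n
        = 240 * ∑ n ∈ range N, |coeff n (1 : PowerSeries ℝ)| * (1 / 230) ^ n := by
          rw [Finset.mul_sum]
          refine Finset.sum_congr rfl fun n _ => ?_
          rw [map_smul, smul_eq_mul, abs_mul, abs_of_nonneg (by norm_num : (0 : ℝ) ≤ 240)]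
          ring
      _ ≤ 240 := by linarith
  have h5 : ev e4s q = 240 + ev B q := by
    have e : e4s = (240 : ℝ) • 1 + B := by
      rw [hB]
      ring
    conv_lhs => rw [e]
    rw [ev_add h1b hBd hq, ev_smul, ev_one]
    push_cast
    ring
  have h6 : ev (toR ℝ e4) q - 1 - 240 * q = q * ev B q := by
    rw [h2, h5]
    ring
  rw [h6, norm_mul, mul_comm]
  exact mul_le_mul_of_nonneg_right (ev_norm hBd hq) (norm_nonneg _)

private theorem aj_sin {θ : ℝ} (h : θ ∈ Set.Icc (Real.pi / 3) (2 * Real.pi / 3)) :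
    Real.sqrt 3 / 2 ≤ Real.sin θ := by
  have hp := Real.pi_pos
  rcases le_total θ (Real.pi / 2) with h1 | h1
  · rw [← Real.sin_pi_div_three]
    exact Real.sin_le_sin_of_le_of_le_pi_div_two (by linarith) h1 h.1
  · rw [← Real.sin_pi_div_three, ← Real.sin_pi_sub θ]
    exact Real.sin_le_sin_of_le_of_le_pi_div_two (by linarith) (by linarith) (by linarith [h.2])

private theorem aj_cosle {θ : ℝ} (h : θ ∈ Set.Icc (Real.pi / 3) (2 * Real.pi / 3)) :
    Real.cos θ ≤ 1 / 2 - Real.sqrt 3 / 2 * (θ - Real.pi / 3) := by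
  have hp := Real.pi_pos
  have hmono : MonotoneOn (fun x => 1 / 2 - Real.sqrt 3 / 2 * (x - Real.pi / 3) - Real.cos x)
      (Set.Icc (Real.pi / 3) (2 * Real.pi / 3)) := by
    apply monotoneOn_of_deriv_nonneg (convex_Icc _ _)
    · exact Continuous.continuousOn (by fun_prop)
    · exact Differentiable.differentiableOn (by fun_prop)
    · intro x hx
      rw [interior_Icc] at hx
      have hd : HasDerivAt (fun x => 1 / 2 - Real.sqrt 3 / 2 * (x - Real.pi / 3) - Real.cos x)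
          (0 - Real.sqrt 3 / 2 * 1 - (-Real.sin x)) x := by
        refine HasDerivAt.sub (HasDerivAt.sub (hasDerivAt_const _ _) ?_) (Real.hasDerivAt_cos x)
        exact HasDerivAt.const_mul _ ((hasDerivAt_id x).sub_const _)
      rw [hd.deriv]
      have := aj_sin (θ := x) ⟨hx.1.le, hx.2.le⟩
      linarith
  have h1 := hmono ⟨le_rfl, by linarith⟩ h h.1
  simp only [sub_self, mul_zero, sub_zero, Real.cos_pi_div_three] at h1
  linarith

private theorem aj_phase {θ : ℝ} (h : θ ∈ Set.Icc (Real.pi / 3) (2 * Real.pi / 3)) :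
    Real.cos (2 * θ + 2 * Real.pi * Real.cos θ) ≤ 1 / 2 := by
  have hp := Real.pi_gt_three
  have h3 : (1.7 : ℝ) ≤ Real.sqrt 3 := by
    apply Real.le_sqrt_of_sq_le
    norm_num
  have key : ∀ x ∈ Set.Icc (Real.pi / 3) (2 * Real.pi / 3),
      2 * x + 2 * Real.pi * Real.cos x ≤ 5 * Real.pi / 3 := by
    intro x hx
    have h1 := aj_cosle hx
    have h2 : 2 * Real.pi * Real.cos x ≤
        2 * Real.pi * (1 / 2 - Real.sqrt 3 / 2 * (x - Real.pi / 3)) :=
      mul_le_mul_of_nonneg_left h1 (by positivity)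
    have h4 : 0 ≤ x - Real.pi / 3 := by linarith [hx.1]
    have h5 : 2 ≤ Real.pi * Real.sqrt 3 := by nlinarith
    nlinarith
  have h1 := key θ h
  have h2 := key (Real.pi - θ) ⟨by linarith [h.2], by linarith [h.1]⟩
  rw [Real.cos_pi_sub] at h2
  set φ := 2 * θ + 2 * Real.pi * Real.cos θ with hφ
  have h6 : Real.cos φ = -Real.cos (φ - Real.pi) := by
    rw [Real.cos_sub_pi, neg_neg]
  have h7 : |φ - Real.pi| ≤ 2 * Real.pi / 3 := by
    rw [abs_le]
    constructor <;> linarith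
  have h8 : Real.cos (2 * Real.pi / 3) = -1 / 2 := by
    have e : 2 * Real.pi / 3 = Real.pi - Real.pi / 3 := by ring
    rw [e, Real.cos_pi_sub, Real.cos_pi_div_three]
    ring
  have h9 : Real.cos (2 * Real.pi / 3) ≤ Real.cos (φ - Real.pi) := by
    rw [← Real.cos_abs (φ - Real.pi)]
    exact Real.cos_le_cos_of_nonneg_of_le_pi (abs_nonneg _) (by linarith) h7
  rw [h6]
  rw [h8] at h9
  linarith

private theorem aj_rot (θ : ℝ) : (Complex.exp (2 * (Complex.I * θ)) * qq θ).re =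
    ‖qq θ‖ * Real.cos (2 * θ + 2 * Real.pi * Real.cos θ) := by
  have h1 : Complex.exp (2 * (Complex.I * θ)) * qq θ =
      Complex.exp ((-(2 * Real.pi * Real.sin θ) : ℝ) +
        ((2 * θ + 2 * Real.pi * Real.cos θ : ℝ) : ℂ) * Complex.I) := by
    unfold qq
    rw [← Complex.exp_add]
    congr 1
    have h2 : Complex.exp (Complex.I * θ) = (Real.cos θ : ℂ) + (Real.sin θ : ℂ) * Complex.I := by
      rw [mul_comm, Complex.exp_mul_I, ← Complex.ofReal_cos, ← Complex.ofReal_sin]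
    rw [h2]
    push_cast
    linear_combination (2 * (Real.pi : ℂ) * Complex.sin (θ : ℂ)) * Complex.I_mul_I
  have h3 : ‖qq θ‖ = Real.exp (-(2 * Real.pi * Real.sin θ)) := by
    have h4 : ‖Complex.exp (2 * (Complex.I * θ)) * qq θ‖ = ‖qq θ‖ := by
      rw [norm_mul]
      have e2 : (2 * (Complex.I * θ) : ℂ) = ((2 * θ : ℝ) : ℂ) * Complex.I := by
        push_cast
        ring
      rw [e2, Complex.norm_exp_ofReal_mul_I, one_mul]
    rw [← h4, h1, Complex.norm_exp]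
    congr 1
    generalize -(2 * Real.pi * Real.sin θ) = A
    generalize 2 * θ + 2 * Real.pi * Real.cos θ = B
    simp
  rw [h1, h3]
  generalize -(2 * Real.pi * Real.sin θ) = A
  generalize 2 * θ + 2 * Real.pi * Real.cos θ = B
  rw [Complex.exp_re]
  congr 2 <;> simp

private theorem aj_lower {θ : ℝ} (h : θ ∈ Set.Icc (Real.pi / 3) (2 * Real.pi / 3)) :
    -1 ≤ (aj_a θ).re ^ 3 / (aj_W θ).re := by
  have hq0 := qq_ne θ
  have hW := aj_Wneg h
  set a := (aj_a θ).re with ha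
  set w := (aj_W θ).re with hw
  rcases le_or_gt a 0 with ha0 | ha0
  · have h1 : a ^ 3 ≤ 0 := by
      have : Odd 3 := by decide
      exact this.pow_nonpos ha0
    have h2 : 0 ≤ a ^ 3 / w := div_nonneg_of_nonpos h1 hW.le
    linarith
  · set y := ‖qq θ‖ with hy
    have hy0 : 0 < y := norm_pos_iff.2 hq0
    have hy1 : y ≤ 1 / 230 := qq_le h
    have h1 : a ≤ 130 * y - 1 / 2 := by
      have h2 : aj_a θ = Complex.exp (2 * (Complex.I * θ)) +
          240 * (Complex.exp (2 * (Complex.I * θ)) * qq θ) +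
          Complex.exp (2 * (Complex.I * θ)) * (ev (toR ℝ e4) (qq θ) - 1 - 240 * qq θ) := by
        unfold aj_a
        ring
      have e2 : (2 * (Complex.I * θ) : ℂ) = ((2 * θ : ℝ) : ℂ) * Complex.I := by
        push_cast
        ring
      have h3 : (Complex.exp (2 * (Complex.I * θ))).re = Real.cos (2 * θ) := by
        rw [e2, Complex.exp_ofReal_mul_I_re]
      have h4 : (Complex.exp (2 * (Complex.I * θ)) *
          (ev (toR ℝ e4) (qq θ) - 1 - 240 * qq θ)).re ≤ 10 * y := by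
        refine (Complex.re_le_norm _).trans ?_
        rw [norm_mul, e2, Complex.norm_exp_ofReal_mul_I, one_mul]
        exact aj_e4b (qq_le h)
      have h5 : (240 * (Complex.exp (2 * (Complex.I * θ)) * qq θ)).re ≤ 120 * y := by
        have e3 : (240 * (Complex.exp (2 * (Complex.I * θ)) * qq θ)).re =
            240 * (Complex.exp (2 * (Complex.I * θ)) * qq θ).re := by
          simp [Complex.mul_re]
        rw [e3, aj_rot]
        have := mul_le_mul_of_nonneg_left (aj_phase h) hy0.le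
        linarith
      rw [ha, h2, Complex.add_re, Complex.add_re, h3]
      have := aj_cos h
      linarith
    have h5 := aj_Wnorm h
    rw [← hw, abs_of_neg hW] at h5
    have h6 : a ≤ 66 / 1000 := by linarith
    have h7 : a ^ 3 ≤ (66 / 1000) ^ 2 * (130 * y - 1 / 2) := by
      have h8 : a ^ 2 ≤ (66 / 1000) ^ 2 := pow_le_pow_left₀ ha0.le h6 2
      calc a ^ 3 = a ^ 2 * a := by ring
        _ ≤ (66 / 1000) ^ 2 * (130 * y - 1 / 2) := mul_le_mul h8 h1 ha0.le (by norm_num)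
    rw [le_div_iff_of_neg hW]
    nlinarith

theorem arc_j {θ : ℝ} (h : θ ∈ Set.Icc (Real.pi / 3) (2 * Real.pi / 3)) :
    ev (toR ℝ jq) (qq θ) = (jj θ : ℂ) * qq θ ∧ -4 ≤ jj θ ∧ jj θ ≤ 1728 := by
  obtain ⟨f1, f2, f3, f4, f5⟩ := aj_facts (qq_le h)
  have hq0 := qq_ne θ
  have hW := aj_Wneg h
  have hWim := aj_Wim h
  have hlow := aj_lower h
  set a := (aj_a θ).re with ha
  set b := (aj_b θ).re with hb
  set w := (aj_W θ).re with hw
  have haC : aj_a θ = (a : ℂ) := aj_real (arc_e4 h)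
  have hwC : aj_W θ = (w : ℂ) := aj_real hWim.2
  have hd1 : ev (toR ℝ dl1) (qq θ) ≠ 0 := left_ne_zero_of_mul_eq_one f1
  have e1 : Complex.exp (2 * (Complex.I * θ)) ^ 3 = Complex.exp (6 * (Complex.I * θ)) := by
    rw [← Complex.exp_nat_mul]
    congr 1
    push_cast
    ring
  have hx : ev (toR ℝ jq) (qq θ) / qq θ = ((a ^ 3 / w : ℝ) : ℂ) := by
    have h1 : ((a ^ 3 / w : ℝ) : ℂ) = aj_a θ ^ 3 / aj_W θ := by
      rw [haC, hwC]
      push_cast
      rfl
    rw [h1, f3]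
    have h2 : ev (toR ℝ dq) (qq θ) = (ev (toR ℝ dl1) (qq θ))⁻¹ :=
      eq_inv_of_mul_eq_one_right f1
    rw [h2]
    unfold aj_a aj_W
    rw [mul_pow, e1]
    have h3 : Complex.exp (6 * (Complex.I * θ)) ≠ 0 := Complex.exp_ne_zero _
    field_simp
  have hjj : jj θ = a ^ 3 / w := by
    unfold jj
    rw [hx, Complex.ofReal_re]
  refine ⟨?_, ?_, ?_⟩
  · rw [hjj, ← hx, div_mul_cancel₀ _ hq0]
  · rw [hjj]
    linarith
  · rw [hjj, div_le_iff_of_neg hW]
    nlinarith [hWim.1, sq_nonneg b]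

theorem jj_cont : ContinuousOn jj (Set.Icc (Real.pi / 3) (2 * Real.pi / 3)) := by
  obtain ⟨C4, h4⟩ := bq_e4
  obtain ⟨Cq, hq'⟩ := bq_dq
  have hj : Bd (1 / 230) (C4 ^ 3 * Cq) (toR ℝ jq) := by
    unfold jq
    rw [aj_mul, aj_pow]
    exact bd_mul (by norm_num) (bd_pow (by norm_num) h4 3) hq'
  unfold jj
  refine Complex.continuous_re.comp_continuousOn ?_
  exact (aj_evq hj).div qq_cont.continuousOn fun θ _ => qq_ne θ

end Pool.Agent.Work.MP_b73316_nt.Q
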