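import Pool.Agent.Work.MP_b73316_nt.Q.Defs
import Pool.Agent.Work.MP_b73316_nt.Q.EvA
import Pool.Agent.Work.MP_b73316_nt.Q.BdQ
import Pool.Agent.Work.MP_b73316_nt.Q.ArcI
import Pool.Agent.Work.MP_b73316_nt.Q.ArcJ

/-!
Module Mom (size S-M): the coefficients `mu κ (k+1)` are moments on `[-4, 1728]`, `κ = 1, 2`.

PROOF.  `mu κ (k+1)` is the coefficient at `q^(k+1)` of
`xx^(κ+1) jq^(k+1) F`, and `xx = e6 e4i`, `jq = e4³ dq`, `e4 e4i = 1`, so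
`xx^(κ+1) jq = e6^(κ+1) e4^(2-κ) dq` (`κ ≤ 2`): the series is `B jq^k`, `B = e6^(κ+1) e4^(2-κ) dq F`
(real series, bounded: `BdQ`, `bd_mul`, `bd_pow`).  `arc_coeff` with `m = k + 1`:
`mu = -∫ ev B q · ev(jq) q ^k · q^(-(k+1)) i e^(iθ) dθ = ∫ (jj θ)^k g θ dθ`,
`g θ = - ev B (qq θ) (qq θ)⁻¹ i e^(iθ)` (`arc_j`: `ev jq q = jj θ · q`).  `‖g θ‖ ≤ C_B exp (2π)`
(`qq_ge`), `g` is continuous on the arc (`ev_cont`, `qq_cont`, `qq_le`).
-/

set_option autoImplicit false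

open PowerSeries Finset MP0f16e1

namespace Pool.Agent.Work.MP_b73316_nt.Q

private theorem mom_mul (R : Type*) [CommRing R] (a b : PowerSeries ℤ) :
    toR R (a * b) = toR R a * toR R b := by
  unfold toR
  exact map_mul _ _ _

private theorem mom_pow (R : Type*) [CommRing R] (a : PowerSeries ℤ) (n : ℕ) :
    toR R (a ^ n) = toR R a ^ n := by
  unfold toR
  exact map_pow _ _ _

private theorem mom_int (κ : ℕ) (hκ : κ = 1 ∨ κ = 2) (k : ℕ) :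
    xx ^ (κ + 1) * jq ^ (k + 1) = e6 ^ (κ + 1) * e4 ^ (2 - κ) * dq * jq ^ k := by
  have h := e4_mul_e4i
  rcases hκ with rfl | rfl
  · have h1 : xx ^ (1 + 1) * jq = e6 ^ (1 + 1) * e4 ^ (2 - 1) * dq := by
      unfold xx jq
      calc (e6 * e4i) ^ (1 + 1) * (e4 ^ 3 * dq) = e6 ^ (1 + 1) * e4 * dq * (e4 * e4i) ^ 2 := by ring
        _ = e6 ^ (1 + 1) * e4 ^ (2 - 1) * dq := by rw [h]; ring
    rw [pow_succ jq, ← h1]
    ring
  · have h1 : xx ^ (2 + 1) * jq = e6 ^ (2 + 1) * e4 ^ (2 - 2) * dq := by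
      unfold xx jq
      calc (e6 * e4i) ^ (2 + 1) * (e4 ^ 3 * dq) = e6 ^ (2 + 1) * dq * (e4 * e4i) ^ 3 := by ring
        _ = e6 ^ (2 + 1) * e4 ^ (2 - 2) * dq := by rw [h]; ring
    rw [pow_succ jq, ← h1]
    ring

private theorem mom_map (f : PowerSeries ℤ) :
    PowerSeries.map (algebraMap ℚ ℝ) (toR ℚ f) = toR ℝ f := by
  ext n
  unfold toR
  rw [PowerSeries.coeff_map, PowerSeries.coeff_map, PowerSeries.coeff_map]
  simp

theorem mom (κ : ℕ) (hκ : κ = 1 ∨ κ = 2) : ∃ (g : ℝ → ℂ) (C : ℝ), 0 ≤ C ∧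
    ContinuousOn g (Set.Icc (Real.pi / 3) (2 * Real.pi / 3)) ∧
    (∀ θ ∈ Set.Icc (Real.pi / 3) (2 * Real.pi / 3), ‖g θ‖ ≤ C) ∧
    ∀ k : ℕ, ((mu κ (k + 1) : ℚ) : ℂ) =
      ∫ θ in (Real.pi / 3)..(2 * Real.pi / 3), ((jj θ : ℂ)) ^ k * g θ := by
  obtain ⟨C4, h4⟩ := bq_e4
  obtain ⟨C6, h6⟩ := bq_e6
  obtain ⟨Cq, hq⟩ := bq_dq
  obtain ⟨CF, hF⟩ := bq_Fs (2 * κ + 1)
  set FR : PowerSeries ℝ := (Fs (2 * κ + 1)).map (algebraMap ℚ ℝ) with hFR
  set B : PowerSeries ℝ := toR ℝ (e6 ^ (κ + 1) * e4 ^ (2 - κ) * dq) * FR with hBdef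
  have hr : (0 : ℝ) ≤ 1 / 230 := by norm_num
  have hB : Bd (1 / 230) (C6 ^ (κ + 1) * C4 ^ (2 - κ) * Cq * CF) B := by
    rw [hBdef, mom_mul, mom_mul, mom_pow, mom_pow]
    exact bd_mul hr (bd_mul hr (bd_mul hr (bd_pow hr h6 _) (bd_pow hr h4 _)) hq) hF
  set CB := C6 ^ (κ + 1) * C4 ^ (2 - κ) * Cq * CF with hCB
  have hj : Bd (1 / 230) (C4 ^ 3 * Cq) (toR ℝ jq) := by
    unfold jq
    rw [mom_mul, mom_pow]
    exact bd_mul hr (bd_pow hr h4 3) hq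
  have hCB0 : 0 ≤ CB := bd_nonneg hB
  refine ⟨fun θ => -(ev B (qq θ) * (qq θ)⁻¹ * (Complex.I * Complex.exp (Complex.I * θ))),
    CB * Real.exp (2 * Real.pi), by positivity, ?_, fun θ hθ => ?_, fun k => ?_⟩
  · refine ContinuousOn.neg (ContinuousOn.mul (ContinuousOn.mul ?_ ?_) ?_)
    · exact (ev_cont hB).comp qq_cont.continuousOn fun θ hθ => qq_le hθ
    · exact (qq_cont.inv₀ qq_ne).continuousOn
    · exact Continuous.continuousOn (by fun_prop)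
  · rw [norm_neg, norm_mul, norm_mul, norm_inv, norm_mul, Complex.norm_I, one_mul]
    have e1 : ‖Complex.exp (Complex.I * (θ : ℂ))‖ = 1 := by
      rw [mul_comm]
      exact Complex.norm_exp_ofReal_mul_I θ
    rw [e1, mul_one]
    have h1 := ev_norm hB (qq_le hθ)
    have h2 := qq_ge θ
    have h3 : ‖qq θ‖⁻¹ ≤ Real.exp (2 * Real.pi) := by
      rw [Real.exp_neg] at h2
      have h4' : 0 < (Real.exp (2 * Real.pi))⁻¹ := by positivity
      have h5 := inv_anti₀ h4' h2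
      rwa [inv_inv] at h5
    exact mul_le_mul h1 h3 (by positivity) hCB0
  · set A : PowerSeries ℝ := B * toR ℝ jq ^ k with hA
    have hABd : Bd (1 / 230) (CB * (C4 ^ 3 * Cq) ^ k) A := bd_mul hr hB (bd_pow hr hj k)
    have hmu : ((mu κ (k + 1) : ℚ) : ℂ) = ((coeff (k + 1) A : ℝ) : ℂ) := by
      have h1 : A = PowerSeries.map (algebraMap ℚ ℝ)
          (toR ℚ (xx ^ (κ + 1) * jq ^ (k + 1)) * Fs (2 * κ + 1)) := by
        rw [map_mul, mom_map, mom_int κ hκ k, hA, hBdef, mom_mul ℝ _ (jq ^ k), mom_pow ℝ jq k]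
        ring
      rw [h1, PowerSeries.coeff_map]
      simp [mu]
    rw [hmu, arc_coeff A _ hABd (k + 1), ← intervalIntegral.integral_neg]
    apply intervalIntegral.integral_congr
    intro θ hθ
    have hpi := Real.pi_pos
    have hle : Real.pi / 3 ≤ 2 * Real.pi / 3 := by linarith
    rw [Set.uIcc_of_le hle] at hθ
    have h1 : ev A (qq θ) = ev B (qq θ) * ((jj θ : ℂ) * qq θ) ^ k := by
      rw [hA, ev_mul hB (bd_pow hr hj k) (qq_le hθ), ev_pow hj (qq_le hθ), (arc_j hθ).1]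
    have h2 := qq_ne θ
    show -(ev A (qq θ) * (qq θ ^ (k + 1))⁻¹ * (Complex.I * Complex.exp (Complex.I * θ))) =
      (jj θ : ℂ) ^ k * -(ev B (qq θ) * (qq θ)⁻¹ * (Complex.I * Complex.exp (Complex.I * θ)))
    rw [h1, mul_pow, pow_succ]
    field_simp

end Pool.Agent.Work.MP_b73316_nt.Q
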