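import Pool.Agent.Work.MP_b73316_nt.Q.Defs
import Pool.Agent.Work.MP_b73316_nt.Q.HanA
import Pool.Agent.Work.MP_b73316_nt.Q.DetH
import Pool.Agent.Work.MP_b73316_nt.Q.Mom

/-!
Module ArcB (size S): the archimedean bound.

PROOF.  `mom` gives `g, C`; `detH` with `m k = (mu κ (k+1) : ℝ)`, `x = jj` (`jj_cont`, `arc_j`) and `hanA`
(cast the determinant from `ℚ` to `ℝ`):
`|δ| ≤ (D+1)! (4Cπ/3)^(D+1) 433^(D(D+1))`.  Take logarithms (`δ ≠ 0`, so `C > 0`):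
`log |δ| ≤ (D+1) log (D+1) + (D+1) |log (4Cπ/3)| + (D² + D) log 433 ≤ (log 433 + ε) D²` for `D` large
(`(D+1)! ≤ (D+1)^(D+1)`, `log (D+1) ≤ 2 √(D+1)` or `isLittleO_log_id_atTop`).
-/

set_option autoImplicit false

open PowerSeries Finset Filter MP0f16e1

namespace Pool.Agent.Work.MP_b73316_nt.Q

private lemma arcB_bound (κ : ℕ) (g : ℝ → ℂ) (C : ℝ) (hC : 0 ≤ C)
    (hg : ContinuousOn g (Set.Icc (Real.pi / 3) (2 * Real.pi / 3)))
    (hgC : ∀ θ ∈ Set.Icc (Real.pi / 3) (2 * Real.pi / 3), ‖g θ‖ ≤ C)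
    (hm : ∀ k : ℕ, ((mu κ (k + 1) : ℚ) : ℂ) =
      ∫ θ in (Real.pi / 3)..(2 * Real.pi / 3), ((jj θ : ℂ)) ^ k * g θ)
    (D : ℕ) (δ : ℚ) (h : Han κ D δ) :
    |(δ : ℝ)| ≤ (D + 1).factorial * (4 * C * (Real.pi / 3)) ^ (D + 1) * 433 ^ (D * (D + 1)) := by
  have h1 := detH (fun k => ((mu κ (k + 1) : ℚ) : ℝ)) jj g C hC jj_cont hg
    (fun θ hθ => ⟨(arc_j hθ).2.1, (arc_j hθ).2.2⟩) hgC
    (fun k => by rw [← hm k]; simp) D
  have h2 := hanA κ D δ h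
  have h3 : (Matrix.of fun i k : Fin (D + 1) => ((mu κ (((i : ℕ) + (k : ℕ)) + 1) : ℚ) : ℝ)) =
      (Rat.castHom ℝ).mapMatrix (Matrix.of fun i k : Fin (D + 1) => mu κ (i + k + 1)) := by
    ext i k
    simp
  have h4 : |(δ : ℝ)| = |(Matrix.of fun i k : Fin (D + 1) =>
      ((mu κ (((i : ℕ) + (k : ℕ)) + 1) : ℚ) : ℝ)).det| := by
    rw [h3, ← RingHom.map_det]
    have h5 : (Rat.castHom ℝ) (Matrix.of fun i k : Fin (D + 1) => mu κ (i + k + 1)).det =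
      (((Matrix.of fun i k : Fin (D + 1) => mu κ (i + k + 1)).det : ℚ) : ℝ) := rfl
    rw [h5, ← Rat.cast_abs, ← Rat.cast_abs, h2]
  rw [h4]
  exact h1

theorem arcB (κ : ℕ) (hκ : κ = 1 ∨ κ = 2) (ε : ℝ) (hε : 0 < ε) :
    ∃ D₀ : ℕ, ∀ D : ℕ, D₀ ≤ D → ∀ δ : ℚ, Han κ D δ →
      Real.log |(δ : ℝ)| ≤ (Real.log 433 + ε) * (D : ℝ) ^ 2 := by
  obtain ⟨g, C, hC, hg, hgC, hmom⟩ := mom κ hκ
  obtain ⟨K, hK1, hK2⟩ : ∃ K : ℝ, 1 ≤ K ∧ 4 * C * (Real.pi / 3) ≤ K :=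
    ⟨max 1 (4 * C * (Real.pi / 3)), le_max_left _ _, le_max_right _ _⟩
  have hK0 : 0 < K := by linarith
  have hL : 0 ≤ Real.log K := Real.log_nonneg hK1
  have h433 : 0 ≤ Real.log 433 := Real.log_nonneg (by norm_num)
  have ev1 : ∀ᶠ D : ℕ in atTop, Real.log ((D : ℝ) + 1) ≤ (ε / 8) * ((D : ℝ) + 1) := by
    have h1 := Real.isLittleO_log_id_atTop.bound (show 0 < ε / 8 by positivity)
    have h2 : Tendsto (fun D : ℕ => (D : ℝ) + 1) atTop atTop :=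
      tendsto_atTop_add_const_right _ _ tendsto_natCast_atTop_atTop
    filter_upwards [h2.eventually h1] with D hD
    simp only [id, Real.norm_eq_abs] at hD
    calc Real.log ((D : ℝ) + 1) ≤ |Real.log ((D : ℝ) + 1)| := le_abs_self _
      _ ≤ ε / 8 * |(D : ℝ) + 1| := hD
      _ = (ε / 8) * ((D : ℝ) + 1) := by rw [abs_of_nonneg (by positivity)]
  have ev2 : ∀ᶠ D : ℕ in atTop, (2 * Real.log K + Real.log 433) ≤ (ε / 2) * (D : ℝ) := by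
    have h1 : Tendsto (fun D : ℕ => (ε / 2) * (D : ℝ)) atTop atTop :=
      tendsto_natCast_atTop_atTop.const_mul_atTop (by positivity)
    exact h1.eventually_ge_atTop _
  obtain ⟨D₀, hD₀⟩ := eventually_atTop.1 (ev1.and (ev2.and (eventually_ge_atTop 1)))
  refine ⟨D₀, fun D hD δ hδ => ?_⟩
  obtain ⟨e1, e2, e3⟩ := hD₀ D hD
  have hDr : (1 : ℝ) ≤ (D : ℝ) := by exact_mod_cast e3
  have hb := arcB_bound κ g C hC hg hgC hmom D δ hδ
  have hδ0 : 0 < |(δ : ℝ)| := abs_pos.2 (by exact_mod_cast hδ.ne)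
  have hfac : ((D + 1).factorial : ℝ) ≤ ((D : ℝ) + 1) ^ (D + 1) := by
    have := Nat.factorial_le_pow (D + 1)
    exact_mod_cast this
  have hC0 : 0 ≤ 4 * C * (Real.pi / 3) := by positivity
  have hb2 : |(δ : ℝ)| ≤ ((D : ℝ) + 1) ^ (D + 1) * K ^ (D + 1) * 433 ^ (D * (D + 1)) := by
    refine hb.trans ?_
    gcongr
  have hlog := Real.log_le_log hδ0 hb2
  rw [Real.log_mul (by positivity) (by positivity), Real.log_mul (by positivity) (by positivity),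
    Real.log_pow, Real.log_pow, Real.log_pow] at hlog
  push_cast at hlog
  have k1 : ((D : ℝ) + 1) * Real.log ((D : ℝ) + 1) ≤ ε / 2 * (D : ℝ) ^ 2 := by
    calc ((D : ℝ) + 1) * Real.log ((D : ℝ) + 1) ≤ ((D : ℝ) + 1) * ((ε / 8) * ((D : ℝ) + 1)) := by
          gcongr
      _ = (ε / 8) * (((D : ℝ) + 1) * ((D : ℝ) + 1)) := by ring
      _ ≤ (ε / 8) * ((2 * (D : ℝ)) * (2 * (D : ℝ))) := by
          have : (D : ℝ) + 1 ≤ 2 * (D : ℝ) := by linarith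
          gcongr
      _ = ε / 2 * (D : ℝ) ^ 2 := by ring
  have k2 : ((D : ℝ) + 1) * Real.log K + (D : ℝ) * Real.log 433 ≤ ε / 2 * (D : ℝ) ^ 2 := by
    calc ((D : ℝ) + 1) * Real.log K + (D : ℝ) * Real.log 433
        ≤ (2 * (D : ℝ)) * Real.log K + (D : ℝ) * Real.log 433 := by
          have : (D : ℝ) + 1 ≤ 2 * (D : ℝ) := by linarith
          gcongr
      _ = (2 * Real.log K + Real.log 433) * (D : ℝ) := by ring
      _ ≤ ((ε / 2) * (D : ℝ)) * (D : ℝ) := by gcongr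
      _ = ε / 2 * (D : ℝ) ^ 2 := by ring
  nlinarith [hlog, k1, k2]

end Pool.Agent.Work.MP_b73316_nt.Q
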