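import Pool.Agent.Work.MP_b73316_nt.Q.Defs
import Pool.Agent.Work.MP_b73316_nt.V.NvV
import Pool.Agent.Work.MP_b73316_nt.Pnt

/-!
Module Cnt (size S-M): from the set `Gd S κ` to the primes with a value not divisible by `p^(2S)`.

PROOF.  `P₀ = 4^κ + 2κ + 14`.  `gd_nv`: a prime `p ≥ P₀` in `Gd S κ` has
`(p : ℝ)^(-(2S)) < ‖VV p (-2κ) (2S)‖`; `p ≠ 2`; `V.nv_VV` (with `T = 2S ≥ 1`).
`cnt_log`: the primes `p ≤ X` in `Gd` are `< P₀` or have `NV`: `∑_{Gd} log p/p ≤ C + ∑_{NV} log p/p`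
with `C = ∑_{p < P₀} log p/p`; the coefficient `c'` is larger than `c''`, so `c'' log X ≤ c' log X - C`
for `X` large.
`cnt_low`: `c' X ≤ thG Gd X ≤ C + (#NV) log X` and `π(X) log X ≤ (1 + η) X` for `X` large (`pi_near`), so
`c'' π(X) log X ≤ c' X - C ≤ #NV log X`; divide by `log X > 0` (for `c'' ≤ 0` trivial).
`cnt_upp`: `#{p ≤ X prime in Gd} ≤ P₀ + #NV`, and `π(X) → ∞` (`Nat.tendsto_primeCounting`) so
`c'' π(X) + P₀ ≤ c' π(X)` eventually.
-/

set_option autoImplicit false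

open Finset Filter

namespace Pool.Agent.Work.MP_b73316_nt.Q

theorem gd_nv (S κ p : ℕ) (hS : 1 ≤ S) (hκ : 1 ≤ κ) (hp : p.Prime) (hP : 4 ^ κ + 2 * κ + 14 ≤ p)
    (hG : p ∈ Gd S κ) : V.NV (2 * S) p (2 * κ + 1) := by
  haveI : Fact p.Prime := ⟨hp⟩
  have h14 : 14 ≤ p := (Nat.le_add_left 14 _).trans hP
  refine V.nv_VV p (by omega) κ (2 * S) hκ (by omega) ?_
  by_contra hcon
  exact hG ⟨hP, hp, not_lt.1 hcon⟩

open Classical in
private theorem cnt_sub (S κ : ℕ) (hS : 1 ≤ S) (hκ : 1 ≤ κ) (X : ℕ) :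
    (Icc 1 X).filter (fun p => p.Prime ∧ p ∈ Gd S κ) ⊆
      range (4 ^ κ + 2 * κ + 14) ∪ (Icc 1 X).filter (fun p => V.NV (2 * S) p (2 * κ + 1)) := by
  intro p hp
  rw [mem_filter] at hp
  obtain ⟨h1, h2, h3⟩ := hp
  rw [mem_union, mem_range, mem_filter]
  rcases lt_or_ge p (4 ^ κ + 2 * κ + 14) with h | h
  · exact Or.inl h
  · exact Or.inr ⟨h1, gd_nv S κ p hS hκ h2 h h3⟩

open Classical in
theorem cnt_log (S κ : ℕ) (hS : 1 ≤ S) (hκ : 1 ≤ κ) (c' c'' : ℝ) (hc : c'' < c')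
    (h : ∀ᶠ X : ℕ in atTop, c' * Real.log X ≤
      ∑ p ∈ (Icc 1 X).filter (fun p => p.Prime ∧ p ∈ Gd S κ), Real.log p / p) :
    ∀ᶠ X : ℕ in atTop, c'' * Real.log X ≤
      ∑ p ∈ (Icc 1 X).filter (fun p => V.NV (2 * S) p (2 * κ + 1)), Real.log p / p := by
  set C : ℝ := ∑ p ∈ range (4 ^ κ + 2 * κ + 14), Real.log p / p with hC
  have hlog : Tendsto (fun X : ℕ => (c' - c'') * Real.log (X : ℝ)) atTop atTop :=
    (Real.tendsto_log_atTop.comp tendsto_natCast_atTop_atTop).const_mul_atTop (by linarith)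
  filter_upwards [h, hlog.eventually_ge_atTop C] with X h1 h2
  have hnn : ∀ p : ℕ, 0 ≤ Real.log (p : ℝ) / p := fun p =>
    div_nonneg (Real.log_natCast_nonneg p) (Nat.cast_nonneg p)
  have h3 : ∑ p ∈ (Icc 1 X).filter (fun p => p.Prime ∧ p ∈ Gd S κ), Real.log p / p ≤
      C + ∑ p ∈ (Icc 1 X).filter (fun p => V.NV (2 * S) p (2 * κ + 1)), Real.log p / p := by
    refine (sum_le_sum_of_subset_of_nonneg (cnt_sub S κ hS hκ X) (fun p _ _ => hnn p)).trans ?_
    have h4 := sum_union_inter (s₁ := range (4 ^ κ + 2 * κ + 14))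
      (s₂ := (Icc 1 X).filter (fun p => V.NV (2 * S) p (2 * κ + 1)))
      (f := fun p : ℕ => Real.log (p : ℝ) / p)
    have h5 : 0 ≤ ∑ p ∈ range (4 ^ κ + 2 * κ + 14) ∩
        (Icc 1 X).filter (fun p => V.NV (2 * S) p (2 * κ + 1)), Real.log (p : ℝ) / p :=
      sum_nonneg fun p _ => hnn p
    linarith
  linarith

open Classical in
theorem cnt_low (S κ : ℕ) (hS : 1 ≤ S) (hκ : 1 ≤ κ) (c' c'' : ℝ) (hc : c'' < c')
    (h : ∀ᶠ X : ℕ in atTop, c' * X ≤ thG (Gd S κ) X) :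
    ∀ᶠ X : ℕ in atTop, c'' * Nat.primeCounting X ≤
      (((Icc 1 X).filter (fun p => V.NV (2 * S) p (2 * κ + 1))).card : ℝ) := by
  rcases le_or_gt c'' 0 with hc0 | hc0
  · refine Filter.Eventually.of_forall fun X => ?_
    exact (mul_nonpos_of_nonpos_of_nonneg hc0 (Nat.cast_nonneg _)).trans (Nat.cast_nonneg _)
  set C : ℝ := ∑ p ∈ range (4 ^ κ + 2 * κ + 14), Real.log p with hC
  have hlin : Tendsto (fun X : ℕ => (c' - c'') / 2 * (X : ℝ)) atTop atTop :=
    tendsto_natCast_atTop_atTop.const_mul_atTop (by linarith)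
  have hη : (1 : ℝ) < (c' + c'') / (2 * c'') := by
    rw [lt_div_iff₀ (by linarith)]
    linarith
  have hpi := (tendsto_order.1 pi_near).2 _ hη
  filter_upwards [h, hlin.eventually_ge_atTop C, hpi, eventually_ge_atTop 2] with X h1 h2 h3 hX
  have hX0 : (0 : ℝ) < X := by
    have : 0 < X := by omega
    exact_mod_cast this
  have hlX : 0 < Real.log (X : ℝ) := Real.log_pos (by
    have : 1 < X := by omega
    exact_mod_cast this)
  set N : ℝ := (((Icc 1 X).filter (fun p => V.NV (2 * S) p (2 * κ + 1))).card : ℝ) with hN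
  have hnn : ∀ p : ℕ, 0 ≤ Real.log (p : ℝ) := fun p => Real.log_natCast_nonneg p
  have h4 : thG (Gd S κ) X ≤ C + N * Real.log X := by
    have h5 : thG (Gd S κ) X = ∑ p ∈ (Icc 1 X).filter (fun p => p.Prime ∧ p ∈ Gd S κ),
        Real.log p := by
      unfold thG
      congr
    rw [h5]
    refine (sum_le_sum_of_subset_of_nonneg (cnt_sub S κ hS hκ X) (fun p _ _ => hnn p)).trans ?_
    have h6 := sum_union_inter (s₁ := range (4 ^ κ + 2 * κ + 14))
      (s₂ := (Icc 1 X).filter (fun p => V.NV (2 * S) p (2 * κ + 1)))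
      (f := fun p : ℕ => Real.log (p : ℝ))
    have h7 : 0 ≤ ∑ p ∈ range (4 ^ κ + 2 * κ + 14) ∩
        (Icc 1 X).filter (fun p => V.NV (2 * S) p (2 * κ + 1)), Real.log (p : ℝ) :=
      sum_nonneg fun p _ => hnn p
    have h8 : ∑ p ∈ (Icc 1 X).filter (fun p => V.NV (2 * S) p (2 * κ + 1)), Real.log (p : ℝ)
        ≤ N * Real.log X := by
      rw [hN, ← nsmul_eq_mul]
      refine sum_le_card_nsmul _ _ _ (fun p hp => ?_)
      rw [mem_filter, mem_Icc] at hp
      refine Real.log_le_log ?_ ?_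
      · have : 0 < p := by omega
        exact_mod_cast this
      · exact_mod_cast hp.1.2
    linarith
  have h9 : c'' * ((Nat.primeCounting X : ℝ) * Real.log X) ≤ (c' + c'') / 2 * X := by
    rw [div_lt_iff₀ hX0] at h3
    have h10 : c'' * ((Nat.primeCounting X : ℝ) * Real.log X) ≤
        c'' * ((c' + c'') / (2 * c'') * X) := mul_le_mul_of_nonneg_left h3.le hc0.le
    have h11 : c'' * ((c' + c'') / (2 * c'') * X) = (c' + c'') / 2 * X := by
      field_simp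
    linarith
  have h12 : (c'' * Nat.primeCounting X) * Real.log X ≤ N * Real.log X := by
    have : (c'' * Nat.primeCounting X) * Real.log X =
        c'' * ((Nat.primeCounting X : ℝ) * Real.log X) := by ring
    rw [this]
    nlinarith
  exact le_of_mul_le_mul_right h12 hlX

open Classical in
theorem cnt_upp (S κ : ℕ) (hS : 1 ≤ S) (hκ : 1 ≤ κ) (c' c'' : ℝ) (hc : c'' < c')
    (h : ∃ᶠ X : ℕ in atTop, c' * Nat.primeCounting X ≤
      (((Icc 1 X).filter (fun p => p.Prime ∧ p ∈ Gd S κ)).card : ℝ)) :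
    ∃ᶠ X : ℕ in atTop, c'' * Nat.primeCounting X ≤
      (((Icc 1 X).filter (fun p => V.NV (2 * S) p (2 * κ + 1))).card : ℝ) := by
  have hpi : Tendsto (fun X : ℕ => (c' - c'') * (Nat.primeCounting X : ℝ)) atTop atTop :=
    (tendsto_natCast_atTop_atTop.comp Nat.tendsto_primeCounting).const_mul_atTop (by linarith)
  refine (h.and_eventually
    (hpi.eventually_ge_atTop ((4 ^ κ + 2 * κ + 14 : ℕ) : ℝ))).mono ?_
  rintro X ⟨h1, h2⟩
  have h3 : (((Icc 1 X).filter (fun p => p.Prime ∧ p ∈ Gd S κ)).card : ℝ) ≤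
      ((4 ^ κ + 2 * κ + 14 : ℕ) : ℝ) +
      (((Icc 1 X).filter (fun p => V.NV (2 * S) p (2 * κ + 1))).card : ℝ) := by
    have h4 := (card_le_card (cnt_sub S κ hS hκ X)).trans (card_union_le _ _)
    rw [card_range] at h4
    exact_mod_cast h4
  linarith

end Pool.Agent.Work.MP_b73316_nt.Q
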