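import Pool.Agent.Work.MP_b73316_nt.V.Defs
import Pool.Agent.Work.MP_b73316_nt.Ser

/-!
# One zeta value alone

THEOREM (helper77).  The set of the primes `p` for which `L_p(3, ω^(-2))` is not divisible by `p^6`
(`p^8`) has lower density `≥ 1/16` (lower logarithmic density `≥ 1/4`); the set of the primes `p` for
which `L_p(5, ω^(-4))` is not divisible by `p^10` has lower density `≥ 11/1000` and lower logarithmic
density `≥ 9/200`.  So `ζ_p(3) ≠ 0`, `ζ_p(5) ≠ 0` for these primes.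

METHOD.  `h = x^κ F`, `n = 2κ+1`, as a power series in `t = 1/j`: `h = ∑ c_m t^m`, `c_m = mu κ m`.
`H_D = det (c_{1+i+k})_{i,k ≤ D}` (Hankel determinant), `D` such that `H_D ≠ 0` (normal index).
* real size: `c_m = ∫ j^(m-1) g` over the arc `|τ| = 1` of the fundamental domain, `j ∈ [0, 1728]`
  there, so `log |H_D| ≤ (log 432 + ε) D²` by Chebyshev polynomials (we use `[-4, 1728]` and `433`);
* denominators: `p^(n log_p l)` in the columns `l = D+1, ..., 2D+1`;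
* bad primes `p` (`L_p(n)` divisible by `p^(2S)`): modulo `p^s`, `h` is a polynomial in `t` divided by
  `f(t)^s`, `deg f = d ≈ p/12`, `f(0) = 1`.  NEW (factor 2 in the gain): replace the row `t^e h` by
  `f(t)^r t^e h`, `e + r d ≤ D` (a unipotent change of the rows); its entries in the columns
  `l > D + const + s d`, `l < p`, are divisible by `p^(s + r)`.
-/

open PowerSeries Finset Filter MP0f16e1

noncomputable section

namespace Pool.Agent.Work.MP_b73316_nt.Q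

/-- `h = x^κ F_{2κ+1}` -/
def hh (κ : ℕ) : PowerSeries ℚ := toR ℚ (xx ^ κ) * Fs (2 * κ + 1)

/-- the row `t^e h` -/
def hr (κ e : ℕ) : PowerSeries ℚ := toR ℚ (tt ^ e) * hh κ

/-- the functional `lam` is unipotent at `l` and vanishes on `t^e`, `e ≤ D` -/
structure Fnl {F : Type} [Field F] [Algebra ℚ F] (D l : ℕ) (lam : PowerSeries ℚ →ₗ[ℚ] F) :
    Prop where
  uni : ∀ R : PowerSeries ℚ, (∀ k < l, coeff k R = 0) → lam R = algebraMap ℚ F (coeff l R)
  kil : ∀ e ≤ D, lam (toR ℚ (tt ^ e)) = 0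

/-- `D` is a normal index: no nonzero `P₀(t) + P₁(t) h` with `deg ≤ D` vanishes to order `2D + 2` -/
def Nor (κ D : ℕ) : Prop :=
  ∀ P₀ P₁ : Polynomial ℚ, P₀.natDegree ≤ D → P₁.natDegree ≤ D →
    (∀ k < 2 * D + 2, coeff k (Polynomial.aeval (toR ℚ tt) P₀ +
      Polynomial.aeval (toR ℚ tt) P₁ * hh κ) = 0) → P₀ = 0 ∧ P₁ = 0

/-- `δ` is the determinant of the values of the rows `t^e h` at the columns `D+1, ..., 2D+1` -/
structure Han (κ D : ℕ) (δ : ℚ) : Prop where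
  ne : δ ≠ 0
  det : ∀ (F : Type) [Field F] [Algebra ℚ F] (lam : Fin (D + 1) → (PowerSeries ℚ →ₗ[ℚ] F)),
    (∀ k : Fin (D + 1), Fnl D (D + 1 + k) (lam k)) →
    (Matrix.of fun e k : Fin (D + 1) => lam k (hr κ e)).det = algebraMap ℚ F δ

/-- number of `s ∈ {1,...,S}` with `s (p + 12) ≤ 12 y` -/
def rr (S p y : ℕ) : ℕ := ((Icc 1 S).filter (fun s => s * (p + 12) ≤ 12 * y)).card

/-- bad primes: `p` is prime, large, and `VV p (-2κ)` of level `2S` vanishes modulo `p^(2S)` -/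
def Bdp (S κ p : ℕ) : Prop :=
  4 ^ κ + 2 * κ + 14 ≤ p ∧ ∃ h : p.Prime, haveI := Fact.mk h;
    ‖VV p (-(2 * κ : ℤ)) (2 * S)‖ ≤ (p : ℝ) ^ (-((2 * S : ℕ) : ℤ))

/-- the other natural numbers -/
def Gd (S κ : ℕ) : Set ℕ := {p | ¬ Bdp S κ p}

/-- `2 ∑_{s ≤ S} max (0, min (p, 2D) - D - s p/12)` -/
def vv (S : ℕ) (D p : ℝ) : ℝ := 2 * ∑ s ∈ Icc (1 : ℕ) S, max 0 (min p (2 * D) - D - s * p / 12)

open Classical in
/-- `∑ log p vv(D, p)` over the primes `p ≤ 12 D` in `G` -/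
def sg (G : Set ℕ) (S D : ℕ) : ℝ :=
  ∑ p ∈ (Icc 1 (12 * D)).filter (fun p => p.Prime ∧ p ∈ G), Real.log p * vv S D p

/-- the main constant (`cc 3 1 = 3.05..`, `cc 4 1 = 3.55..`, `cc 5 2 = 0.66..`) -/
def cc (S κ : ℕ) : ℝ := V.gain S 12 2 - 3 / 2 * (2 * κ + 1) - Real.log 433

/-! ## the archimedean side -/

/-- `Δ/q` -/
def dl1 : PowerSeries ℤ := PowerSeries.mk fun n => coeff (n + 1) dl

/-- `q/Δ` -/
def dq : PowerSeries ℤ := invOfUnit dl1 1

/-- `q j = q/t` -/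
def jq : PowerSeries ℤ := e4 ^ 3 * dq

/-- the coefficient of `t^m` in `h` -/
def mu (κ m : ℕ) : ℚ := coeff m (toR ℚ (xx ^ (κ + 1) * jq ^ m) * Fs (2 * κ + 1))

/-- evaluation of a real power series at a complex number -/
def ev (A : PowerSeries ℝ) (z : ℂ) : ℂ := ∑' n : ℕ, ((coeff n A : ℝ) : ℂ) * z ^ n

/-- `q = e^(2πiτ)` on the arc `τ = e^(iθ)` -/
def qq (θ : ℝ) : ℂ := Complex.exp (2 * Real.pi * Complex.I * Complex.exp (Complex.I * θ))

end Pool.Agent.Work.MP_b73316_nt.Q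

end
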