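import Pool.Agent.Work.MP_b73316_nt.Q.Defs
import Pool.Agent.Work.MP_b73316_nt.DetP

/-!
Module DetC (size S-M): Leibniz bound with a gain depending on the row.

PROOF.  As in `DetP.lean` (`det_padic`): `det a = ∑ σ, sign σ ∏ j, a (σ j) j`, the norm of a product is
`≤ p ^ (∑_j c j - ∑_{j ∈ U} r (n - 1 - σ j))` and it is enough that
`∑_{y < |U|} r y ≤ ∑_{j ∈ U} r (n - 1 - σ j)`.  The numbers `n - 1 - σ j`, `j ∈ U`, are distinct
(`σ j < n`).  Lemma: for `r` monotone and a finite set `A ⊆ ℕ`, `∑_{y < |A|} r y ≤ ∑_{y ∈ A} r y`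
(induction on the cardinality: the maximum `m` of `A` satisfies `m ≥ |A| - 1`, remove it; or
`Finset.sum_range_le_sum`-like lemmas, or order embedding `A.orderEmbOfFin` with
`i ≤ A.orderEmbOfFin i`).
-/

set_option autoImplicit false

open Finset

namespace Pool.Agent.Work.MP_b73316_nt.Q

private theorem prod_zpow_sumC {ι : Type*} (x : ℝ) (hx : x ≠ 0) (s : Finset ι) (f : ι → ℤ) :
    ∏ i ∈ s, x ^ (f i) = x ^ (∑ i ∈ s, f i) := by
  classical
  induction s using Finset.induction_on with
  | empty => simp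
  | insert a s ha ih => rw [Finset.prod_insert ha, Finset.sum_insert ha, zpow_add₀ hx, ih]

private theorem sum_range_le_aux {r : ℕ → ℕ} (hr : Monotone r) :
    ∀ (m : ℕ) (A : Finset ℕ), A.card = m → ∑ y ∈ range m, r y ≤ ∑ y ∈ A, r y := by
  intro m
  induction m with
  | zero => intro A _; simp
  | succ m ih =>
    intro A hA
    have hne : A.Nonempty := by
      rw [← Finset.card_pos, hA]
      exact Nat.succ_pos m
    have hM := A.max'_mem hne
    have h1 : (A.erase (A.max' hne)).card = m := by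
      rw [Finset.card_erase_of_mem hM, hA]
      rfl
    have h2 := ih _ h1
    have h3 : m ≤ A.max' hne := by
      have h4 : A ⊆ range (A.max' hne + 1) := fun x hx =>
        mem_range.2 (Nat.lt_succ_of_le (A.le_max' x hx))
      have h5 := Finset.card_le_card h4
      rw [card_range, hA] at h5
      omega
    rw [sum_range_succ, ← Finset.sum_erase_add _ _ hM]
    exact Nat.add_le_add h2 (hr h3)

theorem detC (p : ℕ) [Fact p.Prime] {n : ℕ} (a : Matrix (Fin n) (Fin n) ℚ_[p]) (c : Fin n → ℤ)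
    (U : Finset (Fin n)) (r : ℕ → ℕ) (hr : Monotone r)
    (h : ∀ i j, ‖a i j‖ ≤ (p : ℝ) ^ (c j - if j ∈ U then (r (n - 1 - i) : ℤ) else 0)) :
    ‖a.det‖ ≤ (p : ℝ) ^ (∑ j, c j - ∑ y ∈ range U.card, (r y : ℤ)) := by
  have hp1 : (1 : ℝ) < p := by exact_mod_cast (Fact.out : p.Prime).one_lt
  have hp0 : (0 : ℝ) < p := by linarith
  rw [Matrix.det_apply]
  apply IsUltrametricDist.norm_sum_le_of_forall_le_of_nonneg (zpow_nonneg hp0.le _)
  intro σ _
  have h1 : ‖Equiv.Perm.sign σ • ∏ i, a (σ i) i‖ = ∏ i, ‖a (σ i) i‖ := by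
    rw [Units.smul_def, zsmul_eq_mul, norm_mul, norm_prod]
    rcases Int.units_eq_one_or (Equiv.Perm.sign σ) with h | h <;> simp [h]
  rw [h1]
  calc ∏ i, ‖a (σ i) i‖ ≤ ∏ i, (p : ℝ) ^ (c i -
          if i ∈ U then (r (n - 1 - (σ i : ℕ)) : ℤ) else 0) :=
        Finset.prod_le_prod (fun _ _ => norm_nonneg _) (fun i _ => h _ _)
    _ = (p:ℝ) ^ (∑ i, (c i - if i ∈ U then (r (n - 1 - (σ i : ℕ)) : ℤ) else 0)) :=
        prod_zpow_sumC _ hp0.ne' _ _
    _ ≤ _ := by
        apply zpow_le_zpow_right₀ hp1.le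
        rw [Finset.sum_sub_distrib]
        apply sub_le_sub_left
        rw [← Finset.sum_filter]
        have h2 : (Finset.univ.filter (fun i => i ∈ U)) = U := by ext; simp
        rw [h2]
        have hinj : Set.InjOn (fun j : Fin n => n - 1 - (σ j : ℕ)) (U : Set (Fin n)) := by
          intro x _ y _ hxy
          have hx := (σ x).isLt
          have hy := (σ y).isLt
          have h3 : (σ x : ℕ) = (σ y : ℕ) := by
            simp only at hxy
            omega
          exact σ.injective (Fin.ext h3)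
        have h4 := sum_range_le_aux hr _ (U.image fun j : Fin n => n - 1 - (σ j : ℕ)) rfl
        rw [Finset.card_image_of_injOn hinj, Finset.sum_image hinj] at h4
        exact_mod_cast h4

end Pool.Agent.Work.MP_b73316_nt.Q
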