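import Pool.Agent.Work.MP_b73316_nt.Q.Defs
import Pool.Agent.Work.MP_b73316_nt.Tri
import Pool.Agent.Work.MP_b73316_nt.PolyB
import Pool.Agent.Work.MP_b73316_nt.Ser

/-!
Module GauC (size S-M): the `p`-adic functionals.

PROOF.  As in `V/GauA.lean` (its private lemmas can be copied): `T = toR ℤ_[p] tt`, `fi` the inverse of
`f(T)` (constant coefficient `1`), `g l = T^l * fi^(aa E d l)` satisfies the hypotheses of `tri`; take
its functionals `lam`.
(1) is part 1 of `tri`.  (2) is part 2 of `tri`.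
(3) For `e ≤ E`, `aa E d e = 0`, so `g e = T^e`, and the image of `T^e` in `ℚ_[p]⟦q⟧` is
`toR ℚ_[p] (tt^e)`.  Part 3 of `tri` with `L = e`, `c k = if k = e then 1 else 0` gives
`‖lam l (toR ℚ_[p] (tt^e))‖ ≤ p^(-a)` for every `a : ℕ`, so it is `0`.
(4) Multiply `hP` by `fi^s`: in degrees `< p`, modulo `p^a`: `R ≡ P(T) fi^s = ∑_{k ≤ E + s d} c_k g_k`
(`polyB`, `deg P ≤ E + s d`).  Part 3 of `tri` with `L = E + s d < l` gives the claim.  (As in
`gaugeA`, where `a = s = w`.)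
-/

set_option autoImplicit false

open PowerSeries Finset MP0f16e1

namespace Pool.Agent.Work.MP_b73316_nt.Q

private theorem ga_coeff_mul {R : Type} [CommRing R] (A B : PowerSeries R) (l k : ℕ)
    (hA : ∀ i < l, coeff i A = 0) (hk : k ≤ l) :
    coeff k (A * B) = if k = l then coeff l A * coeff 0 B else 0 := by
  obtain ⟨c, hc⟩ := X_pow_dvd_iff.mpr hA
  rw [hc, mul_assoc]
  rw [coeff_X_pow_mul', coeff_X_pow_mul']
  split_ifs with h1 h2 h3 h4 h5
  · rw [h2, Nat.sub_self, coeff_zero_eq_constantCoeff_apply, coeff_zero_eq_constantCoeff_apply,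
      coeff_zero_eq_constantCoeff_apply, map_mul]
  all_goals first | rfl | omega

private theorem ga_const (p : ℕ) [Fact p.Prime] (f : Polynomial ℤ_[p]) (T : PowerSeries ℤ_[p])
    (hT : constantCoeff T = 0) :
    constantCoeff (Polynomial.aeval T f) = f.coeff 0 := by
  rw [Polynomial.aeval_def, Polynomial.hom_eval₂, hT]
  rw [Polynomial.eval₂_at_zero]
  rfl

private theorem ga_dvd {R : Type} [CommRing R] (A B : PowerSeries R) (x : R) (N : ℕ)
    (h : ∀ n < N, x ∣ coeff n A) : ∀ n < N, x ∣ coeff n (B * A) := by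
  intro n hn
  rw [coeff_mul]
  refine dvd_sum fun ij hij => ?_
  rw [HasAntidiagonal.mem_antidiagonal] at hij
  exact Dvd.dvd.mul_left (h ij.2 (by omega)) _

theorem gaugeC (p d E : ℕ) [Fact p.Prime] (hd : 1 ≤ d) (f : Polynomial ℤ_[p])
    (hf0 : f.coeff 0 = 1) (hfd : f.natDegree ≤ d) :
    ∃ lam : ℕ → (PowerSeries ℚ_[p] →ₗ[ℚ_[p]] ℚ_[p]),
      (∀ l R, (∀ k < l, coeff k R = 0) → lam l R = coeff l R) ∧
      (∀ (l : ℕ) (z : ℤ) (R : PowerSeries ℚ_[p]), (∀ n ≤ l, ‖coeff n R‖ ≤ (p : ℝ) ^ z) →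
        ‖lam l R‖ ≤ (p : ℝ) ^ z) ∧
      (∀ l e : ℕ, e ≤ E → e < l → lam l (toR ℚ_[p] (tt ^ e)) = 0) ∧
      ∀ (s a l : ℕ) (R : PowerSeries ℤ_[p]) (P : Polynomial ℤ_[p]), E + s * d < l → l < p →
        P.natDegree ≤ E + s * d →
        (∀ n < p, (p : ℤ_[p]) ^ a ∣ coeff n (Polynomial.aeval (toR ℤ_[p] tt) f ^ s * R -
          Polynomial.aeval (toR ℤ_[p] tt) P)) →
        ‖lam l (R.map (algebraMap ℤ_[p] ℚ_[p]))‖ ≤ (p : ℝ) ^ (-(a : ℤ)) := by
  set T : PowerSeries ℤ_[p] := toR ℤ_[p] tt with hT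
  have hTc : ∀ l k, coeff k (T ^ l) = ((coeff k (tt ^ l) : ℤ) : ℤ_[p]) := by
    intro l k
    rw [hT]
    unfold toR
    rw [← map_pow, coeff_map]
    rfl
  have hT0 : constantCoeff T = 0 := by
    have h1 := hTc 1 0
    rw [tt_pow_coeff_lt (by norm_num : 0 < 1), pow_one, coeff_zero_eq_constantCoeff_apply] at h1
    rw [h1, Int.cast_zero]
  have hfc : constantCoeff (Polynomial.aeval T f) = 1 := by
    rw [ga_const p f T hT0, hf0]
  set fi : PowerSeries ℤ_[p] := invOfUnit (Polynomial.aeval T f) 1 with hfi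
  have hfi1 : fi * Polynomial.aeval T f = 1 := invOfUnit_mul _ _ (by rw [hfc, Units.val_one])
  have hfi0 : constantCoeff fi = 1 := by
    rw [hfi, constantCoeff_invOfUnit, inv_one, Units.val_one]
  have hfi0' : ∀ a : ℕ, coeff 0 (fi ^ a) = 1 := by
    intro a
    rw [coeff_zero_eq_constantCoeff_apply, map_pow, hfi0, one_pow]
  have hTlt : ∀ l, ∀ i < l, coeff i (T ^ l) = 0 := by
    intro l i hi
    rw [hTc, tt_pow_coeff_lt hi, Int.cast_zero]
  have hTself : ∀ l, coeff l (T ^ l) = 1 := by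
    intro l
    rw [hTc, tt_pow_coeff_self, Int.cast_one]
  obtain ⟨lam, hl1, hl2, hl3⟩ := tri p (fun l => T ^ l * fi ^ (aa E d l))
    (fun l k hk => by
      rw [ga_coeff_mul _ _ l k (hTlt l) hk.le, if_neg hk.ne])
    (fun l => by
      rw [ga_coeff_mul _ _ l l (hTlt l) le_rfl, if_pos rfl, hTself, hfi0', one_mul])
  refine ⟨lam, hl1, ?_, ?_, ?_⟩
  · intro l z R h
    have h1 := hl2 l (-z) R (fun n hn => by rw [neg_neg]; exact h n hn)
    rwa [neg_neg] at h1
  · intro l e he hel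
    have hp1 : (1 : ℝ) < p := by exact_mod_cast (Fact.out : p.Prime).one_lt
    have key : ∀ a : ℕ, ‖lam l (toR ℚ_[p] (tt ^ e))‖ ≤ (p : ℝ) ^ (-(a : ℤ)) := by
      intro a
      refine hl3 l e a _ (fun k => if k = e then 1 else 0) hel fun n _ => ?_
      have h1 : ∑ k ∈ range (e + 1), (if k = e then (1 : ℤ_[p]) else 0) •
          (T ^ k * fi ^ (aa E d k)) = T ^ e := by
        rw [sum_eq_single e]
        · rw [if_pos rfl, one_smul]
          have h2 : aa E d e = 0 := by simp [aa, he]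
          rw [h2, pow_zero, mul_one]
        · intro k _ hk
          rw [if_neg hk, zero_smul]
        · intro h
          exact absurd (mem_range.2 (Nat.lt_succ_self e)) h
      have h2 : coeff n (toR ℚ_[p] (tt ^ e)) = ((coeff n (tt ^ e) : ℤ) : ℚ_[p]) := by
        unfold toR
        rw [coeff_map]
        rfl
      have h3 : coeff n (∑ k ∈ range (e + 1), (fun k => if k = e then (1 : ℤ_[p]) else 0) k •
          (T ^ k * fi ^ (aa E d k))) = ((coeff n (tt ^ e) : ℤ) : ℤ_[p]) := by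
        rw [← hTc]
        exact congrArg _ h1
      rw [h2]
      erw [h3]
      rw [PadicInt.coe_intCast, sub_self, norm_zero]
      positivity
    have h0 : ‖lam l (toR ℚ_[p] (tt ^ e))‖ ≤ 0 := by
      have hlim : Filter.Tendsto (fun a : ℕ => (p : ℝ) ^ (-(a : ℤ))) Filter.atTop (nhds 0) := by
        have h1 : Filter.Tendsto (fun a : ℕ => ((p : ℝ)⁻¹) ^ a) Filter.atTop (nhds 0) :=
          tendsto_pow_atTop_nhds_zero_of_lt_one (by positivity) (inv_lt_one_of_one_lt₀ hp1)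
        refine h1.congr fun a => ?_
        rw [zpow_neg, zpow_natCast, inv_pow]
      exact ge_of_tendsto' hlim key
    exact norm_le_zero_iff.1 h0
  · intro s a l R P hL hl hP1 hP2
    obtain ⟨c, hc⟩ := polyB T fi f d E hd hf0 hfd hfi1 s P hP1
    refine hl3 l (E + s * d) a _ c hL fun n hn => ?_
    have h1 : R - ∑ k ∈ range (E + s * d + 1), c k • (T ^ k * fi ^ (aa E d k)) =
        fi ^ s * (Polynomial.aeval T f ^ s * R - Polynomial.aeval T P) := by
      rw [← hc, mul_sub, ← mul_assoc, ← mul_pow, hfi1, one_pow, one_mul, mul_comm (fi ^ s)]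
    have h2 := ga_dvd _ (fi ^ s) _ p hP2 n (by omega)
    rw [← h1, map_sub] at h2
    rw [coeff_map]
    have h3 : ‖coeff n R - coeff n (∑ k ∈ range (E + s * d + 1),
        c k • (T ^ k * fi ^ (aa E d k)))‖ ≤ (p : ℝ) ^ (-(a : ℤ)) := by
      rw [PadicInt.norm_le_pow_iff_mem_span_pow, Ideal.mem_span_singleton]
      exact h2
    have h4 : (algebraMap ℤ_[p] ℚ_[p]) (coeff n R) -
        ((coeff n (∑ k ∈ range (E + s * d + 1), c k • (T ^ k * fi ^ (aa E d k))) : ℤ_[p]) :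
          ℚ_[p]) = ((coeff n R - coeff n (∑ k ∈ range (E + s * d + 1),
        c k • (T ^ k * fi ^ (aa E d k))) : ℤ_[p]) : ℚ_[p]) := by
      rw [PadicInt.coe_sub]
      rfl
    rw [h4]
    exact h3

end Pool.Agent.Work.MP_b73316_nt.Q
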