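import Pool.Agent.Work.MP_b73316_nt.Q.Defs
import Pool.Agent.Work.MP_b73316_nt.Q.GauC
import Pool.Agent.Work.MP_b73316_nt.DetP
import Pool.Agent.Work.MP_b73316_nt.DenM

/-!
Module PadA (size S-M): the bound at all the primes.

PROOF.  `n = 2κ+1`.  Functionals: `gaugeC p 1 D` with `f = 1`; let `lam k R = lam' (D+1+k) (R mapped to
ℚ_[p]⟦q⟧)` (a `ℚ`-linear map; see the construction `m` in `V/GauB.lean`).  `Fnl D (D+1+k) (lam k)`:
parts (1) and (3) of `gaugeC` (`e ≤ D < D+1+k`).  The coefficients of `hr κ e` up to `q^l` have norm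
`≤ p^(n log_p l)`: the coefficients of `toR ℚ (tt^e xx^κ)` are integers, those of `Fs n` at `q^m`,
`m ≤ l`, are sums of `d^(-n)`, `d ≤ l` (as in `DenM.lean`: `row_den`; for instance `hr κ e =
row (fun i => κ * i) (max e 1) (..)`, or copy the proof).  So `‖lam k (hr κ e)‖ ≤ p^(n log_p l)`,
`l = D+1+k`, by part (2) (`Nat.log_mono_right`).  `Han.det` and `det_padic` with `b = n` constant,
`v k = Nat.log p (D+1+k)`, `w = 0`; `∑ k : Fin (D+1), f (D+1+k) = ∑ l ∈ Icc (D+1) (2D+1), f l`.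
-/

set_option autoImplicit false

open PowerSeries Finset MP0f16e1

namespace Pool.Agent.Work.MP_b73316_nt.Q

private theorem pada_nrm_inv {p : ℕ} [Fact p.Prime] {d l b : ℕ} (hd : d ≠ 0) (hdl : d ≤ l) :
    ‖(((d : ℚ_[p]) ^ b)⁻¹ : ℚ_[p])‖ ≤ (p : ℝ) ^ (b * Nat.log p l) := by
  have hp : (1 : ℝ) ≤ p := by exact_mod_cast (Fact.out : p.Prime).one_lt.le
  have h0 : ‖((d : ℕ) : ℚ_[p])‖ = (p : ℝ) ^ (-(padicValNat p d : ℤ)) := by
    rw [Padic.norm_eq_zpow_neg_valuation (by exact_mod_cast hd), Padic.valuation_natCast]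
  rw [norm_inv, norm_pow, h0, zpow_neg, inv_pow, inv_inv, zpow_natCast, ← pow_mul,
    mul_comm]
  refine pow_le_pow_right₀ hp (Nat.mul_le_mul_left _ ?_)
  exact (padicValNat_le_nat_log d).trans (Nat.log_mono_right hdl)

private theorem pada_Fs_den (b n l p : ℕ) [Fact p.Prime] (hn : n ≤ l) :
    ‖((coeff n (Fs b) : ℚ) : ℚ_[p])‖ ≤ (p : ℝ) ^ (b * Nat.log p l) := by
  unfold Fs
  rw [coeff_mk, Rat.cast_sum]
  refine IsUltrametricDist.norm_sum_le_of_forall_le_of_nonneg (by positivity) ?_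
  intro d hd
  have hdvd := Nat.dvd_of_mem_divisors hd
  have hn0 : n ≠ 0 := (Nat.mem_divisors.1 hd).2
  have hd0 : d ≠ 0 := fun h => hn0 (Nat.eq_zero_of_zero_dvd (h ▸ hdvd))
  have hdl : d ≤ l := (Nat.le_of_dvd (Nat.pos_of_ne_zero hn0) hdvd).trans hn
  have := pada_nrm_inv (p := p) (b := b) hd0 hdl
  push_cast
  exact this

theorem hr_den (κ e n l p : ℕ) [Fact p.Prime] (hn : n ≤ l) :
    ‖((coeff n (hr κ e) : ℚ) : ℚ_[p])‖ ≤ (p : ℝ) ^ ((2 * κ + 1) * Nat.log p l) := by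
  have h0 : hr κ e = toR ℚ (tt ^ e * xx ^ κ) * Fs (2 * κ + 1) := by
    unfold hr hh toR
    rw [map_mul, mul_assoc]
  rw [h0, coeff_mul, Rat.cast_sum]
  refine IsUltrametricDist.norm_sum_le_of_forall_le_of_nonneg (by positivity) ?_
  intro x hx
  rw [HasAntidiagonal.mem_antidiagonal] at hx
  rw [Rat.cast_mul, norm_mul]
  have h1 : ‖((coeff x.1 (toR ℚ (tt ^ e * xx ^ κ)) : ℚ) : ℚ_[p])‖ ≤ 1 := by
    unfold toR
    rw [coeff_map]
    have := Padic.norm_int_le_one (p := p) (coeff x.1 (tt ^ e * xx ^ κ))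
    simpa using this
  have h2 := pada_Fs_den (2 * κ + 1) x.2 l p (by omega)
  calc _ ≤ 1 * (p : ℝ) ^ ((2 * κ + 1) * Nat.log p l) :=
        mul_le_mul h1 h2 (norm_nonneg _) zero_le_one
    _ = _ := one_mul _

theorem padic_allC (κ D : ℕ) (δ : ℚ) (h : Han κ D δ) (p : ℕ) [Fact p.Prime] :
    ‖(δ : ℚ_[p])‖ ≤ (p : ℝ) ^ (∑ l ∈ Icc (D + 1) (2 * D + 1),
      (((2 * κ + 1) * Nat.log p l : ℕ) : ℤ)) := by
  obtain ⟨lam', h1, h2, h3, -⟩ := gaugeC p 1 D le_rfl 1 (by simp) (by simp)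
  let m : PowerSeries ℚ →ₗ[ℚ] PowerSeries ℚ_[p] :=
    (PowerSeries.mapAlgHom (Algebra.ofId ℚ ℚ_[p])).toLinearMap
  have hm : ∀ (R : PowerSeries ℚ) (k : ℕ), coeff k (m R) = ((coeff k R : ℚ) : ℚ_[p]) := by
    intro R k
    change coeff k (PowerSeries.map (algebraMap ℚ ℚ_[p]) R) = _
    rw [coeff_map]
    rfl
  have hdet := h.det ℚ_[p]
    (fun k : Fin (D + 1) => ((lam' (D + 1 + k)).restrictScalars ℚ).comp m) (by
      intro k
      refine ⟨?_, ?_⟩
      · intro R hR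
        change lam' (D + 1 + k) (m R) = _
        rw [h1 _ _ (fun j hj => by rw [hm, hR j hj, Rat.cast_zero]), hm]
        rfl
      · intro e he
        change lam' (D + 1 + k) (m (toR ℚ (tt ^ e))) = 0
        have h4 : m (toR ℚ (tt ^ e)) = toR ℚ_[p] (tt ^ e) := by
          ext j
          rw [hm]
          unfold toR
          rw [coeff_map, coeff_map]
          simp
        rw [h4]
        exact h3 _ e he (by omega))
  have hδ : (δ : ℚ_[p]) = algebraMap ℚ ℚ_[p] δ := rfl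
  rw [hδ, ← hdet]
  have h5 := det_padic p (Matrix.of fun e k : Fin (D + 1) =>
      (((lam' (D + 1 + k)).restrictScalars ℚ).comp m) (hr κ e)) (fun _ => 2 * κ + 1)
      (fun k => Nat.log p (D + 1 + k)) (fun _ => 0) monotone_const
      (fun a b hab => Nat.log_mono_right (by
        have : (a : ℕ) ≤ b := hab
        omega)) (by
      intro e k
      rw [Matrix.of_apply]
      change ‖lam' (D + 1 + k) (m (hr κ e))‖ ≤ _
      have h6 := h2 (D + 1 + k) (((2 * κ + 1) * Nat.log p (D + 1 + k) : ℕ) : ℤ) (m (hr κ e))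
        (fun n hn => by
          rw [hm, zpow_natCast]
          exact hr_den κ e n _ p hn)
      refine h6.trans_eq ?_
      push_cast
      rw [sub_zero])
  refine h5.trans_eq ?_
  congr 1
  have h7 : ∑ l ∈ Icc (D + 1) (2 * D + 1), (((2 * κ + 1) * Nat.log p l : ℕ) : ℤ) =
      ∑ k ∈ range (D + 1), (((2 * κ + 1) * Nat.log p (D + 1 + k) : ℕ) : ℤ) := by
    rw [← Finset.Ico_succ_right_eq_Icc, Finset.sum_Ico_eq_sum_range]
    congr 1
    congr 1
    simp only [Order.succ_eq_add_one]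
    omega
  rw [h7, ← Fin.sum_univ_eq_sum_range
    (fun k => (((2 * κ + 1) * Nat.log p (D + 1 + k) : ℕ) : ℤ)) (D + 1)]
  simp

end Pool.Agent.Work.MP_b73316_nt.Q
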