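import Pool.Agent.Work.MP_b73316_nt.Q.Defs
import Pool.Agent.Work.MP_b73316_nt.Q.GauC
import Pool.Agent.Work.MP_b73316_nt.Q.PadA
import Pool.Agent.Work.MP_b73316_nt.V.Str1
import Pool.Agent.Work.MP_b73316_nt.Ep
import Pool.Agent.Work.MP_b73316_nt.Lim3
import Pool.Agent.Work.MP_b73316_nt.DenM

/-!
Module RowC (size M): functionals and changed rows for a bad prime.  THE NEW IDEA.

PROOF.  `n = 2κ+1`, `E₀ = D + κ + 22`.  As in `V/GauB.lean` (`gaugeB`; copy its private lemmas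
`GauB_dvd`, `GauB_F`, `van_VS`, `hloc`, the map `m`): `ep` gives `E`, `fpoly` gives `f`, `d = dd p`
(`dd_bound`: `1 ≤ d`, `12 d ≤ p + 5`), functionals `lam'` of `gaugeC p d E₀`, `lam l R = lam' l (m R)`
FOR ALL `l` (also `l ≥ p`).  `Fnl D l (lam l)` for `l > D`: parts (1), (3) of `gaugeC`
(`e ≤ D ≤ E₀`, `e < l`).
For `e ≤ D` put `r = rr S p (D - e)`.  If `r ≥ 1` then `r (p + 12) ≤ 12 (D - e)` (the set in `rr` is an
initial segment of `{1..S}`, see `ga_ww` in `V/GauA.lean`), so `e + r d ≤ D` (also for `r = 0`), `r ≤ S`.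
The polynomial `g_e = f^r X^e ∈ ℤ_p[X]` has degree `≤ D`, coefficients `0` below `X^e` and `1` at `X^e`.
`U e e' = g_e.coeff e'`, `e, e' ≤ D`: upper unitriangular, `det U = 1`
(`Matrix.det_of_upperTriangular`; in recent Mathlib `Matrix.det_of_isUpperTriangular`, see `PivB.lean`).
Entries: `∑_{e'} U e e' lam l (hr κ e') = lam' l (∑_{e'} U e e' m(hr κ e'))`.
* `l ≥ p`: all the `‖U e e'‖ ≤ 1`, `‖lam l (hr κ e')‖ ≤ p^(n log_p l)` by part (2) and `hr_den`.
* `l < p`: `log_p l = 0`.  With `F`, `IsF p n F` (`GauB_F`) let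
  `R = g_e(T) * toR ℤ_[p] (xx^κ) * F ∈ ℤ_p⟦q⟧`, `T = toR ℤ_[p] tt`; its coefficients below `q^p` are those
  of `∑_{e'} U e e' m(hr κ e')`, so the entry is `lam' l (R mapped)` (`hloc`).
  - `l ≤ E₀`: the bound is `‖.‖ ≤ 1` (`ww S (D+κ+23) p l = 0` as `12 (D+κ+23) > 12 l`): part (2).
  - `l > E₀`: `w = ww S (D+κ+23) p l`; if `w ≥ 1` then `w (p+12) + 12 (D+κ+23) < 12 l` (`ga_ww`), so
    `E₀ + w d < l` in all cases, `w ≤ S`, `w + r ≤ 2S ≤ 11`.  `V.str1 p κ (w+r)` gives `P` of degree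
    `≤ (w+r) d + κ + 22` with `f(T)^(w+r) x^κ F ≡ P(T)` modulo `(p^(w+r), q^p)`.  Multiply by `T^e`:
    `f(T)^w R = T^e f(T)^(w+r) x^κ F ≡ (X^e P)(T)`, degree `≤ e + r d + w d + κ + 22 ≤ E₀ + w d`.
    Part (4) of `gaugeC` with `s = w`, `a = w + r`: norm `≤ p^(-(w+r))`.
-/

set_option autoImplicit false

open PowerSeries Finset Filter MP0f16e1

namespace Pool.Agent.Work.MP_b73316_nt.Q

private theorem rc_dvd {R : Type} [CommRing R] (A B : PowerSeries R) (x : R) (N : ℕ)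
    (h : ∀ n < N, x ∣ coeff n A) : ∀ n < N, x ∣ coeff n (B * A) := by
  intro n hn
  rw [coeff_mul]
  refine dvd_sum fun ij hij => ?_
  rw [HasAntidiagonal.mem_antidiagonal] at hij
  exact Dvd.dvd.mul_left (h ij.2 (by omega)) _

private theorem rc_toR_mul (R : Type) [CommRing R] (a b : PowerSeries ℤ) :
    toR R (a * b) = toR R a * toR R b := by
  unfold toR
  exact map_mul _ _ _

private theorem rc_toR_pow (R : Type) [CommRing R] (a : PowerSeries ℤ) (n : ℕ) :
    toR R (a ^ n) = toR R a ^ n := by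
  unfold toR
  exact map_pow _ _ _

private theorem rc_F (p b : ℕ) [Fact p.Prime] : ∃ F : PowerSeries ℤ_[p], IsF p b F := by
  have h : ∀ n, ∃ x : ℤ_[p], n < p → (x : ℚ_[p]) = ((coeff n (Fs b) : ℚ) : ℚ_[p]) := by
    intro n
    by_cases hn : n < p
    · have h1 : ‖((coeff n (Fs b) : ℚ) : ℚ_[p])‖ ≤ 1 := by
        have h2 : ((coeff n (Fs b) : ℚ) : ℚ_[p]) = ∑ d ∈ n.divisors, ((d : ℚ_[p]) ^ b)⁻¹ := by
          simp [Fs]
        rw [h2]
        refine IsUltrametricDist.norm_sum_le_of_forall_le_of_nonneg zero_le_one fun d hd => ?_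
        have hd1 := Nat.mem_divisors.1 hd
        have hd2 : d ≤ n := Nat.le_of_dvd (Nat.pos_of_ne_zero hd1.2) hd1.1
        have hd3 : 0 < d := Nat.pos_of_mem_divisors hd
        have hd4 : p.Coprime d := by
          rw [Nat.Prime.coprime_iff_not_dvd Fact.out]
          intro h3
          exact absurd (Nat.le_of_dvd hd3 h3) (by omega)
        rw [norm_inv, norm_pow, Padic.norm_natCast_eq_one_iff.2 hd4, one_pow, inv_one]
      exact ⟨⟨_, h1⟩, fun _ => rfl⟩
    · exact ⟨0, fun h => absurd h hn⟩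
  choose x hx using h
  exact ⟨PowerSeries.mk x, fun n hn => by rw [coeff_mk]; exact hx n hn⟩

private theorem rc_van (p : ℕ) [Fact p.Prime] (hp : p ≠ 2) (κ S s : ℕ) (h1 : 1 ≤ s) (hs : s ≤ S)
    (h : ‖VV p (-(2 * κ : ℤ)) S‖ ≤ (p : ℝ) ^ (-(S : ℤ))) :
    ‖VV p (-(2 * κ : ℤ)) s‖ ≤ (p : ℝ) ^ (-(s : ℤ)) := by
  obtain ⟨μ, hμ⟩ := mu_exists p hp (-(2 * κ : ℤ)) ⟨-κ, by ring⟩
  have hp1 : (1 : ℝ) < p := by exact_mod_cast (Fact.out : p.Prime).one_lt
  have h2 := (hμ S (h1.trans hs)).1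
  have h3 : ‖μ‖ ≤ (p : ℝ) ^ (-(S : ℤ)) := by
    have e : μ = VV p (-(2 * κ : ℤ)) S - (VV p (-(2 * κ : ℤ)) S - μ) := by ring
    rw [e, sub_eq_add_neg]
    refine (Padic.nonarchimedean _ _).trans (max_le h ?_)
    rw [norm_neg]
    exact h2
  have h4 : (p : ℝ) ^ (-(S : ℤ)) ≤ (p : ℝ) ^ (-(s : ℤ)) :=
    zpow_le_zpow_right₀ hp1.le (by omega)
  have e : VV p (-(2 * κ : ℤ)) s = (VV p (-(2 * κ : ℤ)) s - μ) + μ := by ring
  rw [e]
  exact (Padic.nonarchimedean _ _).trans (max_le (hμ s h1).1 (h3.trans h4))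

private theorem rc_ww (S E p l : ℕ) :
    V.ww S E p l ≤ S ∧ (V.ww S E p l ≠ 0 → V.ww S E p l * (p + 12) + 12 * E < 12 * l) := by
  have h1 : V.ww S E p l ≤ S := by
    unfold V.ww
    exact (card_filter_le _ _).trans (by simp)
  refine ⟨h1, fun hw => ?_⟩
  by_contra hcon
  push Not at hcon
  have h2 : ((Icc 1 S).filter (fun s => s * (p + 12) + 12 * E < 12 * l)) ⊆
      Icc 1 (V.ww S E p l - 1) := by
    intro s hs
    rw [mem_filter, mem_Icc] at hs
    rw [mem_Icc]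
    refine ⟨hs.1.1, ?_⟩
    by_contra h3
    have h4 : V.ww S E p l ≤ s := by omega
    have h5 := Nat.mul_le_mul_right (p + 12) h4
    omega
  have h3 := card_le_card h2
  rw [Nat.card_Icc] at h3
  have h4 : ((Icc 1 S).filter (fun s => s * (p + 12) + 12 * E < 12 * l)).card =
    V.ww S E p l := rfl
  omega

private theorem rc_rr (S p y : ℕ) : rr S p y ≤ S ∧ rr S p y * (p + 12) ≤ 12 * y := by
  have h1 : rr S p y ≤ S := by
    unfold rr
    exact (card_filter_le _ _).trans (by simp)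
  refine ⟨h1, ?_⟩
  by_contra hcon
  push Not at hcon
  have hw : rr S p y ≠ 0 := by
    intro h
    rw [h] at hcon
    omega
  have h2 : ((Icc 1 S).filter (fun s => s * (p + 12) ≤ 12 * y)) ⊆ Icc 1 (rr S p y - 1) := by
    intro s hs
    rw [mem_filter, mem_Icc] at hs
    rw [mem_Icc]
    refine ⟨hs.1.1, ?_⟩
    by_contra h3
    have h4 : rr S p y ≤ s := by omega
    have h5 := Nat.mul_le_mul_right (p + 12) h4
    omega
  have h3 := card_le_card h2
  rw [Nat.card_Icc] at h3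
  have h4 : ((Icc 1 S).filter (fun s => s * (p + 12) ≤ 12 * y)).card = rr S p y := rfl
  omega

/-- The coefficients of a row below `q^p`. -/
private theorem rc_coeff (p κ : ℕ) [Fact p.Prime] (F : PowerSeries ℤ_[p])
    (hF : IsF p (2 * κ + 1) F) (e n : ℕ) (hn : n < p) :
    ((coeff n (toR ℤ_[p] tt ^ e * (toR ℤ_[p] (xx ^ κ) * F)) : ℤ_[p]) : ℚ_[p]) =
      ((coeff n (hr κ e) : ℚ) : ℚ_[p]) := by
  have h3 : hr κ e = toR ℚ (tt ^ e * xx ^ κ) * Fs (2 * κ + 1) := by
    unfold hr hh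
    rw [rc_toR_mul, mul_assoc]
  have h4 : toR ℤ_[p] tt ^ e * (toR ℤ_[p] (xx ^ κ) * F) =
      toR ℤ_[p] (tt ^ e * xx ^ κ) * F := by
    rw [rc_toR_mul, rc_toR_pow ℤ_[p] tt, mul_assoc]
  rw [h3, h4, coeff_mul, coeff_mul, PadicInt.coe_sum, Rat.cast_sum]
  refine Finset.sum_congr rfl fun ij hij => ?_
  rw [HasAntidiagonal.mem_antidiagonal] at hij
  rw [PadicInt.coe_mul, Rat.cast_mul, hF ij.2 (by omega)]
  congr 1

theorem rowsC (S : ℕ) (hS : 2 * S ≤ 11) (κ D : ℕ) (hκ : 1 ≤ κ) (p : ℕ) [Fact p.Prime]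
    (hp : 4 ^ κ + 2 * κ + 14 ≤ p)
    (hv : ‖VV p (-(2 * κ : ℤ)) (2 * S)‖ ≤ (p : ℝ) ^ (-((2 * S : ℕ) : ℤ))) :
    ∃ (lam : ℕ → (PowerSeries ℚ →ₗ[ℚ] ℚ_[p])) (U : Matrix (Fin (D + 1)) (Fin (D + 1)) ℚ_[p]),
      (∀ l, D < l → Fnl D l (lam l)) ∧ U.det = 1 ∧
      ∀ (l : ℕ) (e : Fin (D + 1)), D < l → ‖∑ e', U e e' * lam l (hr κ e')‖ ≤
        (p : ℝ) ^ ((((2 * κ + 1) * Nat.log p l : ℕ) : ℤ) -
          ((if l < p then V.ww S (D + κ + 23) p l else 0 : ℕ) : ℤ) -
          ((if D + κ + 22 < l ∧ l < p then rr S p (D - e) else 0 : ℕ) : ℤ)) := by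
  classical
  have hp13 : 13 ≤ p := by
    have : 1 ≤ 4 ^ κ := Nat.one_le_pow _ _ (by norm_num)
    omega
  obtain ⟨E, hEm, hE0, hE1⟩ := ep p (by omega)
  obtain ⟨f, hf0, hfd, hfE⟩ := fpoly p (by omega) E hEm hE0
  obtain ⟨hd1, hd2, -⟩ := dd_bound p hp13
  obtain ⟨lam', hg1, hg2, hg3, hg4⟩ := gaugeC p (dd p) (D + κ + 22) hd1 f hf0 hfd
  have hloc : ∀ (l : ℕ) (R₁ R₂ : PowerSeries ℚ_[p]), (∀ k ≤ l, coeff k R₁ = coeff k R₂) →
      lam' l R₁ = lam' l R₂ := by
    intro l R₁ R₂ h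
    have h1 : lam' l (R₁ - R₂) = coeff l (R₁ - R₂) :=
      hg1 l _ fun k hk => by rw [map_sub, h k hk.le, sub_self]
    rw [map_sub, map_sub, h l le_rfl, sub_self, sub_eq_zero] at h1
    exact h1
  let m : PowerSeries ℚ →ₗ[ℚ] PowerSeries ℚ_[p] :=
    (PowerSeries.mapAlgHom (Algebra.ofId ℚ ℚ_[p])).toLinearMap
  have hm : ∀ (R : PowerSeries ℚ) (k : ℕ), coeff k (m R) = ((coeff k R : ℚ) : ℚ_[p]) := by
    intro R k
    change coeff k (PowerSeries.map (algebraMap ℚ ℚ_[p]) R) = _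
    rw [coeff_map]
    rfl
  -- the polynomials of the changed rows
  obtain ⟨g, hg⟩ : ∃ g : ℕ → Polynomial ℤ_[p], ∀ e, g e =
      f ^ rr S p (D - e) * Polynomial.X ^ e := ⟨_, fun _ => rfl⟩
  have hdeg : ∀ e ≤ D, e + rr S p (D - e) * dd p ≤ D := by
    intro e he
    have h1 := (rc_rr S p (D - e)).2
    have h2 : rr S p (D - e) * (12 * dd p) ≤ rr S p (D - e) * (p + 12) :=
      Nat.mul_le_mul_left _ (by omega)
    have h3 : rr S p (D - e) * (12 * dd p) = 12 * (rr S p (D - e) * dd p) := by ring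
    omega
  have hgdeg : ∀ e ≤ D, (g e).natDegree < D + 1 := by
    intro e he
    rw [hg]
    have h4 : (f ^ rr S p (D - e)).natDegree ≤ rr S p (D - e) * dd p :=
      Polynomial.natDegree_pow_le.trans (Nat.mul_le_mul_left _ hfd)
    have h5 : (Polynomial.X ^ e : Polynomial ℤ_[p]).natDegree ≤ e :=
      Polynomial.natDegree_X_pow_le e
    have h6 := hdeg e he
    have h7 := Polynomial.natDegree_mul_le (p := f ^ rr S p (D - e)) (q := Polynomial.X ^ e)
    omega
  have hg0 : ∀ e e', e' < e → (g e).coeff e' = 0 := by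
    intro e e' h
    rw [hg, Polynomial.coeff_mul_X_pow', if_neg (by omega)]
  have hg1' : ∀ e, (g e).coeff e = 1 := by
    intro e
    rw [hg, Polynomial.coeff_mul_X_pow', if_pos le_rfl, Nat.sub_self,
      Polynomial.coeff_zero_eq_eval_zero, Polynomial.eval_pow,
      ← Polynomial.coeff_zero_eq_eval_zero, hf0, one_pow]
  refine ⟨fun l => ((lam' l).restrictScalars ℚ).comp m,
    Matrix.of fun e e' : Fin (D + 1) => (((g e).coeff e' : ℤ_[p]) : ℚ_[p]), ?_, ?_, ?_⟩
  · intro l hl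
    refine ⟨fun R hR => ?_, fun e he => ?_⟩
    · simp only [LinearMap.comp_apply, LinearMap.coe_restrictScalars]
      rw [hg1 l _ fun k hk => by rw [hm, hR k hk, Rat.cast_zero], hm]
      rfl
    · simp only [LinearMap.comp_apply, LinearMap.coe_restrictScalars]
      have h1 : m (toR ℚ (tt ^ e)) = toR ℚ_[p] (tt ^ e) := by
        ext k
        rw [hm]
        unfold toR
        rw [coeff_map, coeff_map]
        simp
      rw [h1]
      exact hg3 l e (by omega) (by omega)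
  · have htri : (Matrix.of fun e e' : Fin (D + 1) =>
        (((g e).coeff e' : ℤ_[p]) : ℚ_[p])).IsUpperTriangular := by
      intro i j hij
      rw [Matrix.of_apply, hg0 i j hij, PadicInt.coe_zero]
    rw [Matrix.det_of_isUpperTriangular htri]
    refine Finset.prod_eq_one fun i _ => ?_
    rw [Matrix.of_apply, hg1', PadicInt.coe_one]
  · intro l e hl
    have he : (e : ℕ) ≤ D := by
      have := e.2
      omega
    have hp1 : (1 : ℝ) ≤ p := by exact_mod_cast (Fact.out : p.Prime).one_lt.le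
    simp only [Matrix.of_apply, LinearMap.comp_apply, LinearMap.coe_restrictScalars]
    by_cases hlp : l < p
    · -- small columns
      obtain ⟨F, hF⟩ := rc_F p (2 * κ + 1)
      obtain ⟨R, hR⟩ : ∃ R : PowerSeries ℤ_[p], R =
          Polynomial.aeval (toR ℤ_[p] tt) (g e) * (toR ℤ_[p] (xx ^ κ) * F) := ⟨_, rfl⟩
      have hRsum : R = ∑ e' ∈ range (D + 1), (g e).coeff e' •
          (toR ℤ_[p] tt ^ e' * (toR ℤ_[p] (xx ^ κ) * F)) := by
        rw [hR, Polynomial.aeval_eq_sum_range' (hgdeg e he), Finset.sum_mul]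
        refine Finset.sum_congr rfl fun e' _ => ?_
        rw [smul_mul_assoc]
      have hentry : ∑ e' : Fin (D + 1), (((g e).coeff e' : ℤ_[p]) : ℚ_[p]) *
          lam' l (m (hr κ e')) = lam' l (R.map (algebraMap ℤ_[p] ℚ_[p])) := by
        have h1 : ∑ e' : Fin (D + 1), (((g e).coeff e' : ℤ_[p]) : ℚ_[p]) *
            lam' l (m (hr κ e')) = lam' l (∑ e' : Fin (D + 1),
              (((g e).coeff e' : ℤ_[p]) : ℚ_[p]) • m (hr κ e')) := by
          rw [map_sum]
          refine Finset.sum_congr rfl fun e' _ => ?_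
          rw [map_smul, smul_eq_mul]
        rw [h1]
        refine hloc l _ _ fun k hk => ?_
        rw [coeff_map, hRsum, map_sum, map_sum, map_sum]
        rw [← Fin.sum_univ_eq_sum_range (fun e' => (algebraMap ℤ_[p] ℚ_[p]) (coeff k
          ((g e).coeff e' • (toR ℤ_[p] tt ^ e' * (toR ℤ_[p] (xx ^ κ) * F))))) (D + 1)]
        refine Finset.sum_congr rfl fun e' _ => ?_
        rw [coeff_smul, coeff_smul, smul_eq_mul, smul_eq_mul, map_mul, hm,
          ← rc_coeff p κ F hF e' k (by omega)]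
        rfl
      rw [hentry]
      have hlog : Nat.log p l = 0 := Nat.log_of_lt hlp
      obtain ⟨hw1, hw2⟩ := rc_ww S (D + κ + 23) p l
      by_cases hlE : D + κ + 22 < l
      · rw [if_pos hlp, if_pos ⟨hlE, hlp⟩, hlog]
        obtain ⟨w, hw⟩ : ∃ w, w = V.ww S (D + κ + 23) p l := ⟨_, rfl⟩
        obtain ⟨r, hr'⟩ : ∃ r, r = rr S p (D - e) := ⟨_, rfl⟩
        have hr1 : r ≤ S := by rw [hr']; exact (rc_rr S p (D - e)).1
        have hdr := hdeg e he
        rw [← hw] at hw1 hw2 ⊢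
        rw [← hr'] at hdr ⊢
        have hL : (D + κ + 22) + w * dd p < l := by
          by_cases hw0 : w = 0
          · rw [hw0, zero_mul, add_zero]
            exact hlE
          · have h1 := hw2 hw0
            have h2 : w * (12 * dd p) ≤ w * (p + 12) := Nat.mul_le_mul_left w (by omega)
            have h3 : w * (12 * dd p) = 12 * (w * dd p) := by ring
            omega
        obtain ⟨P, hP1, hP2⟩ := V.str1 p κ (w + r) hκ hp (by omega)
          (fun h1 => rc_van p (by omega) κ (2 * S) (w + r) h1 (by omega) hv) E hE1 f hfd hfE F hF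
        have hfin := hg4 w (w + r) l R (Polynomial.X ^ (e : ℕ) * P) hL hlp ?_ ?_
        · refine hfin.trans (le_of_eq ?_)
          congr 1
          push_cast
          ring
        · refine Polynomial.natDegree_mul_le.trans ?_
          have h5 : (Polynomial.X ^ (e : ℕ) : Polynomial ℤ_[p]).natDegree ≤ e :=
            Polynomial.natDegree_X_pow_le _
          have h6 : (w + r) * dd p = w * dd p + r * dd p := by ring
          omega
        · have h6 : Polynomial.aeval (toR ℤ_[p] tt) f ^ w * R -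
              Polynomial.aeval (toR ℤ_[p] tt) (Polynomial.X ^ (e : ℕ) * P) =
              toR ℤ_[p] tt ^ (e : ℕ) * (Polynomial.aeval (toR ℤ_[p] tt) f ^ (w + r) *
              (toR ℤ_[p] (xx ^ κ) * F) - Polynomial.aeval (toR ℤ_[p] tt) P) := by
            rw [hR, hg, ← hr', map_mul, map_mul, map_pow, map_pow, Polynomial.aeval_X, pow_add]
            ring
          rw [h6]
          exact rc_dvd _ _ _ p hP2
      · have hw0 : V.ww S (D + κ + 23) p l = 0 := by
          by_contra h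
          have := hw2 h
          omega
        rw [if_pos hlp, if_neg (fun h => hlE h.1), hlog, hw0]
        refine (hg2 l 0 _ fun n _ => ?_).trans (le_of_eq (by simp))
        rw [coeff_map]
        have h1 := PadicInt.norm_le_one (coeff n R)
        simpa using h1
    · -- large columns
      rw [if_neg hlp, if_neg (fun h => hlp h.2), Nat.cast_zero, sub_zero, sub_zero]
      refine IsUltrametricDist.norm_sum_le_of_forall_le_of_nonneg (by positivity) fun e' _ => ?_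
      rw [norm_mul]
      have h1 : ‖(((g e).coeff e' : ℤ_[p]) : ℚ_[p])‖ ≤ 1 := PadicInt.norm_le_one _
      have h2 : ‖lam' l (m (hr κ e'))‖ ≤
          (p : ℝ) ^ ((((2 * κ + 1) * Nat.log p l : ℕ) : ℤ)) := by
        refine hg2 l _ _ fun n hn => ?_
        rw [hm, zpow_natCast]
        exact hr_den κ e' n l p hn
      calc _ ≤ 1 * (p : ℝ) ^ ((((2 * κ + 1) * Nat.log p l : ℕ) : ℤ)) :=
            mul_le_mul h1 h2 (norm_nonneg _) zero_le_one
        _ = _ := one_mul _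

end Pool.Agent.Work.MP_b73316_nt.Q
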