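import Pool.Agent.Work.MP_b73316_nt.Q.Defs
import Pool.Agent.Work.MP_b73316_nt.Q.RowC
import Pool.Agent.Work.MP_b73316_nt.Q.DetC

/-!
Module PadC (size S-M): the bound at a bad prime.

PROOF.  `lam, U` of `rowsC`.  `Han.det` with the functionals `lam (D+1+k)`: `δ = det A`,
`A e k = lam (D+1+k) (hr κ e)`, and `det (U * A) = det A`.  `detC` for `U * A`
(`(U * A) e k = ∑ e', U e e' * A e' k`), `n = D + 1`, `c k = n' log_p l - (if l < p then ww.. else 0)`
with `l = D+1+k`, `n' = 2κ+1`, the set `V = {k | D + κ + 22 < D+1+k < p}`, `r = rr S p` (monotone),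
`D - e = (D+1) - 1 - e`.  So `‖δ‖ ≤ p^(∑ c - ∑_{y < |V|} rr S p y)`.
Remaining: `∑_{l ∈ Icc (D+1) (2D+1), l < p} ww S (D+κ+23) p l ≤ ∑_{y < |V|} rr S p y`.  The left side is
the sum over `l` with `D + κ + 23 ≤ l < p`, `l ≤ 2D+1` (for `l ≤ D + κ + 22`, `ww = 0`), i.e. over
`y = l - (D + κ + 23)`, `y < |V|`, and `ww S (D+κ+23) p l ≤ rr S p y`
(`s (p+12) + 12 (D+κ+23) < 12 l` implies `s (p+12) ≤ 12 y`).
-/

set_option autoImplicit false

open PowerSeries Finset MP0f16e1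

namespace Pool.Agent.Work.MP_b73316_nt.Q

private theorem rr_mono (S p : ℕ) : Monotone (rr S p) := by
  intro x y hxy
  unfold rr
  apply card_le_card
  intro s hs
  rw [mem_filter] at hs ⊢
  exact ⟨hs.1, hs.2.trans (Nat.mul_le_mul_left 12 hxy)⟩

private theorem ww_zero (S E p l : ℕ) (h : l ≤ E) : V.ww S E p l = 0 := by
  unfold V.ww
  rw [card_eq_zero, filter_eq_empty_iff]
  intro s _
  have : 12 * l ≤ 12 * E := Nat.mul_le_mul_left 12 h
  omega

private theorem ww_le_rr (S E p l y : ℕ) (h : l = y + E) : V.ww S E p l ≤ rr S p y := by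
  unfold V.ww rr
  apply card_le_card
  intro s hs
  rw [mem_filter] at hs ⊢
  refine ⟨hs.1, ?_⟩
  have := hs.2
  omega

private theorem sum_icc_fin {M : Type} [AddCommMonoid M] (D : ℕ) (f : ℕ → M) :
    ∑ l ∈ Icc (D + 1) (2 * D + 1), f l = ∑ k : Fin (D + 1), f (D + 1 + k) := by
  rw [← Finset.sum_range (fun k => f (D + 1 + k))]
  symm
  apply Finset.sum_nbij' (fun k => D + 1 + k) (fun l => l - (D + 1))
  · intro k hk
    rw [mem_range] at hk
    rw [mem_Icc]
    omega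
  · intro l hl
    rw [mem_Icc] at hl
    rw [mem_range]
    omega
  · intro k _
    omega
  · intro l hl
    rw [mem_Icc] at hl
    omega
  · intro k _
    rfl

private theorem ww_sum (S κ D p : ℕ) :
    ∑ k : Fin (D + 1), (if D + 1 + (k : ℕ) < p then V.ww S (D + κ + 23) p (D + 1 + k) else 0) ≤
      ∑ y ∈ range ((univ.filter (fun k : Fin (D + 1) =>
        D + κ + 22 < D + 1 + (k : ℕ) ∧ D + 1 + (k : ℕ) < p)).card), rr S p y := by
  set W : Finset (Fin (D + 1)) := univ.filter (fun k : Fin (D + 1) =>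
        D + κ + 22 < D + 1 + (k : ℕ) ∧ D + 1 + (k : ℕ) < p) with hW
  have h1 : ∑ k : Fin (D + 1), (if D + 1 + (k : ℕ) < p then V.ww S (D + κ + 23) p (D + 1 + k) else 0) ≤
      ∑ k ∈ W, rr S p ((k : ℕ) - (κ + 22)) := by
    rw [← Finset.sum_filter_add_sum_filter_not univ (fun k : Fin (D + 1) => k ∈ W)]
    have h2 : ∑ k ∈ univ.filter (fun k : Fin (D + 1) => ¬ k ∈ W),
        (if D + 1 + (k : ℕ) < p then V.ww S (D + κ + 23) p (D + 1 + k) else 0) = 0 := by
      apply sum_eq_zero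
      intro k hk
      rw [mem_filter, hW, mem_filter] at hk
      split_ifs with h3
      · apply ww_zero
        by_contra hcon
        apply hk.2
        refine ⟨mem_univ _, ?_, h3⟩
        omega
      · rfl
    rw [h2, add_zero]
    have h3 : univ.filter (fun k : Fin (D + 1) => k ∈ W) = W := by
      ext k
      simp
    rw [h3]
    apply sum_le_sum
    intro k hk
    rw [hW, mem_filter] at hk
    rw [if_pos hk.2.2]
    apply ww_le_rr
    omega
  refine h1.trans ?_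
  have hinj : Set.InjOn (fun k : Fin (D + 1) => (k : ℕ) - (κ + 22)) (W : Set (Fin (D + 1))) := by
    intro x hx y hy hxy
    rw [mem_coe, hW, mem_filter] at hx hy
    have h3 := hx.2.1
    have h4 := hy.2.1
    apply Fin.ext
    simp only at hxy
    omega
  rw [← Finset.sum_image (f := rr S p) hinj]
  apply Finset.sum_le_sum_of_subset
  intro y hy
  rw [mem_image] at hy
  obtain ⟨k, hk, rfl⟩ := hy
  rw [mem_range]
  have h5 : (range ((k : ℕ) - (κ + 22) + 1)) ⊆ W.image (fun k : Fin (D + 1) => (k : ℕ) - (κ + 22)) := by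
    intro z hz
    rw [mem_range] at hz
    rw [mem_image]
    rw [hW, mem_filter] at hk
    have h6 := hk.2.1
    have h7 := hk.2.2
    have h8 := k.isLt
    refine ⟨⟨z + (κ + 22), by omega⟩, ?_, ?_⟩
    · rw [hW, mem_filter]
      refine ⟨mem_univ _, ?_, ?_⟩
      · dsimp only
        omega
      · dsimp only
        omega
    · dsimp only
      omega
  have h9 := card_le_card h5
  rw [card_range] at h9
  exact lt_of_lt_of_le (Nat.lt_succ_self _) (h9.trans card_image_le)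

theorem padic_badC (S : ℕ) (hS : 2 * S ≤ 11) (κ D : ℕ) (hκ : 1 ≤ κ) (δ : ℚ) (h : Han κ D δ)
    (p : ℕ) [Fact p.Prime] (hp : 4 ^ κ + 2 * κ + 14 ≤ p)
    (hv : ‖VV p (-(2 * κ : ℤ)) (2 * S)‖ ≤ (p : ℝ) ^ (-((2 * S : ℕ) : ℤ))) :
    ‖(δ : ℚ_[p])‖ ≤ (p : ℝ) ^ (∑ l ∈ Icc (D + 1) (2 * D + 1),
      (((2 * κ + 1) * Nat.log p l : ℕ) : ℤ) -
      2 * ∑ l ∈ Icc (D + 1) (2 * D + 1),
        ((if l < p then V.ww S (D + κ + 23) p l else 0 : ℕ) : ℤ)) := by
  obtain ⟨lam, U, hF, hU, hb⟩ := rowsC S hS κ D hκ p hp hv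
  have hdet := h.det ℚ_[p] (fun k => lam (D + 1 + k)) (fun k => hF _ (by omega))
  have hp1 : (1 : ℝ) < p := by exact_mod_cast (Fact.out : p.Prime).one_lt
  have h1 : (δ : ℚ_[p]) = (U * Matrix.of fun e k : Fin (D + 1) => lam (D + 1 + k) (hr κ e)).det := by
    rw [Matrix.det_mul, hU, one_mul, hdet, eq_ratCast]
  rw [h1]
  have h2 := detC p (U * Matrix.of fun e k : Fin (D + 1) => lam (D + 1 + k) (hr κ e))
    (fun k : Fin (D + 1) => (((2 * κ + 1) * Nat.log p (D + 1 + k) : ℕ) : ℤ) -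
      ((if D + 1 + (k : ℕ) < p then V.ww S (D + κ + 23) p (D + 1 + k) else 0 : ℕ) : ℤ))
    (univ.filter (fun k : Fin (D + 1) => D + κ + 22 < D + 1 + (k : ℕ) ∧ D + 1 + (k : ℕ) < p))
    (rr S p) (rr_mono S p) (by
      intro e k
      have h3 := hb (D + 1 + k) e (by omega)
      rw [Matrix.mul_apply]
      simp only [Matrix.of_apply]
      refine h3.trans (le_of_eq ?_)
      congr 1
      congr 1
      by_cases h4 : D + κ + 22 < D + 1 + (k : ℕ) ∧ D + 1 + (k : ℕ) < p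
      · have h5 : k ∈ univ.filter (fun k : Fin (D + 1) =>
            D + κ + 22 < D + 1 + (k : ℕ) ∧ D + 1 + (k : ℕ) < p) := mem_filter.2 ⟨mem_univ _, h4⟩
        rw [if_pos h4, if_pos h5]
        congr 1
      · have h5 : k ∉ univ.filter (fun k : Fin (D + 1) =>
            D + κ + 22 < D + 1 + (k : ℕ) ∧ D + 1 + (k : ℕ) < p) := fun h6 => h4 (mem_filter.1 h6).2
        rw [if_neg h4, if_neg h5]
        rfl)
  refine h2.trans (zpow_le_zpow_right₀ hp1.le ?_)
  rw [sum_icc_fin D (fun l => (((2 * κ + 1) * Nat.log p l : ℕ) : ℤ)),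
    sum_icc_fin D (fun l => ((if l < p then V.ww S (D + κ + 23) p l else 0 : ℕ) : ℤ)),
    sum_sub_distrib]
  have h6 := ww_sum S κ D p
  have h7 : ∑ k : Fin (D + 1), ((if D + 1 + (k : ℕ) < p then V.ww S (D + κ + 23) p (D + 1 + k)
      else 0 : ℕ) : ℤ) ≤ ∑ y ∈ range ((univ.filter (fun k : Fin (D + 1) =>
        D + κ + 22 < D + 1 + (k : ℕ) ∧ D + 1 + (k : ℕ) < p)).card), (rr S p y : ℤ) := by
    exact_mod_cast h6
  linarith

end Pool.Agent.Work.MP_b73316_nt.Q
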