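import Pool.Agent.Work.MP_b73316_nt.Q.Defs
import Pool.Agent.Work.MP_b73316_nt.Q.PadC
import Pool.Agent.Work.MP_b73316_nt.Pf

/-!
Module MainC (size S-M): the main inequality.

PROOF.  As in `V/MainI.lean` (`main_ineq`; copy `mainI_psi`).  `prod_formula` with `N` and
`z p = 2 ∑_l (if Bdp S κ p and l < p then ww .. else 0) - ∑_l (2κ+1) log_p l`, `l ∈ Icc (D+1) (2D+1)`:
`padic_badC` for `Bdp S κ p`, `padic_allC` otherwise; for `p > N ≥ 2D+1`, `log_p l = 0` and
`padic_allC` gives `‖δ‖ ≤ 1`.  Exchange the sums; `∑_{p ≤ N prime} log_p l log p = ψ(l)`.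
-/

set_option autoImplicit false

open PowerSeries Finset Filter MP0f16e1

namespace Pool.Agent.Work.MP_b73316_nt.Q

/-- `∑_{p ≤ N prime} log_p(m) log p = ψ(m)` for `m ≤ N` -/
private theorem mainC_psi (m N : ℕ) (hm : m ≤ N) :
    ∑ p ∈ (Icc 1 N).filter Nat.Prime, (Nat.log p m : ℝ) * Real.log p = Chebyshev.psi m := by
  rw [Chebyshev.psi_eq_sum_mul_log_prime]
  symm
  apply sum_subset
  · intro p hp
    rw [Nat.mem_primesLE] at hp
    rw [mem_filter, mem_Icc]
    exact ⟨⟨hp.2.one_lt.le, hp.1.trans hm⟩, hp.2⟩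
  · intro p hp hp2
    rw [mem_filter] at hp
    rw [Nat.mem_primesLE] at hp2
    have h : m < p := by
      by_contra hcon
      exact hp2 ⟨not_lt.1 hcon, hp.2⟩
    rw [Nat.log_of_lt h]
    simp

open Classical in
theorem main_ineqC (S : ℕ) (hS : 2 * S ≤ 11) (κ D : ℕ) (hκ : 1 ≤ κ) (δ : ℚ) (h : Han κ D δ)
    (N : ℕ) (hN : 24 * D + 12 ≤ N) :
    ∑ l ∈ Icc (D + 1) (2 * D + 1),
      (2 * (∑ p ∈ (Icc 1 N).filter (fun p => p.Prime ∧ Bdp S κ p ∧ l < p),
        (V.ww S (D + (κ + 23)) p l : ℝ) * Real.log p) -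
        (2 * κ + 1) * Chebyshev.psi l) ≤ Real.log |(δ : ℝ)| := by
  have hlN : ∀ l ∈ Icc (D + 1) (2 * D + 1), l ≤ N := fun l hl => by
    rw [mem_Icc] at hl
    omega
  let W : ℕ → ℕ → ℕ := fun p l =>
    if Bdp S κ p ∧ l < p then V.ww S (D + (κ + 23)) p l else 0
  let B : ℕ → ℕ → ℕ := fun p l => (2 * κ + 1) * Nat.log p l
  let z : ℕ → ℤ := fun p => 2 * (∑ l ∈ Icc (D + 1) (2 * D + 1), (W p l : ℤ)) -
    ∑ l ∈ Icc (D + 1) (2 * D + 1), (B p l : ℤ)
  have hall : ∀ (p : ℕ) [Fact p.Prime], ‖(δ : ℚ_[p])‖ ≤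
      (p : ℝ) ^ (∑ l ∈ Icc (D + 1) (2 * D + 1), (B p l : ℤ)) := by
    intro p hp
    exact padic_allC κ D δ h p
  have h1 : ∀ (p : ℕ) [Fact p.Prime], p ≤ N → ‖(δ : ℚ_[p])‖ ≤ (p : ℝ) ^ (-z p) := by
    intro p hp hpN
    by_cases hb : Bdp S κ p
    · have hb' := hb
      obtain ⟨hPp, h3, hv⟩ := hb
      have h4 := padic_badC S hS κ D hκ δ h p hPp hv
      refine h4.trans (le_of_eq ?_)
      have he2 : (∑ l ∈ Icc (D + 1) (2 * D + 1),
          ((if l < p then V.ww S (D + κ + 23) p l else 0 : ℕ) : ℤ)) =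
          ∑ l ∈ Icc (D + 1) (2 * D + 1), (W p l : ℤ) := by
        refine sum_congr rfl fun j _ => ?_
        simp only [W, hb', true_and, Nat.add_assoc]
      have hz : -z p = (∑ l ∈ Icc (D + 1) (2 * D + 1), (B p l : ℤ)) -
          2 * ∑ l ∈ Icc (D + 1) (2 * D + 1), (W p l : ℤ) := by
        simp only [z]
        ring
      rw [he2, hz]
    · refine (hall p).trans (le_of_eq ?_)
      have hW : ∀ j, W p j = 0 := fun j => by
        simp only [W]
        rw [if_neg]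
        exact fun hh => hb hh.1
      have hz : -z p = ∑ l ∈ Icc (D + 1) (2 * D + 1), (B p l : ℤ) := by
        simp [z, hW]
      rw [hz]
  have h2 : ∀ (p : ℕ) [Fact p.Prime], N < p → ‖(δ : ℚ_[p])‖ ≤ 1 := by
    intro p hp hNp
    have h3 := hall p
    have hB : ∑ l ∈ Icc (D + 1) (2 * D + 1), (B p l : ℤ) = 0 := by
      apply sum_eq_zero
      intro j hj
      simp only [B]
      rw [Nat.log_of_lt ((hlN j hj).trans_lt hNp), mul_zero]
      rfl
    simpa [hB] using h3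
  have h5 := prod_formula δ h.ne N z h1 h2
  refine le_trans (le_of_eq ?_) h5
  rw [sum_sub_distrib]
  have hz : ∀ p, (z p : ℝ) * Real.log p =
      (∑ l ∈ Icc (D + 1) (2 * D + 1), 2 * ((W p l : ℝ) * Real.log p)) -
        ∑ l ∈ Icc (D + 1) (2 * D + 1), (B p l : ℝ) * Real.log p := by
    intro p
    simp only [z]
    push_cast
    rw [sub_mul, ← mul_sum, sum_mul, mul_assoc, sum_mul]
  rw [sum_congr rfl fun p _ => hz p, sum_sub_distrib, sum_comm,
    sum_comm (s := (Icc 1 N).filter Nat.Prime)]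
  congr 1
  · refine sum_congr rfl fun j _ => ?_
    have hf : (Icc 1 N).filter (fun p => p.Prime ∧ Bdp S κ p ∧ j < p) =
        ((Icc 1 N).filter Nat.Prime).filter (fun p => Bdp S κ p ∧ j < p) := by
      rw [filter_filter]
    rw [← mul_sum]
    congr 1
    rw [hf, sum_filter]
    refine sum_congr rfl fun p _ => ?_
    simp only [W]
    split_ifs <;> simp
  · refine sum_congr rfl fun j hj => ?_
    rw [← mainC_psi j N (hlN j hj), mul_sum]
    refine sum_congr rfl fun p _ => ?_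
    simp only [B]
    push_cast
    ring

end Pool.Agent.Work.MP_b73316_nt.Q
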