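import Pool.Agent.Work.MP_b73316_nt.Q.Defs
import Pool.Agent.Work.MP_b73316_nt.Q.MainC
import Pool.Agent.Work.MP_b73316_nt.Q.SumG
import Pool.Agent.Work.MP_b73316_nt.V.Gam
import Pool.Agent.Work.MP_b73316_nt.Pnt

/-!
Module GdI (size M): the inequality for the good primes, at a normal index.

PROOF.  Notation `n = 2κ+1`, `E = κ + 23`, `N = 24 D + 12`, `ww = V.ww S (D+E) p l`,
`l ∈ Icc (D+1) (2D+1)` (so `12 l ≤ N`).  `main_ineqC`:
`∑_l (2 ∑_{p ≤ N prime bad, l < p} ww log p - n ψ(l)) ≤ log |δ|`.  The sum over the bad primes is the sum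
over all the primes minus the sum over the primes of `Gd S κ`.
* All the primes: `V.gam S _ E 0 ε₁` with `B = univ`, `η = 0` (`thG univᶜ x = 0`):
  `∑_{p ≤ N prime, l < p} ww log p ≥ GG S 12 D l - ε₁ l - C₁` (`12 * (1 - 0) = 12`).
* `∑_l 2 ∑_{p ≤ N prime good, l < p} ww log p ≤ ∑_{p ≤ N prime good} log p vv S D p = sg (Gd S κ) S D`
  (`vv_ww` with `E`; `vv = 0` for `p > 12 D`, `vv_big`, `vv_nonneg`).
* `ψ(l) ≤ (1 + ε₁) l + C₂` (`psi_near`), `∑_l l = (D+1)(3D+2)/2`, `∑_l GG ≥ (D²/2) gain` (`sum_GG`),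
  `log |δ| ≤ (log 433 + ε₁) D²` (hypothesis `hA`).
So `sg ≥ D² gain - (2 ε₁ + n (1 + ε₁)) (D+1)(3D+2)/2 - (D+1)(2 |C₁| + n |C₂|) - (log 433 + ε₁) D²`,
and this is `≥ (gain - 3n/2 - log 433 - ε) D²` if `ε₁` is small with respect to `ε` and `D` is large.
-/

set_option autoImplicit false

open PowerSeries Finset Filter MP0f16e1

namespace Pool.Agent.Work.MP_b73316_nt.Q

private theorem gdi_sum_id (D : ℕ) :
    ∑ l ∈ Icc (D + 1) (2 * D + 1), (l : ℝ) = (D + 1) * (3 * D + 2) / 2 := by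
  have h : ∀ m : ℕ, ∑ l ∈ Icc (D + 1) (D + m), (l : ℝ) = m * D + m * (m + 1) / 2 := by
    intro m
    induction m with
    | zero => simp
    | succ m ih =>
      rw [← Nat.add_assoc, Finset.sum_Icc_succ_top (by omega), ih]
      push_cast
      ring
  have h1 := h (D + 1)
  have e : D + (D + 1) = 2 * D + 1 := by ring
  rw [e] at h1
  rw [h1]
  push_cast
  ring

open Classical in
private theorem gdi_split (S κ E N l : ℕ) :
    ∑ p ∈ (Icc 1 N).filter (fun p => p.Prime ∧ p ∈ (Set.univ : Set ℕ) ∧ l < p),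
        (V.ww S E p l : ℝ) * Real.log p =
      ∑ p ∈ (Icc 1 N).filter (fun p => p.Prime ∧ Bdp S κ p ∧ l < p),
        (V.ww S E p l : ℝ) * Real.log p +
      ∑ p ∈ (Icc 1 N).filter (fun p => p.Prime ∧ p ∈ Gd S κ),
        Real.log p * (if l < p then (V.ww S E p l : ℝ) else 0) := by
  rw [Finset.sum_filter, Finset.sum_filter, Finset.sum_filter, ← Finset.sum_add_distrib]
  refine Finset.sum_congr rfl fun p _ => ?_
  by_cases h1 : p.Prime <;> by_cases h2 : Bdp S κ p <;> by_cases h3 : l < p <;>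
    simp [h1, h2, h3, Gd, mul_comm]

open Classical in
private theorem gdi_good (S κ D E N : ℕ) (hE : 1 ≤ E) (hN : 12 * D ≤ N) :
    2 * ∑ l ∈ Icc (D + 1) (2 * D + 1),
      ∑ p ∈ (Icc 1 N).filter (fun p => p.Prime ∧ p ∈ Gd S κ),
        Real.log p * (if l < p then (V.ww S (D + E) p l : ℝ) else 0) ≤ sg (Gd S κ) S D := by
  have e1 : sg (Gd S κ) S D = ∑ p ∈ (Icc 1 N).filter (fun p => p.Prime ∧ p ∈ Gd S κ),
      Real.log p * vv S D p := by
    unfold sg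
    refine Finset.sum_subset ?_ ?_
    · intro p hp
      rw [Finset.mem_filter, Finset.mem_Icc] at hp ⊢
      exact ⟨⟨hp.1.1, hp.1.2.trans hN⟩, hp.2⟩
    · intro p hp hp2
      rw [Finset.mem_filter, Finset.mem_Icc] at hp hp2
      have h1 : 12 * D ≤ p := by
        by_contra h
        exact hp2 ⟨⟨hp.1.1, by omega⟩, hp.2⟩
      rw [vv_big S D p (Nat.cast_nonneg D) (by exact_mod_cast h1), mul_zero]
  rw [e1, Finset.sum_comm, Finset.mul_sum]
  refine Finset.sum_le_sum fun p _ => ?_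
  rw [← Finset.mul_sum]
  have h1 := vv_ww S D E p hE
  have h2 : 0 ≤ Real.log p := Real.log_natCast_nonneg p
  have h3 := mul_le_mul_of_nonneg_left h1 h2
  linarith

theorem gd_ineq (S : ℕ) (hS : 2 * S ≤ 11) (κ : ℕ) (hκ : 1 ≤ κ)
    (hA : ∀ ε : ℝ, 0 < ε → ∃ D₀ : ℕ, ∀ D : ℕ, D₀ ≤ D → ∀ δ : ℚ, Han κ D δ →
      Real.log |(δ : ℝ)| ≤ (Real.log 433 + ε) * (D : ℝ) ^ 2) :
    ∀ ε : ℝ, 0 < ε → ∃ D₀ : ℕ, ∀ D : ℕ, D₀ ≤ D → ∀ δ : ℚ, Han κ D δ →
      (cc S κ - ε) * (D : ℝ) ^ 2 ≤ sg (Gd S κ) S D := by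
  classical
  intro ε hε
  have hn : (0 : ℝ) ≤ 2 * κ + 1 := by positivity
  set n : ℝ := 2 * κ + 1 with hn_def
  set ε₁ : ℝ := ε / (2 * (4 + 3 / 2 * n)) with hε₁_def
  have hε₁ : 0 < ε₁ := by positivity
  have hεε : ε₁ * (4 + 3 / 2 * n) = ε / 2 := by
    rw [hε₁_def]
    field_simp
  obtain ⟨C₁, hC₁⟩ := V.gam S (by omega) (κ + 23) 0 ε₁ le_rfl one_pos hε₁
  obtain ⟨C₂, hC₂⟩ := psi_near ε₁ hε₁
  obtain ⟨D₀, hD₀⟩ := hA ε₁ hε₁
  set M : ℝ := (2 * ε₁ + n * (1 + ε₁)) * (5 / 2) + 2 * |C₁| + n * |C₂| with hM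
  have hM0 : 0 ≤ M := by positivity
  refine ⟨max D₀ (max 1 ⌈4 * M / ε⌉₊), fun D hD δ hδ => ?_⟩
  have hDD₀ : D₀ ≤ D := (le_max_left _ _).trans hD
  have hD1 : 1 ≤ D := ((le_max_left _ _).trans (le_max_right _ _)).trans hD
  have hD2 : ⌈4 * M / ε⌉₊ ≤ D := ((le_max_right _ _).trans (le_max_right _ _)).trans hD
  have hDr1 : (1 : ℝ) ≤ D := by exact_mod_cast hD1
  have hDM : 4 * M / ε ≤ D := (Nat.le_ceil _).trans (by exact_mod_cast hD2)
  have hDM' : 4 * M ≤ D * ε := (div_le_iff₀ hε).1 hDM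
  have hlog := hD₀ D hDD₀ δ hδ
  have hmain := main_ineqC S hS κ D hκ δ hδ (24 * D + 12) le_rfl
  have hgood := gdi_good S κ D (κ + 23) (24 * D + 12) (by omega) (by omega)
  have hGG := sum_GG S D
  have hid := gdi_sum_id D
  have hl : ∀ l ∈ Icc (D + 1) (2 * D + 1),
      2 * V.GG S 12 D l - 2 * ε₁ * l - 2 * |C₁| -
        2 * ∑ p ∈ (Icc 1 (24 * D + 12)).filter (fun p => p.Prime ∧ p ∈ Gd S κ),
        Real.log p * (if l < p then (V.ww S (D + (κ + 23)) p l : ℝ) else 0) -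
        n * ((1 + ε₁) * l + |C₂|) ≤
      2 * (∑ p ∈ (Icc 1 (24 * D + 12)).filter (fun p => p.Prime ∧ Bdp S κ p ∧ l < p),
        (V.ww S (D + (κ + 23)) p l : ℝ) * Real.log p) -
        n * Chebyshev.psi l := by
    intro l hl
    rw [Finset.mem_Icc] at hl
    have h1 := hC₁ Set.univ D l (24 * D + 12) 0 le_rfl (by omega) (by
      intro x _
      simp [thG])
    have e12 : (12 : ℝ) * (1 - 0) = 12 := by norm_num
    rw [e12] at h1
    replace h1 := h1.trans_eq ((Finset.sum_congr (by ext p; simp only [Finset.mem_filter])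
      fun _ _ => rfl).trans (gdi_split S κ (D + (κ + 23)) (24 * D + 12) l))
    have h2 := (abs_le.1 (hC₂ l)).2
    have h3 : Chebyshev.psi l ≤ (1 + ε₁) * l + |C₂| := by
      have := le_abs_self C₂
      linarith
    have h4 := mul_le_mul_of_nonneg_left h3 hn
    have h5 := le_abs_self C₁
    linarith
  have hsum := (Finset.sum_le_sum hl).trans hmain
  simp only [Finset.sum_sub_distrib, ← Finset.mul_sum, Finset.sum_add_distrib, Finset.sum_const,
    Nat.card_Icc, nsmul_eq_mul] at hsum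
  rw [hid] at hsum
  have ec : ((2 * D + 1 + 1 - (D + 1) : ℕ) : ℝ) = D + 1 := by
    rw [show 2 * D + 1 + 1 - (D + 1) = D + 1 by omega]
    push_cast
    ring
  rw [ec] at hsum
  have hDD : 4 * M * D ≤ D * ε * D := mul_le_mul_of_nonneg_right hDM' (by linarith)
  have hMM : M * (D + 1) ≤ ε / 2 * D ^ 2 := by
    have : M * (D + 1) ≤ M * (2 * D) := mul_le_mul_of_nonneg_left (by linarith) hM0
    nlinarith
  have hMe : M * (D + 1) = (2 * ε₁ + n * (1 + ε₁)) * (5 / 2) * (D + 1) +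
      (2 * |C₁| + n * |C₂|) * (D + 1) := by
    rw [hM]
    ring
  have h52 : (2 * ε₁ + n * (1 + ε₁)) * ((D + 1) * (3 * D + 2) / 2) ≤
      (2 * ε₁ + n * (1 + ε₁)) * (3 / 2 * D ^ 2 + 5 / 2 * (D + 1)) := by
    apply mul_le_mul_of_nonneg_left _ (by positivity)
    nlinarith
  have hee : ε₁ * (4 + 3 / 2 * n) * D ^ 2 = ε / 2 * D ^ 2 := by rw [hεε]
  unfold cc
  nlinarith [hsum, hgood, hGG, hlog, hMM, hMe, h52, hee]

end Pool.Agent.Work.MP_b73316_nt.Q
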