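import Pool.Agent.Work.MP_b73316_nt.Q.Defs
import Pool.Agent.Work.MP_b73316_nt.PivB
import Pool.Agent.Work.MP_b73316_nt.Lin

/-!
Module HanE (size S-M): the determinant at a normal index.

PROOF.  Let `kap i = κ * i` (`kap 0 = 0`, strictly increasing as `κ ≥ 1`, `kap 1 = κ`).  The rows
`A i = row kap D i`, `i : Fin ((1+1)*(D+1))`, are linearly independent (`row_indep kap .. 1 D`), let
`l, δ` be the pivot datum of `pivot A` (structure `Piv`).  `A i = toR ℚ (tt^i)` for `i ≤ D`
(`FF kap 0 = 1`, `kap 0 = 0`) and `A (D+1+e) = hr κ e` for `e ≤ D` (`FF kap 1 = Fs (2κ+1)`,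
`toR` multiplicative).
(1) `l j = j` for all `j`: the last index `2D+1`: `Piv.comb` gives `c` with `R = ∑ c_i A_i ≠ 0` whose
coefficients below `l (2D+1)` vanish; `R = P₀(t) + P₁(t) h` with `P₀ = ∑_{i ≤ D} c_i X^i`,
`P₁ = ∑_{e ≤ D} c_{D+1+e} X^e`; if `l (2D+1) ≥ 2D+2`, `Nor` gives `P₀ = P₁ = 0`, `R = 0`,
contradiction.  So `l (2D+1) ≤ 2D+1`, and `l` is strictly increasing: `l j = j`.
(2) `Han κ D δ`: `δ ≠ 0`.  Given `F` and `lam k` (`k : Fin (D+1)`), let `lam' j` be
`algebraMap ∘ coeff j` for `j ≤ D` and `lam (j - D - 1)` for `j > D`: unipotent at `l j = j`.  `Piv.det`: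
the determinant of `(lam' j (A i))` is `δ`.  In the blocks `{0..D} ⊔ {D+1..2D+1}` of rows and columns
(`finSumFinEquiv`, `Matrix.det_reindex_self`/`det_submatrix_equiv_self`, `Matrix.det_fromBlocks_zero₁₂`
or `₂₁`): the upper left block `coeff j (tt^i)` is unitriangular (`tt_pow_coeff_lt`,
`tt_pow_coeff_self`), the upper right block `lam k (tt^i)` is `0` (`Fnl.kil`), the lower right block is
`lam k (hr κ e)`.
-/

set_option autoImplicit false

open PowerSeries Finset MP0f16e1

namespace Pool.Agent.Work.MP_b73316_nt.Q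

private theorem row_lo (κ D i : ℕ) (h : i < D + 1) :
    row (fun j => κ * j) D i = toR ℚ (tt ^ i) := by
  unfold row FF
  rw [Nat.div_eq_of_lt h, Nat.mod_eq_of_lt h, if_pos rfl]
  simp only [mul_zero, pow_zero, mul_one]

private theorem toR_mul' (f g : PowerSeries ℤ) : toR ℚ (f * g) = toR ℚ f * toR ℚ g := by
  unfold toR
  exact map_mul _ f g

private theorem toR_pow' (f : PowerSeries ℤ) (n : ℕ) : toR ℚ (f ^ n) = toR ℚ f ^ n := by
  unfold toR
  exact map_pow _ f n

private theorem row_hi (κ D e : ℕ) (h : e < D + 1) :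
    row (fun j => κ * j) D (D + 1 + e) = hr κ e := by
  have h1 : (D + 1 + e) / (D + 1) = 1 := by
    rw [Nat.add_div_left _ (Nat.succ_pos D), Nat.div_eq_of_lt h]
  have h2 : (D + 1 + e) % (D + 1) = e := by
    rw [Nat.add_mod_left, Nat.mod_eq_of_lt h]
  unfold row FF hr hh
  rw [h1, h2, if_neg one_ne_zero]
  simp only [mul_one]
  rw [toR_mul', mul_assoc]

private theorem comb_eq (κ D : ℕ) (c : ℕ → ℚ) :
    ∑ i : Fin ((1 + 1) * (D + 1)), c i • row (fun j => κ * j) D i =
      Polynomial.aeval (toR ℚ tt) (∑ i ∈ range (D + 1), Polynomial.C (c i) * Polynomial.X ^ i) +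
      Polynomial.aeval (toR ℚ tt)
        (∑ e ∈ range (D + 1), Polynomial.C (c (D + 1 + e)) * Polynomial.X ^ e) * hh κ := by
  rw [Fin.sum_univ_eq_sum_range (fun i => c i • row (fun j => κ * j) D i)]
  have e0 : (1 + 1) * (D + 1) = (D + 1) + (D + 1) := by ring
  rw [e0, Finset.sum_range_add, map_sum, map_sum, Finset.sum_mul]
  congr 1
  · refine Finset.sum_congr rfl fun i hi => ?_
    rw [row_lo κ D i (Finset.mem_range.1 hi), map_mul, Polynomial.aeval_C, map_pow,
      Polynomial.aeval_X, toR_pow', Algebra.smul_def]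
  · refine Finset.sum_congr rfl fun i hi => ?_
    rw [row_hi κ D i (Finset.mem_range.1 hi), map_mul, Polynomial.aeval_C, map_pow,
      Polynomial.aeval_X, hr, toR_pow', Algebra.smul_def, mul_assoc]

private theorem deg_le (D : ℕ) (c : ℕ → ℚ) :
    (∑ i ∈ range (D + 1), Polynomial.C (c i) * Polynomial.X ^ i).natDegree ≤ D := by
  refine Polynomial.natDegree_sum_le_of_forall_le _ _ fun i hi => ?_
  refine (Polynomial.natDegree_C_mul_X_pow_le _ _).trans ?_
  have := Finset.mem_range.1 hi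
  omega

theorem han_of (κ D : ℕ) (hκ : 1 ≤ κ) (h : Nor κ D) : ∃ δ : ℚ, Han κ D δ := by
  classical
  have hk : StrictMono (fun j : ℕ => κ * j) := fun a b hab => Nat.mul_lt_mul_of_pos_left hab hκ
  obtain ⟨l, δ, hP⟩ := pivot _ (row_indep (fun j => κ * j) (mul_zero κ) hk 1 D)
  -- the largest pivot index
  have hlast : ∀ j, l j < (1 + 1) * (D + 1) := by
    intro j
    by_contra hcon
    rw [not_lt] at hcon
    obtain ⟨c, hc0, hc⟩ := hP.comb j
    set c' : ℕ → ℚ := fun i => if hi : i < (1 + 1) * (D + 1) then c ⟨i, hi⟩ else 0 with hc'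
    have hcc : ∑ i, c i • row (fun j => κ * j) D i =
        ∑ i : Fin ((1 + 1) * (D + 1)), c' i • row (fun j => κ * j) D i := by
      refine Finset.sum_congr rfl fun i _ => ?_
      have : c' i = c i := by simp [hc']
      rw [this]
    rw [hcc, comb_eq] at hc hc0
    obtain ⟨h0, h1⟩ := h _ _ (deg_le D c') (deg_le D fun e => c' (D + 1 + e)) (fun k hk2 => hc k (by omega))
    apply hc0
    rw [h0, h1, map_zero, zero_mul, add_zero]
  have hlj : ∀ j, l j = (j : ℕ) := by
    have hm : StrictMono (fun j => (⟨l j, hlast j⟩ : Fin ((1 + 1) * (D + 1)))) :=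
      fun a b hab => hP.mono hab
    intro j
    have h1 := hm.le_apply (x := j)
    have h2 := hm.apply_le (x := j)
    exact congrArg Fin.val (le_antisymm h2 h1)
  refine ⟨δ, hP.ne, ?_⟩
  intro F _ _ lam hlam
  set lam' : Fin ((1 + 1) * (D + 1)) → (PowerSeries ℚ →ₗ[ℚ] F) := fun j =>
    if hj : (j : ℕ) < D + 1 then (Algebra.linearMap ℚ F).comp (coeff (R := ℚ) (j : ℕ)) else
      lam ⟨(j : ℕ) - (D + 1), by have := j.2; omega⟩ with hlam'
  have hdet := hP.det F lam' (by
    intro j R hR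
    rw [hlj j] at hR ⊢
    rw [hlam']
    by_cases hj : (j : ℕ) < D + 1
    · simp only [dif_pos hj]
      rfl
    · simp only [dif_neg hj]
      have h2 := (hlam ⟨(j : ℕ) - (D + 1), by have := j.2; omega⟩).uni R
      have h3 : D + 1 + ((⟨(j : ℕ) - (D + 1), by have := j.2; omega⟩ : Fin (D + 1)) : ℕ) = (j : ℕ) := by
        simp only
        omega
      rw [h3] at h2
      exact h2 hR)
  rw [← hdet]
  set eqv : Fin (D + 1) ⊕ Fin (D + 1) ≃ Fin ((1 + 1) * (D + 1)) :=
    finSumFinEquiv.trans (finCongr (by ring)) with heqv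
  rw [← Matrix.det_submatrix_equiv_self eqv]
  have hl : ∀ i : Fin (D + 1), ((eqv (Sum.inl i) : Fin ((1 + 1) * (D + 1))) : ℕ) = i := by
    intro i
    simp [heqv]
  have hr' : ∀ i : Fin (D + 1), ((eqv (Sum.inr i) : Fin ((1 + 1) * (D + 1))) : ℕ) = D + 1 + i := by
    intro i
    simp [heqv, add_comm]
  have hL : ∀ i : Fin (D + 1), lam' (eqv (Sum.inl i)) =
      (Algebra.linearMap ℚ F).comp (coeff (R := ℚ) (i : ℕ)) := by
    intro i
    rw [hlam']
    simp only [hl, dif_pos i.2]
  have hR : ∀ i : Fin (D + 1), lam' (eqv (Sum.inr i)) = lam i := by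
    intro i
    rw [hlam']
    have h4 : ¬ (D + 1 + (i : ℕ) < D + 1) := by omega
    simp only [hr', dif_neg h4]
    congr 1
    apply Fin.ext
    simp
  have hblk : (Matrix.of fun i j => lam' j (row (fun j => κ * j) D (i : Fin ((1 + 1) * (D + 1))))).submatrix eqv eqv =
      Matrix.fromBlocks
        (Matrix.of fun i j : Fin (D + 1) => algebraMap ℚ F (coeff (j : ℕ) (toR ℚ (tt ^ (i : ℕ)))))
        0
        (Matrix.of fun i j : Fin (D + 1) => algebraMap ℚ F (coeff (j : ℕ) (hr κ i)))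
        (Matrix.of fun e k : Fin (D + 1) => lam k (hr κ e)) := by
    ext i j
    rcases i with i | i <;> rcases j with j | j
    · rw [Matrix.submatrix_apply, Matrix.of_apply, Matrix.fromBlocks_apply₁₁, Matrix.of_apply, hL,
        hl, row_lo κ D i i.2]
      rfl
    · rw [Matrix.submatrix_apply, Matrix.of_apply, Matrix.fromBlocks_apply₁₂, hR,
        hl, row_lo κ D i i.2, (hlam j).kil i (by have := i.2; omega)]
      rfl
    · rw [Matrix.submatrix_apply, Matrix.of_apply, Matrix.fromBlocks_apply₂₁, Matrix.of_apply, hL,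
        hr', row_hi κ D i i.2]
      rfl
    · rw [Matrix.submatrix_apply, Matrix.of_apply, Matrix.fromBlocks_apply₂₂, Matrix.of_apply, hR,
        hr', row_hi κ D i i.2]
  rw [hblk, Matrix.det_fromBlocks_zero₁₂]
  have htri : (Matrix.of fun i j : Fin (D + 1) =>
      algebraMap ℚ F (coeff (j : ℕ) (toR ℚ (tt ^ (i : ℕ))))).BlockTriangular id := by
    intro i j hij
    rw [Matrix.of_apply]
    unfold toR
    rw [coeff_map, tt_pow_coeff_lt (show (j : ℕ) < (i : ℕ) from hij), map_zero, map_zero]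
  rw [Matrix.det_of_isUpperTriangular htri]
  have hone : ∏ i : Fin (D + 1), (Matrix.of fun i j : Fin (D + 1) =>
      algebraMap ℚ F (coeff (j : ℕ) (toR ℚ (tt ^ (i : ℕ))))) i i = 1 := by
    refine Finset.prod_eq_one fun i _ => ?_
    rw [Matrix.of_apply]
    unfold toR
    rw [coeff_map, tt_pow_coeff_self, map_one, map_one]
  rw [hone, one_mul]

end Pool.Agent.Work.MP_b73316_nt.Q
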