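import Pool.Agent.Work.MP_b73316_nt.Q.Defs

/-!
Module Ker (size S-M): the average of `vv(D, p)` over `D`.

NOTATION.  `w D = 1/(D(D+1)(D+2))`; for real `a > 0` and `x > 0`: `Ψ a x = 1/(x+1) - (a/2)/(x(x+1))`.
(i) `(x - a) w x = Ψ a x - Ψ a (x+1)` for `x > 0`
    (`1/((x+1)(x+2)) = 1/(x+1) - 1/(x+2)`, `2 w x = 1/(x(x+1)) - 1/((x+1)(x+2))`).
(ii) `Ψ a x ≤ 1/(2a)` for `x ≥ a/2`, `x > 0`: `Ψ a x = (2x - a)/(2x(x+1)) ≤ (2x-a)/(2x²) ≤ 1/(2a)` as
    `a (2x - a) ≤ x²`.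
PROOF.  Fix `s ∈ {1..S}`, `S ≤ 5`, `a = s p/12 > 0`, `b = p - a > 0` (`p ≥ 1`).
(A) For all `M : ℕ` with `M + 1 ≥ a`: `∑_{D=1}^M max 0 (D - a) w D ≤ 1/(2a) - Ψ a (M+1)`.  Induction on
`M` from the least such `M`: there all the terms vanish (`D ≤ M < a`; or `M = 0`) and (ii) applies
(`M + 1 ≥ a`); the step is (i) (`D = M+1 ≥ a`, the maximum is `D - a`).
(B) For all `M ≤ N` with `M + 1 ≥ b/2`: `∑_{D=M+1}^N max 0 (b - D) w D ≤ 1/(2b) - Ψ b (M+1)`:
by induction on `N`: as long as `N ≤ b`, `∑_{D=M+1}^N (b - D) w D = Ψ b (N+1) - Ψ b (M+1)` by (i) and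
`Ψ b (N+1) ≤ 1/(2b)` by (ii) (`N + 1 ≥ b/2`); for `D ≥ b` the terms vanish.
(C) Put `M = ⌊p/2⌋ = p/2` (natural number division), `x = M + 1`, `p/2 < x ≤ p/2 + 1` (real).
`M + 1 ≥ a` (`a ≤ 5p/12`), `M + 1 ≥ b/2`.  For `D ≤ M`: `2D ≤ p`, `min (p, 2D) - D - a = D - a`;
for `D > M`: `2D ≥ p`, `min (p, 2D) - D - a = b - D`.  So
`∑_{D=1}^N max 0 (min (p, 2D) - D - s p/12) w D ≤ 1/(2a) + 1/(2b) - Ψ a x - Ψ b x`
(for `N < M`, add nonnegative terms first: the sum is increasing in `N`, so w.l.o.g. `N ≥ M`).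
`Ψ a x + Ψ b x = 2/(x+1) - p/(2x(x+1)) = (4x - p)/(2x(x+1)) ≥ p/(2 (p/2+1)(p/2+2)) = 2p/((p+2)(p+4))
≥ 2/p - 12/p²` (`4x - p ≥ p`, `x ≤ p/2 + 1`; `2p³ ≥ (2p - 12)(p+2)(p+4)`).
(D) `1/(2a) + 1/(2b) - 2/p = (6/s + 6/(12-s) - 2)/p = (12 - 2s)²/(2 s (12 - s) p)`, and
`gain S 12 2 = ∑_s (12 - 2s)²/(s (12 - s))` (`12 < (12 - s) 2` for `s ≤ 5`,
`(12 - s) 2 - 12 = 12 - 2s`).  Sum over `s`, times `2`: `≤ gain/p + 24 S/p²`.
-/

set_option autoImplicit false

open Finset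

namespace Pool.Agent.Work.MP_b73316_nt.Q

/-- the telescoping function -/
private noncomputable def Ps (a x : ℝ) : ℝ := 1 / (x + 1) - (a / 2) / (x * (x + 1))

/-- the weight -/
private noncomputable def wt (x : ℝ) : ℝ := 1 / (x * (x + 1) * (x + 2))

private theorem ps_i (a x : ℝ) (hx : 0 < x) : (x - a) * wt x = Ps a x - Ps a (x + 1) := by
  unfold Ps wt
  field_simp
  ring

private theorem ps_ii (a x : ℝ) (ha : 0 < a) (hx : 0 < x) (_h : a / 2 ≤ x) :
    Ps a x ≤ 1 / (2 * a) := by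
  have e : Ps a x = (2 * x - a) / (2 * (x * (x + 1))) := by
    unfold Ps
    field_simp
  rw [e, div_le_div_iff₀ (by positivity) (by positivity)]
  nlinarith [sq_nonneg (x - a)]

private theorem wt_pos (x : ℝ) (hx : 0 < x) : 0 < wt x := by
  unfold wt
  positivity

/-- part A -/
private theorem part_a (a : ℝ) (ha : 0 < a) (M : ℕ) (hM : a ≤ (M : ℝ) + 1) :
    ∑ D ∈ Icc 1 M, max 0 ((D : ℝ) - a) * wt D ≤ 1 / (2 * a) - Ps a ((M : ℝ) + 1) := by
  induction M with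
  | zero =>
    have h1 : ∑ D ∈ Icc (1 : ℕ) 0, max 0 ((D : ℝ) - a) * wt D = 0 := by simp
    rw [h1]
    have := ps_ii a (((0 : ℕ) : ℝ) + 1) ha (by norm_num) (by
      have h5 : ((0 : ℕ) : ℝ) = 0 := Nat.cast_zero
      rw [h5] at hM ⊢
      linarith)
    linarith
  | succ M ih =>
    rw [sum_Icc_succ_top (by omega)]
    have hM0 : (0 : ℝ) ≤ M := Nat.cast_nonneg M
    rcases le_total a ((M : ℝ) + 1) with h | h
    · have h1 := ih h
      have h2 := ps_i a ((M : ℝ) + 1) (by linarith)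
      push_cast
      rw [max_eq_right (by linarith)]
      linarith
    · have h1 : ∑ D ∈ Icc 1 M, max 0 ((D : ℝ) - a) * wt D = 0 := by
        refine sum_eq_zero fun D hD => ?_
        have hD2 : (D : ℝ) ≤ M := by exact_mod_cast (mem_Icc.1 hD).2
        rw [max_eq_left (by linarith), zero_mul]
      rw [h1]
      push_cast at hM ⊢
      rw [max_eq_left (by linarith), zero_mul, add_zero]
      have h2 := ps_ii a ((M : ℝ) + 1 + 1) ha (by linarith) (by linarith)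
      linarith

/-- part B -/
private theorem part_b (b : ℝ) (hb : 0 < b) (M N : ℕ) (hM : b / 2 ≤ (M : ℝ) + 1) (hMN : M ≤ N) :
    ∑ D ∈ Icc (M + 1) N, max 0 (b - (D : ℝ)) * wt D ≤ 1 / (2 * b) - Ps b ((M : ℝ) + 1) := by
  have hM0 : (0 : ℝ) ≤ M := Nat.cast_nonneg M
  -- the sum without maxima
  have key : ∀ N : ℕ, M ≤ N → (∀ D ∈ Icc (M + 1) N, (D : ℝ) ≤ b) →
      ∑ D ∈ Icc (M + 1) N, max 0 (b - (D : ℝ)) * wt D = Ps b ((N : ℝ) + 1) - Ps b ((M : ℝ) + 1) := by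
    intro N hN
    induction N, hN using Nat.le_induction with
    | base =>
      intro _
      have : Icc (M + 1) M = ∅ := by
        ext x
        simp
      rw [this, sum_empty, sub_self]
    | succ N hN ih =>
      intro h
      rw [sum_Icc_succ_top (by omega), ih fun D hD => h D (by
        rw [mem_Icc] at hD ⊢
        omega)]
      have hN0 : (0 : ℝ) ≤ N := Nat.cast_nonneg N
      have h1 := h (N + 1) (by rw [mem_Icc]; omega)
      have h2 := ps_i b ((N : ℝ) + 1) (by linarith)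
      push_cast at h1 ⊢
      rw [max_eq_right (by linarith)]
      linarith
  -- general
  induction N, hMN using Nat.le_induction with
  | base =>
    have : Icc (M + 1) M = ∅ := by
      ext x
      simp
    rw [this, sum_empty]
    have := ps_ii b ((M : ℝ) + 1) hb (by linarith) hM
    linarith
  | succ N hN ih =>
    by_cases h : ((N + 1 : ℕ) : ℝ) ≤ b
    · rw [key (N + 1) (by omega) fun D hD => by
        have h1 : (D : ℝ) ≤ ((N + 1 : ℕ) : ℝ) := by exact_mod_cast (mem_Icc.1 hD).2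
        linarith]
      have hNM : (M : ℝ) ≤ N := by exact_mod_cast hN
      have := ps_ii b (((N + 1 : ℕ) : ℝ) + 1) hb (by positivity) (by
        push_cast
        linarith)
      linarith
    · push Not at h
      rw [sum_Icc_succ_top (by omega), max_eq_left (by linarith), zero_mul, add_zero]
      exact ih

private theorem psum (a b p x : ℝ) (hab : a + b = p) (hp : 1 ≤ p) (hx1 : p / 2 ≤ x)
    (hx2 : x ≤ p / 2 + 1) : 2 / p - 12 / p ^ 2 ≤ Ps a x + Ps b x := by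
  have hx0 : 0 < x := by linarith
  have e : Ps a x + Ps b x = (4 * x - p) / (2 * (x * (x + 1))) := by
    rw [← hab]
    unfold Ps
    field_simp
    ring
  have h1 : 2 * p / ((p + 2) * (p + 4)) ≤ (4 * x - p) / (2 * (x * (x + 1))) := by
    rw [div_le_div_iff₀ (by positivity) (by positivity)]
    have h2 : p * (2 * (2 * (x * (x + 1)))) ≤ (4 * x - p) * ((p + 2) * (p + 4)) := by
      have h3 : 4 * (x * (x + 1)) ≤ (p + 2) * (p + 4) := by nlinarith
      have h4 : p ≤ 4 * x - p := by linarith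
      calc p * (2 * (2 * (x * (x + 1)))) = p * (4 * (x * (x + 1))) := by ring
        _ ≤ p * ((p + 2) * (p + 4)) := mul_le_mul_of_nonneg_left h3 (by linarith)
        _ ≤ _ := mul_le_mul_of_nonneg_right h4 (by positivity)
    linarith
  have h2 : 2 / p - 12 / p ^ 2 ≤ 2 * p / ((p + 2) * (p + 4)) := by
    have e2 : 2 / p - 12 / p ^ 2 = (2 * p - 12) / p ^ 2 := by
      field_simp
    rw [e2, div_le_div_iff₀ (by positivity) (by positivity)]
    nlinarith
  rw [e]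
  exact h2.trans h1

/-- one value of `s` -/
private theorem one_ker (s p N : ℕ) (hs1 : 1 ≤ s) (hs5 : s ≤ 5) (hp : 1 ≤ p) :
    ∑ D ∈ Icc 1 N, max 0 (min (p : ℝ) (2 * D) - D - s * p / 12) * wt D ≤
      ((12 : ℝ) - 2 * s) ^ 2 / (2 * s * (12 - s) * p) + 12 / (p : ℝ) ^ 2 := by
  have hp' : (1 : ℝ) ≤ p := by exact_mod_cast hp
  have hs1' : (1 : ℝ) ≤ s := by exact_mod_cast hs1
  have hs5' : (s : ℝ) ≤ 5 := by exact_mod_cast hs5
  set a : ℝ := s * p / 12 with ha
  set b : ℝ := p - a with hb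
  have ha0 : 0 < a := by positivity
  have ha1 : a ≤ 5 * p / 12 := by
    rw [ha]
    gcongr
  have hb0 : 0 < b := by
    rw [hb]
    linarith
  set M : ℕ := p / 2 with hM
  have hM1 : 2 * M ≤ p := by omega
  have hM2 : p ≤ 2 * M + 1 := by omega
  have hM1' : 2 * (M : ℝ) ≤ p := by exact_mod_cast hM1
  have hM2' : (p : ℝ) ≤ 2 * M + 1 := by exact_mod_cast hM2
  -- enlarge N
  have hmono : ∑ D ∈ Icc 1 N, max 0 (min (p : ℝ) (2 * D) - D - a) * wt D ≤
      ∑ D ∈ Icc 1 (max N M), max 0 (min (p : ℝ) (2 * D) - D - a) * wt D := by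
    refine sum_le_sum_of_subset_of_nonneg (Icc_subset_Icc_right (le_max_left _ _)) ?_
    intro D hD _
    have hD0 : (0 : ℝ) < D := by
      have := (mem_Icc.1 hD).1
      exact_mod_cast this
    exact mul_nonneg (le_max_left _ _) (wt_pos _ hD0).le
  refine hmono.trans ?_
  have hsplit : Icc 1 (max N M) = Icc 1 M ∪ Icc (M + 1) (max N M) := by
    ext x
    simp only [mem_union, mem_Icc]
    have : M ≤ max N M := le_max_right _ _
    omega
  have hdisj : Disjoint (Icc 1 M) (Icc (M + 1) (max N M)) := by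
    rw [Finset.disjoint_left]
    intro x h1 h2
    rw [mem_Icc] at h1 h2
    omega
  rw [hsplit, sum_union hdisj]
  have e1 : ∑ D ∈ Icc 1 M, max 0 (min (p : ℝ) (2 * D) - D - a) * wt D =
      ∑ D ∈ Icc 1 M, max 0 ((D : ℝ) - a) * wt D := by
    refine sum_congr rfl fun D hD => ?_
    have h1 : (D : ℝ) ≤ M := by exact_mod_cast (mem_Icc.1 hD).2
    rw [min_eq_right (by linarith)]
    have : (2 : ℝ) * D - D - a = D - a := by ring
    rw [this]
  have e2 : ∑ D ∈ Icc (M + 1) (max N M), max 0 (min (p : ℝ) (2 * D) - D - a) * wt D =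
      ∑ D ∈ Icc (M + 1) (max N M), max 0 (b - (D : ℝ)) * wt D := by
    refine sum_congr rfl fun D hD => ?_
    have h1 : ((M + 1 : ℕ) : ℝ) ≤ D := by exact_mod_cast (mem_Icc.1 hD).1
    push_cast at h1
    rw [min_eq_left (by linarith)]
    have : (p : ℝ) - D - a = b - D := by rw [hb]; ring
    rw [this]
  rw [e1, e2]
  have h1 := part_a a ha0 M (by linarith)
  have h2 := part_b b hb0 M (max N M) (by
    rw [hb]
    linarith) (le_max_right _ _)
  have h3 := psum a b p ((M : ℝ) + 1) (by rw [hb]; ring) hp' (by linarith) (by linarith)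
  have h4 : 1 / (2 * a) + 1 / (2 * b) - 2 / p =
      ((12 : ℝ) - 2 * s) ^ 2 / (2 * s * (12 - s) * p) := by
    have hb' : b = (12 - s) * p / 12 := by
      rw [hb, ha]
      ring
    rw [hb', ha]
    have h12 : (12 : ℝ) - s ≠ 0 := by linarith
    have hs0 : (s : ℝ) ≠ 0 := by linarith
    have hp0 : (p : ℝ) ≠ 0 := by linarith
    field_simp
    ring
  linarith

theorem ker (S : ℕ) (hS : S ≤ 5) (p N : ℕ) (hp : 1 ≤ p) :
    ∑ D ∈ Icc 1 N, vv S D p / ((D : ℝ) * (D + 1) * (D + 2)) ≤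
      V.gain S 12 2 / p + 24 * S / (p : ℝ) ^ 2 := by
  have hp' : (1 : ℝ) ≤ p := by exact_mod_cast hp
  have e1 : ∑ D ∈ Icc 1 N, vv S D p / ((D : ℝ) * (D + 1) * (D + 2)) =
      ∑ s ∈ Icc 1 S, 2 * ∑ D ∈ Icc 1 N, max 0 (min (p : ℝ) (2 * D) - D - s * p / 12) * wt D := by
    have : ∀ D ∈ Icc 1 N, vv S D p / ((D : ℝ) * (D + 1) * (D + 2)) =
        ∑ s ∈ Icc 1 S, 2 * (max 0 (min (p : ℝ) (2 * D) - D - s * p / 12) * wt D) := by
      intro D _
      unfold vv wt
      rw [div_eq_mul_one_div, mul_sum, sum_mul]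
      refine sum_congr rfl fun s _ => ?_
      ring
    rw [sum_congr rfl this, sum_comm]
    refine sum_congr rfl fun s _ => ?_
    rw [mul_sum]
  rw [e1]
  have h1 : ∀ s ∈ Icc 1 S,
      2 * ∑ D ∈ Icc 1 N, max 0 (min (p : ℝ) (2 * D) - D - s * p / 12) * wt D ≤
      (if (12 : ℝ) < (12 - (s : ℝ)) * 2 then ((12 - (s : ℝ)) * 2 - 12) ^ 2 / ((s : ℝ) * (12 - s))
        else 0) / p +
        24 / (p : ℝ) ^ 2 := by
    intro s hs
    rw [mem_Icc] at hs
    have h2 := one_ker s p N hs.1 (by omega) hp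
    have hs1' : (1 : ℝ) ≤ s := by exact_mod_cast hs.1
    have hs5' : (s : ℝ) ≤ 5 := by exact_mod_cast (by omega : s ≤ 5)
    rw [if_pos (by linarith)]
    have e3 : ((12 - (s : ℝ)) * 2 - 12) ^ 2 / (s * (12 - s)) / p =
        2 * (((12 : ℝ) - 2 * s) ^ 2 / (2 * s * (12 - s) * p)) := by
      have h12 : (12 : ℝ) - s ≠ 0 := by linarith
      have hs0 : (s : ℝ) ≠ 0 := by linarith
      have hp0 : (p : ℝ) ≠ 0 := by linarith
      field_simp
      ring
    have e4 : 24 / (p : ℝ) ^ 2 = 2 * (12 / (p : ℝ) ^ 2) := by ring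
    rw [e3, e4]
    linarith
  refine (sum_le_sum h1).trans (le_of_eq ?_)
  rw [sum_add_distrib, ← sum_div, sum_const, Nat.card_Icc, nsmul_eq_mul]
  unfold V.gain
  have : ((S + 1 - 1 : ℕ) : ℝ) = S := by
    rw [Nat.add_sub_cancel]
  rw [this]
  ring

end Pool.Agent.Work.MP_b73316_nt.Q
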