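import Pool.Agent.Work.MP_b73316_nt.Q.Defs
import Pool.Agent.Work.MP_b73316_nt.Q.Ker
import Pool.Agent.Work.MP_b73316_nt.Q.SumG

/-!
Module LogD (size S-M): lower logarithmic density.

PROOF.  `g = gain S 12 2 ≥ 0`.  If `c' < 0` the claim is trivial (`log X ≥ 0` for `X ≥ 1`, the sum is
`≥ 0`).  Let `c' ≥ 0`, `ε > 0` with `c' g < c - ε`, hence `c - ε > 0`, `D₀ ≥ 1` from `h ε`.  Let
`X ≥ 12 D₀`, `N = X / 12`, `w D = 1/(D(D+1)(D+2))`.
(1) `∑_{D=D₀}^N w D (c - ε) D² ≤ ∑_{D=1}^N w D sg G S D` (`sg ≥ 0`).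
`D² w D = D/((D+1)(D+2)) = 1/(D+1) - 2/((D+1)(D+2))`, `∑_{D=D₀}^N 1/(D+1) ≥ log ((N+2)/(D₀+1))`
(`1/(D+1) ≥ log (D+2) - log (D+1)`), `∑ 2/((D+1)(D+2)) ≤ 2`.  So the left side is
`≥ (c - ε) (log (N+2) - C₁) ≥ (c - ε)(log X - C₂)` (`12 (N+2) ≥ X`).
(2) `sg G S D ≤ ∑_{p ≤ 12N, G} log p vv S D p` for `D ≤ N` (`vv ≥ 0`), exchange the sums:
`∑_{D=1}^N w D sg G S D ≤ ∑_{p ≤ 12N, G} log p ∑_{D=1}^N w D vv S D p ≤
∑_{p ≤ X, G} log p (g/p + 24 S/p²)` by `ker`, and `∑_p log p/p² ≤ C₃` (`log p ≤ 2 √p`, or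
`log p ≤ p^(1/2) * 2`; `∑ p^(-3/2)` converges; or `Real.log_le_sub_one..`: any summable majorant).
So `(c - ε)(log X - C₂) ≤ g ∑_{p ≤ X, G} log p/p + 24 S C₃`.  If `g > 0` divide by `g`:
`∑ ≥ ((c - ε)/g) log X - C₄ ≥ c' log X` for `X` large as `(c - ε)/g > c'`.  If `g = 0` the inequality is
impossible for large `X` (`c - ε > 0`), so the claim holds eventually (or: `S ≥ 1` is not needed).
-/

set_option autoImplicit false

open Finset Filter

namespace Pool.Agent.Work.MP_b73316_nt.Q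

/-- `∑ D/((D+1)(D+2))` -/
private theorem logd_harm (N : ℕ) : Real.log ((N : ℝ) + 2) - Real.log 2 - 1 + 2 / ((N : ℝ) + 2) ≤
    ∑ D ∈ Icc 1 N, (D : ℝ) ^ 2 / ((D : ℝ) * (D + 1) * (D + 2)) := by
  induction N with
  | zero => simp
  | succ N ih =>
    rw [Finset.sum_Icc_succ_top (by omega)]
    have hN : (0 : ℝ) ≤ N := Nat.cast_nonneg N
    have h1 : Real.log ((N : ℝ) + 3) - Real.log ((N : ℝ) + 2) ≤ 1 / ((N : ℝ) + 2) := by
      rw [← Real.log_div (by positivity) (by positivity)]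
      have := Real.log_le_sub_one_of_pos (show 0 < ((N : ℝ) + 3) / ((N : ℝ) + 2) by positivity)
      have h2 : ((N : ℝ) + 3) / ((N : ℝ) + 2) - 1 = 1 / ((N : ℝ) + 2) := by
        field_simp; ring
      linarith
    have h3 : ((N + 1 : ℕ) : ℝ) ^ 2 / (((N + 1 : ℕ) : ℝ) * (((N + 1 : ℕ) : ℝ) + 1) *
        (((N + 1 : ℕ) : ℝ) + 2)) = 2 / ((N : ℝ) + 3) - 1 / ((N : ℝ) + 2) := by
      push_cast
      have e1 : (N : ℝ) + 1 + 1 = N + 2 := by ring
      have e2 : (N : ℝ) + 1 + 2 = N + 3 := by ring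
      rw [e1, e2]
      field_simp
      ring
    rw [h3]
    push_cast
    have e3 : (N : ℝ) + 1 + 2 = N + 3 := by ring
    rw [e3]
    have h4 : 2 / ((N : ℝ) + 2) = 1 / ((N : ℝ) + 2) + 1 / ((N : ℝ) + 2) := by ring
    linarith

private theorem logd_gain (S : ℕ) (hS : S ≤ 5) : 0 ≤ V.gain S 12 2 := by
  unfold V.gain
  apply Finset.sum_nonneg
  intro s hs
  rw [Finset.mem_Icc] at hs
  have h1 : (s : ℝ) ≤ 5 := by exact_mod_cast hs.2.trans hS
  have h2 : (0 : ℝ) ≤ s := Nat.cast_nonneg s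
  split_ifs
  · apply div_nonneg (sq_nonneg _)
    exact mul_nonneg h2 (by linarith)
  · exact le_rfl

private theorem logd_tail : ∃ C : ℝ, 0 ≤ C ∧ ∀ s : Finset ℕ,
    ∑ p ∈ s, Real.log p / (p : ℝ) ^ 2 ≤ C := by
  have hsum : Summable fun n : ℕ => 2 * (n : ℝ) ^ (-(3 / 2) : ℝ) :=
    (Real.summable_nat_rpow.2 (by norm_num)).mul_left 2
  refine ⟨∑' n : ℕ, 2 * (n : ℝ) ^ (-(3 / 2) : ℝ), tsum_nonneg fun n => by positivity,
    fun s => ?_⟩
  refine le_trans (Finset.sum_le_sum fun p _ => ?_)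
    (hsum.sum_le_tsum s fun n _ => by positivity)
  rcases Nat.eq_zero_or_pos p with rfl | hp
  · simp
  · have hp' : (0 : ℝ) < p := by exact_mod_cast hp
    rw [div_le_iff₀ (by positivity)]
    have h1 := Real.log_le_rpow_div hp'.le (show (0 : ℝ) < 1 / 2 by norm_num)
    have h2 : 2 * (p : ℝ) ^ (-(3 / 2) : ℝ) * (p : ℝ) ^ 2 = (p : ℝ) ^ (1 / 2 : ℝ) / (1 / 2) := by
      rw [mul_assoc, ← Real.rpow_natCast (p : ℝ) 2, ← Real.rpow_add hp']
      norm_num
      ring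
    rw [h2]; exact h1

open Classical in
theorem logd (S : ℕ) (hS : S ≤ 5) (G : Set ℕ) (c : ℝ)
    (h : ∀ ε : ℝ, 0 < ε → ∃ D₀ : ℕ, ∀ D : ℕ, D₀ ≤ D → (c - ε) * (D : ℝ) ^ 2 ≤ sg G S D)
    (c' : ℝ) (hc : c' * V.gain S 12 2 < c) :
    ∀ᶠ X : ℕ in atTop, c' * Real.log X ≤
      ∑ p ∈ (Icc 1 X).filter (fun p => p.Prime ∧ p ∈ G), Real.log p / p := by
  have hlog : ∀ p : ℕ, 0 ≤ Real.log p := fun p => Real.log_natCast_nonneg p
  have hTn : ∀ X : ℕ, 0 ≤ ∑ p ∈ (Icc 1 X).filter (fun p => p.Prime ∧ p ∈ G),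
      Real.log p / p := fun X => Finset.sum_nonneg fun p _ =>
    div_nonneg (hlog p) (Nat.cast_nonneg p)
  rcases lt_or_ge c' 0 with hneg | hpos
  · filter_upwards with X
    exact (mul_nonpos_of_nonpos_of_nonneg hneg.le (hlog X)).trans (hTn X)
  set g : ℝ := V.gain S 12 2 with hg
  have hg0 : 0 ≤ g := logd_gain S hS
  obtain ⟨D₀, hD₀⟩ := h ((c - c' * g) / 2) (by linarith)
  set c₁ : ℝ := c - (c - c' * g) / 2 with hc₁
  have hc₁g : 0 < c₁ - c' * g := by rw [hc₁]; linarith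
  have hc₁0 : 0 < c₁ := by
    have : 0 ≤ c' * g := mul_nonneg hpos hg0
    linarith
  obtain ⟨C₃, hC₃0, hC₃⟩ := logd_tail
  have hsg : ∀ D : ℕ, 0 ≤ sg G S D := by
    intro D
    unfold sg
    exact Finset.sum_nonneg fun p _ => mul_nonneg (hlog p) (vv_nonneg S _ _)
  have hwn : ∀ D : ℕ, 0 ≤ (D : ℝ) * (D + 1) * (D + 2) := fun D => by positivity
  -- the basic inequality
  set K₁ : ℝ := ∑ D ∈ range D₀, c₁ * ((D : ℝ) ^ 2 / ((D : ℝ) * (D + 1) * (D + 2))) with hK₁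
  have hlow : ∀ N : ℕ, c₁ * (Real.log ((N : ℝ) + 2) - 2) ≤
      ∑ D ∈ Icc 1 N, sg G S D / ((D : ℝ) * (D + 1) * (D + 2)) + K₁ := by
    intro N
    have h1 := logd_harm N
    have h2 : Real.log ((N : ℝ) + 2) - 2 ≤
        ∑ D ∈ Icc 1 N, (D : ℝ) ^ 2 / ((D : ℝ) * (D + 1) * (D + 2)) := by
      have h3 : Real.log 2 ≤ 1 := by
        have := Real.log_le_sub_one_of_pos (show (0 : ℝ) < 2 by norm_num)
        linarith
      have h4 : 0 ≤ 2 / ((N : ℝ) + 2) := by positivity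
      linarith
    have h5 := mul_le_mul_of_nonneg_left h2 hc₁0.le
    rw [Finset.mul_sum] at h5
    refine h5.trans ?_
    have h6 : ∀ D ∈ Icc 1 N, c₁ * ((D : ℝ) ^ 2 / ((D : ℝ) * (D + 1) * (D + 2))) ≤
        sg G S D / ((D : ℝ) * (D + 1) * (D + 2)) +
          (if D < D₀ then c₁ * ((D : ℝ) ^ 2 / ((D : ℝ) * (D + 1) * (D + 2))) else 0) := by
      intro D _
      split_ifs with hD
      · have := div_nonneg (hsg D) (hwn D)
        linarith
      · push Not at hD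
        rw [add_zero, ← mul_div_assoc]
        exact div_le_div_of_nonneg_right (hD₀ D hD) (hwn D)
    refine (Finset.sum_le_sum h6).trans ?_
    rw [Finset.sum_add_distrib]
    gcongr
    rw [← Finset.sum_filter]
    apply Finset.sum_le_sum_of_subset_of_nonneg
    · intro D hD
      rw [Finset.mem_filter] at hD
      exact Finset.mem_range.2 hD.2
    · intro D _ _
      exact mul_nonneg hc₁0.le (div_nonneg (sq_nonneg _) (hwn D))
  have hup : ∀ X : ℕ, ∑ D ∈ Icc 1 (X / 12), sg G S D / ((D : ℝ) * (D + 1) * (D + 2)) ≤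
      g * (∑ p ∈ (Icc 1 X).filter (fun p => p.Prime ∧ p ∈ G), Real.log p / p) +
        24 * S * C₃ := by
    intro X
    have h1 : ∀ D ∈ Icc 1 (X / 12), sg G S D / ((D : ℝ) * (D + 1) * (D + 2)) ≤
        ∑ p ∈ (Icc 1 X).filter (fun p => p.Prime ∧ p ∈ G),
          Real.log p * (vv S D p / ((D : ℝ) * (D + 1) * (D + 2))) := by
      intro D hD
      rw [Finset.mem_Icc] at hD
      have h2 : sg G S D ≤ ∑ p ∈ (Icc 1 X).filter (fun p => p.Prime ∧ p ∈ G),
          Real.log p * vv S D p := by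
        unfold sg
        apply Finset.sum_le_sum_of_subset_of_nonneg
        · apply Finset.filter_subset_filter
          apply Finset.Icc_subset_Icc le_rfl
          omega
        · intro p _ _
          exact mul_nonneg (hlog p) (vv_nonneg S _ _)
      refine (div_le_div_of_nonneg_right h2 (hwn D)).trans (le_of_eq ?_)
      rw [Finset.sum_div]
      exact Finset.sum_congr rfl fun p _ => mul_div_assoc _ _ _
    refine (Finset.sum_le_sum h1).trans ?_
    rw [Finset.sum_comm]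
    have h3 : ∀ p ∈ (Icc 1 X).filter (fun p => p.Prime ∧ p ∈ G),
        ∑ D ∈ Icc 1 (X / 12), Real.log p * (vv S D p / ((D : ℝ) * (D + 1) * (D + 2))) ≤
          g * (Real.log p / p) + 24 * S * (Real.log p / (p : ℝ) ^ 2) := by
      intro p hp
      rw [Finset.mem_filter, Finset.mem_Icc] at hp
      rw [← Finset.mul_sum]
      have h4 := ker S hS p (X / 12) hp.1.1
      have h5 := mul_le_mul_of_nonneg_left h4 (hlog p)
      refine h5.trans (le_of_eq ?_)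
      rw [← hg]
      ring
    refine (Finset.sum_le_sum h3).trans ?_
    rw [Finset.sum_add_distrib, ← Finset.mul_sum, ← Finset.mul_sum]
    have h6 : (0 : ℝ) ≤ 24 * S := by positivity
    have h7 := mul_le_mul_of_nonneg_left
      (hC₃ ((Icc 1 X).filter (fun p => p.Prime ∧ p ∈ G))) h6
    linarith
  -- large `X`
  have hev : ∀ᶠ X : ℕ in atTop,
      (c₁ * (Real.log 12 + 2) + 24 * S * C₃ + K₁) / (c₁ - c' * g) < Real.log X :=
    (Real.tendsto_log_atTop.comp tendsto_natCast_atTop_atTop).eventually_gt_atTop _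
  filter_upwards [hev, eventually_ge_atTop 1] with X hX hX1
  rw [div_lt_iff₀ hc₁g] at hX
  have hXpos : (0 : ℝ) < X := by exact_mod_cast hX1
  have h1 := hlow (X / 12)
  have h2 := hup X
  have h3 : Real.log X - Real.log 12 ≤ Real.log (((X / 12 : ℕ) : ℝ) + 2) := by
    rw [← Real.log_div hXpos.ne' (by norm_num)]
    apply Real.log_le_log (by positivity)
    rw [div_le_iff₀ (by norm_num)]
    have h4 : X ≤ (X / 12 + 2) * 12 := by omega
    have h5 : (X : ℝ) ≤ (((X / 12 + 2) * 12 : ℕ) : ℝ) := by exact_mod_cast h4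
    push_cast at h5
    exact h5
  have h4 : c₁ * (Real.log X - Real.log 12 - 2) ≤
      c₁ * (Real.log (((X / 12 : ℕ) : ℝ) + 2) - 2) :=
    mul_le_mul_of_nonneg_left (by linarith) hc₁0.le
  have h5 : g * (c' * Real.log X) <
      g * ∑ p ∈ (Icc 1 X).filter (fun p => p.Prime ∧ p ∈ G), Real.log p / p := by
    nlinarith
  exact (lt_of_mul_lt_mul_left h5 hg0).le

end Pool.Agent.Work.MP_b73316_nt.Q
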