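import Pool.Agent.Work.MP_b73316_nt.Q.Defs
import Pool.Agent.Work.MP_b73316_nt.Q.SumG

/-!
Module LowD (size S): lower density.

PROOF.  `vv S D p ≤ K D`, `K = 2S - S(S+1)/6` (`= 5` for `S = 5`), for `1 ≤ S ≤ 5`, `D, p ≥ 0`: each of
the terms `s = 1, ..., S` satisfies `min (p, 2D) - D - s p/12 ≤ D (1 - s/6)`
(`p ≤ 2D`: `p (1 - s/12) - D ≤ 2D (1 - s/12) - D`; `p ≥ 2D`: `D - s p/12 ≤ D - s D/6`).
So `sg G S D ≤ K D thG G (12 D)` (`thG G x = ∑_{p ≤ x prime in G} log p`).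
If `c' ≤ 0` the claim is trivial.  Let `c' > 0`, `ε > 0` with `12 K c' < c - ε`, `X` large, `D = X / 12`:
`(c - ε) D² ≤ K D thG G (12 D) ≤ K D thG G X`, so `thG G X ≥ (c - ε) D/K ≥ (c - ε)(X - 12)/(12 K) ≥ c' X`.
-/

set_option autoImplicit false

open Finset Filter

namespace Pool.Agent.Work.MP_b73316_nt.Q

private theorem vv_le (S : ℕ) (hS : S ≤ 5) {D p : ℝ} (hD : 0 ≤ D) (hp : 0 ≤ p) :
    vv S D p ≤ (2 * S - S * (S + 1) / 6) * D := by
  have h1 : ∀ s ∈ Icc (1 : ℕ) S, max 0 (min p (2 * D) - D - s * p / 12) ≤ D * (1 - s / 6) := by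
    intro s hs
    have hs5 : (s : ℝ) ≤ 5 := by
      have := (mem_Icc.1 hs).2
      exact_mod_cast this.trans hS
    have hs0 : (0 : ℝ) ≤ s := Nat.cast_nonneg s
    refine max_le (mul_nonneg hD (by linarith)) ?_
    rcases le_total p (2 * D) with h | h
    · rw [min_eq_left h]
      have h2 : p * (1 - s / 12) ≤ 2 * D * (1 - s / 12) :=
        mul_le_mul_of_nonneg_right h (by linarith)
      nlinarith
    · rw [min_eq_right h]
      have h2 : (s : ℝ) * (2 * D) ≤ s * p := mul_le_mul_of_nonneg_left h hs0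
      nlinarith
  have h3 : 2 * ∑ s ∈ Icc (1 : ℕ) S, D * (1 - (s : ℝ) / 6) = (2 * S - S * (S + 1) / 6) * D := by
    clear h1 hS
    induction S with
    | zero => simp
    | succ n ih =>
      rw [Finset.sum_Icc_succ_top (by omega), mul_add, ih]
      push_cast
      ring
  unfold vv
  have h4 := sum_le_sum h1
  linarith

private theorem sg_le (S : ℕ) (hS : S ≤ 5) (G : Set ℕ) (D : ℕ) :
    sg G S D ≤ (2 * S - S * (S + 1) / 6) * D * thG G (12 * D) := by
  classical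
  unfold sg thG
  rw [mul_sum]
  have e : ∀ f g : ℕ → ℝ, (∀ p, f p ≤ g p) → ∀ s : Finset ℕ, ∑ p ∈ s, f p ≤ ∑ p ∈ s, g p :=
    fun f g h s => sum_le_sum fun p _ => h p
  refine le_trans (e _ _ (fun p => ?_) _) (le_of_eq (sum_congr ?_ fun _ _ => rfl))
  · have h1 : 0 ≤ Real.log p := Real.log_natCast_nonneg p
    have h2 := vv_le S hS (Nat.cast_nonneg D : (0 : ℝ) ≤ D) (Nat.cast_nonneg p)
    calc Real.log p * vv S D p ≤ Real.log p * ((2 * S - S * (S + 1) / 6) * D) :=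
        mul_le_mul_of_nonneg_left h2 h1
      _ = (2 * S - S * (S + 1) / 6) * D * Real.log p := by ring
  · ext p
    simp

private theorem thG_nonneg (G : Set ℕ) (x : ℕ) : 0 ≤ thG G x := by
  classical
  unfold thG
  exact sum_nonneg fun p _ => Real.log_natCast_nonneg p

private theorem thG_mono (G : Set ℕ) {x y : ℕ} (h : x ≤ y) : thG G x ≤ thG G y := by
  classical
  unfold thG
  refine sum_le_sum_of_subset_of_nonneg (filter_subset_filter _ (Icc_subset_Icc_right h))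
    fun p _ _ => Real.log_natCast_nonneg p

theorem lowd (S : ℕ) (hS1 : 1 ≤ S) (hS : S ≤ 5) (G : Set ℕ) (c : ℝ)
    (h : ∀ ε : ℝ, 0 < ε → ∃ D₀ : ℕ, ∀ D : ℕ, D₀ ≤ D → (c - ε) * (D : ℝ) ^ 2 ≤ sg G S D)
    (c' : ℝ) (hc : (24 * S - 2 * S * (S + 1)) * c' < c) :
    ∀ᶠ X : ℕ in atTop, c' * X ≤ thG G X := by
  rcases le_or_gt c' 0 with h0 | h0
  · refine Eventually.of_forall fun X => ?_
    exact (mul_nonpos_of_nonpos_of_nonneg h0 (Nat.cast_nonneg X)).trans (thG_nonneg G X)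
  set K : ℝ := 2 * S - S * (S + 1) / 6 with hK
  have hK0 : 0 < K := by
    have h1 : (1 : ℝ) ≤ S := by exact_mod_cast hS1
    have h2 : (S : ℝ) ≤ 5 := by exact_mod_cast hS
    rw [hK]
    nlinarith
  have hcK : 12 * K * c' < c := by
    have e1 : 12 * K * c' = (24 * S - 2 * S * (S + 1)) * c' := by rw [hK]; ring
    rw [e1]
    exact hc
  obtain ⟨D₀, hD₀⟩ := h ((c - 12 * K * c') / 2) (by linarith)
  set e := c - (c - 12 * K * c') / 2 with he
  have he1 : 12 * K * c' < e := by rw [he]; linarith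
  obtain ⟨N, hN⟩ := exists_nat_ge (12 * e / (e - 12 * K * c'))
  filter_upwards [eventually_ge_atTop (max N (12 * D₀ + 12))] with X hX
  have hX1 : N ≤ X := (le_max_left _ _).trans hX
  have hX2 : 12 * D₀ + 12 ≤ X := (le_max_right _ _).trans hX
  have hD1 : D₀ ≤ X / 12 := by omega
  have hD2 : 1 ≤ X / 12 := by omega
  have hD3 : 12 * (X / 12) ≤ X := by omega
  have hD4 : X ≤ 12 * (X / 12) + 12 := by omega
  set D := X / 12 with hD
  have k1 := hD₀ D hD1
  have k2 := sg_le S hS G D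
  have k3 := thG_mono G hD3
  have hDr : (1 : ℝ) ≤ D := by exact_mod_cast hD2
  have hXr : (X : ℝ) ≤ 12 * D + 12 := by exact_mod_cast hD4
  have hNr : (N : ℝ) ≤ X := by exact_mod_cast hX1
  have k4 : e * (D : ℝ) ^ 2 ≤ K * D * thG G X :=
    (k1.trans k2).trans (mul_le_mul_of_nonneg_left k3 (by positivity))
  have k5 : e * (D : ℝ) ≤ K * thG G X := by
    have hD0 : (0 : ℝ) < D := by linarith
    refine le_of_mul_le_mul_right ?_ hD0
    nlinarith
  have k6 : 12 * e ≤ X * (e - 12 * K * c') := by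
    have := hN.trans hNr
    rwa [div_le_iff₀ (by linarith)] at this
  have h60 : 0 < 12 * K * c' := by positivity
  have k7 : e * (X : ℝ) ≤ e * (12 * D + 12) := mul_le_mul_of_nonneg_left hXr (by linarith)
  have k8 : (12 * K) * (c' * X) ≤ (12 * K) * thG G X := by nlinarith
  exact le_of_mul_le_mul_left k8 (by positivity)

end Pool.Agent.Work.MP_b73316_nt.Q
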