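import Pool.Agent.Work.MP_b73316_nt.Q.Defs

/-!
Module NumQ (size S): numbers.

`gain S 12 2 = ∑_{s ≤ S} (12 - 2s)²/(s(12 - s))`: `100/11`, `64/20`, `36/27`, `16/32`, `4/35`.
`log 433 = 9 log 2 - log (512/433) ≤ 6.0714` (`log 2 < 0.6931471808`, `log (512/433) ≥ 0.167`).
`cc 3 1 ≥ 3.0528`, `cc 4 1 ≥ 3.5528`, `cc 5 2 ≥ 0.6671`.
-/

set_option autoImplicit false

open Finset

namespace Pool.Agent.Work.MP_b73316_nt.Q

private theorem gain5 : V.gain 5 12 2 = 100 / 11 + 64 / 20 + 36 / 27 + 16 / 32 + 4 / 35 := by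
  unfold V.gain
  rw [show (Icc (1 : ℕ) 5) = {1, 2, 3, 4, 5} by decide]
  simp only [sum_insert, sum_singleton, mem_insert, mem_singleton, Nat.reduceEqDiff, or_self,
    not_false_eq_true, Nat.cast_ofNat, Nat.cast_one]
  norm_num

private theorem gain4 : V.gain 4 12 2 = 100 / 11 + 64 / 20 + 36 / 27 + 16 / 32 := by
  unfold V.gain
  rw [show (Icc (1 : ℕ) 4) = {1, 2, 3, 4} by decide]
  simp only [sum_insert, sum_singleton, mem_insert, mem_singleton, Nat.reduceEqDiff, or_self,
    not_false_eq_true, Nat.cast_ofNat, Nat.cast_one]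
  norm_num

private theorem gain3 : V.gain 3 12 2 = 100 / 11 + 64 / 20 + 36 / 27 := by
  unfold V.gain
  rw [show (Icc (1 : ℕ) 3) = {1, 2, 3} by decide]
  simp only [sum_insert, sum_singleton, mem_insert, mem_singleton, Nat.reduceEqDiff, or_self,
    not_false_eq_true, Nat.cast_ofNat, Nat.cast_one]
  norm_num

private theorem log433 : Real.log 433 ≤ 6.0714 := by
  have h1 : Real.log 433 = 9 * Real.log 2 - Real.log (512 / 433) := by
    have h2 : (433 : ℝ) = 2 ^ 9 / (512 / 433) := by norm_num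
    conv_lhs => rw [h2]
    rw [Real.log_div (by norm_num) (by norm_num), Real.log_pow]
    norm_num
  have h3 := Real.log_two_lt_d9
  have h4 : (0.167 : ℝ) ≤ Real.log (512 / 433) := by
    rw [Real.le_log_iff_exp_le (by norm_num)]
    have h5 := Real.exp_bound' (show (0 : ℝ) ≤ 0.167 by norm_num) (show (0.167 : ℝ) ≤ 1 by norm_num)
      (show 0 < 4 by norm_num)
    refine h5.trans ?_
    simp only [sum_range_succ, range_zero, sum_empty, Nat.factorial]
    norm_num
  rw [h1]
  norm_num at h3 h4 ⊢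
  linarith

theorem num3a : (24 * (3 : ℕ) - 2 * (3 : ℕ) * ((3 : ℕ) + 1)) * (626 / 10000 : ℝ) < cc 3 1 := by
  have h := log433
  unfold cc
  rw [gain3]
  norm_num at h ⊢
  linarith

theorem num3b : (2501 / 10000 : ℝ) * V.gain 4 12 2 < cc 4 1 := by
  have h := log433
  unfold cc
  rw [gain4]
  norm_num at h ⊢
  linarith

theorem num5a : (24 * (5 : ℕ) - 2 * (5 : ℕ) * ((5 : ℕ) + 1)) * (111 / 10000 : ℝ) < cc 5 2 := by
  have h := log433
  unfold cc
  rw [gain5]
  norm_num at h ⊢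
  linarith

theorem num5b : (46 / 1000 : ℝ) * V.gain 5 12 2 < cc 5 2 := by
  have h := log433
  unfold cc
  rw [gain5]
  norm_num at h ⊢
  linarith

end Pool.Agent.Work.MP_b73316_nt.Q
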