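import Pool.Agent.Work.MP_b73316_nt.Q.Defs
import Pool.Agent.Work.MP_b73316_nt.Pnt

/-!
Module UppD (size S-M): from the logarithmic density to the upper density.

PROOF.  Suppose not: for all `x ≥ x₀`, `#{p ≤ x prime in G} < c'' π(x)`; so `c'' > 0`.  Let
`c'' < c₃ < c'`.  `thG G x ≤ #{..} log x ≤ c'' π(x) log x ≤ c₃ x` for `x` large (`pi_near`:
`π(x) log x / x → 1`), so `thG G x ≤ c₃ x + C` for all `x : ℕ` (`C ≥ 0`).  Abel summation: with
`A x = thG G x`, `A 0 = 0`, `A x - A (x-1) = log x` if `x` is a prime in `G`, `0` otherwise (`x ≥ 1`):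
`∑_{p ≤ X, G} log p/p = ∑_{x=1}^X (A x - A (x-1))/x = A X/X + ∑_{x=1}^{X-1} A x (1/x - 1/(x+1)) ≤
c₃ + C + ∑_{x=1}^{X-1} (c₃ x + C)/(x (x+1)) ≤ c₃ + 2 C + c₃ ∑_{x=1}^{X-1} 1/(x+1) ≤
c₃ log X + c₃ + 2C` (induction on `X` is simplest: `∑_{p ≤ X, G} log p/p - A X/X ≤ c₃ log X + C (1 - 1/X)`
... ).  With `hl`: `c' log X ≤ c₃ log X + c₃ + 2C` for large `X`, contradiction.
-/

set_option autoImplicit false

open Finset Filter

namespace Pool.Agent.Work.MP_b73316_nt.Q

open Classical in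
private theorem abel (G : Set ℕ) (c C : ℝ) (hc : 0 ≤ c)
    (hA : ∀ x : ℕ, ∑ p ∈ (Icc 1 x).filter (fun p => p.Prime ∧ p ∈ G), Real.log p ≤ c * x + C)
    (X : ℕ) (hX : 1 ≤ X) :
    ∑ p ∈ (Icc 1 X).filter (fun p => p.Prime ∧ p ∈ G), Real.log p / p ≤
      (∑ p ∈ (Icc 1 X).filter (fun p => p.Prime ∧ p ∈ G), Real.log p) / X +
        c * Real.log X + C * (1 - 1 / X) := by
  induction X, hX using Nat.le_induction with
  | base =>
    have h1 : (Icc 1 1).filter (fun p => Nat.Prime p ∧ p ∈ G) = ∅ := by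
      ext p
      simp only [mem_filter, mem_Icc, notMem_empty, iff_false]
      rintro ⟨⟨h1, h2⟩, h3, -⟩
      have : p = 1 := by omega
      subst this
      exact Nat.not_prime_one h3
    rw [h1]
    simp
  | succ X hX ih =>
    have hX0 : (0 : ℝ) < X := by exact_mod_cast (by omega : 0 < X)
    have hX1 : (0 : ℝ) < (X : ℝ) + 1 := by linarith
    have e : ∀ f : ℕ → ℝ, ∑ p ∈ (Icc 1 (X + 1)).filter (fun p => Nat.Prime p ∧ p ∈ G), f p =
        ∑ p ∈ (Icc 1 X).filter (fun p => Nat.Prime p ∧ p ∈ G), f p +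
          if Nat.Prime (X + 1) ∧ (X + 1) ∈ G then f (X + 1) else 0 := by
      intro f
      rw [← Finset.insert_Icc_right_eq_Icc_add_one (by omega), filter_insert]
      split_ifs with h
      · rw [sum_insert, add_comm]
        simp
      · rw [add_zero]
    rw [e, e]
    set S := ∑ p ∈ (Icc 1 X).filter (fun p => Nat.Prime p ∧ p ∈ G), Real.log p with hS
    set t : ℝ := if Nat.Prime (X + 1) ∧ (X + 1) ∈ G then Real.log ((X + 1 : ℕ) : ℝ) else 0 with ht
    have ht2 : (if Nat.Prime (X + 1) ∧ (X + 1) ∈ G then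
        Real.log ((X + 1 : ℕ) : ℝ) / ((X + 1 : ℕ) : ℝ) else 0) = t / ((X : ℝ) + 1) := by
      rw [ht]
      split_ifs
      · push_cast
        rfl
      · rw [zero_div]
    rw [ht2]
    have hS1 : S ≤ c * X + C := hA X
    have hl : 1 / ((X : ℝ) + 1) ≤ Real.log ((X : ℝ) + 1) - Real.log X := by
      have h1 := Real.one_sub_inv_le_log_of_pos (x := ((X : ℝ) + 1) / X) (by positivity)
      rw [Real.log_div hX1.ne' hX0.ne', inv_div] at h1
      have h2 : 1 - (X : ℝ) / (X + 1) = 1 / (X + 1) := by field_simp; ring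
      linarith
    have h3 : S / X = S / (X + 1) + S / (X * (X + 1)) := by field_simp
    have h4 : S / (X * (X + 1)) ≤ c / (X + 1) + C / (X * (X + 1)) := by
      have : c / ((X : ℝ) + 1) + C / (X * (X + 1)) = (c * X + C) / (X * (X + 1)) := by
        field_simp
      rw [this]
      exact div_le_div_of_nonneg_right hS1 (by positivity)
    have h5 : C / ((X : ℝ) * (X + 1)) = C * (1 / X - 1 / (X + 1)) := by field_simp; ring
    have h6 : c / ((X : ℝ) + 1) ≤ c * (Real.log ((X : ℝ) + 1) - Real.log X) := by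
      rw [div_eq_mul_one_div]
      exact mul_le_mul_of_nonneg_left hl hc
    push_cast
    have h7 : (S + t) / ((X : ℝ) + 1) = S / (X + 1) + t / (X + 1) := add_div _ _ _
    rw [h7]
    nlinarith [ih]

open Classical in
theorem uppd (G : Set ℕ) (c' c'' : ℝ) (hc : c'' < c')
    (hl : ∀ᶠ X : ℕ in atTop, c' * Real.log X ≤
      ∑ p ∈ (Icc 1 X).filter (fun p => p.Prime ∧ p ∈ G), Real.log p / p) :
    ∃ᶠ X : ℕ in atTop, c'' * Nat.primeCounting X ≤
      (((Icc 1 X).filter (fun p => p.Prime ∧ p ∈ G)).card : ℝ) := by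
  by_contra hcon
  rw [not_frequently] at hcon
  have hcon' : ∀ᶠ X : ℕ in atTop,
      (((Icc 1 X).filter (fun p => p.Prime ∧ p ∈ G)).card : ℝ) < c'' * Nat.primeCounting X := by
    filter_upwards [hcon] with X hX
    exact not_le.mp hX
  have hc0 : 0 < c'' := by
    by_contra h0
    push Not at h0
    obtain ⟨X, hX⟩ := hcon'.exists
    have h1 : (0 : ℝ) ≤ (((Icc 1 X).filter (fun p => p.Prime ∧ p ∈ G)).card : ℝ) :=
      Nat.cast_nonneg _
    have h2 : c'' * (Nat.primeCounting X : ℝ) ≤ 0 :=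
      mul_nonpos_of_nonpos_of_nonneg h0 (Nat.cast_nonneg _)
    linarith
  obtain ⟨c3, h31, h32⟩ := exists_between hc
  have hc3 : 0 < c3 := hc0.trans h31
  -- eventually `S x ≤ c3 x`
  have hpi : ∀ᶠ x : ℕ in atTop, c'' * ((Nat.primeCounting x : ℝ) * Real.log x / x) < c3 := by
    have h1 : Tendsto (fun x : ℕ => c'' * ((Nat.primeCounting x : ℝ) * Real.log x / x)) atTop
        (nhds (c'' * 1)) := pi_near.const_mul c''
    rw [mul_one] at h1
    exact h1.eventually (gt_mem_nhds h31)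
  have hS : ∀ᶠ x : ℕ in atTop,
      ∑ p ∈ (Icc 1 x).filter (fun p => p.Prime ∧ p ∈ G), Real.log p ≤ c3 * x := by
    filter_upwards [hcon', hpi, eventually_ge_atTop 1] with x h1 h2 h3
    have hx0 : (0 : ℝ) < x := by exact_mod_cast h3
    have hlx : 0 ≤ Real.log x := Real.log_natCast_nonneg x
    have h4 : ∑ p ∈ (Icc 1 x).filter (fun p => p.Prime ∧ p ∈ G), Real.log p ≤
        (((Icc 1 x).filter (fun p => p.Prime ∧ p ∈ G)).card : ℝ) * Real.log x := by
      rw [← nsmul_eq_mul]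
      refine sum_le_card_nsmul _ _ _ fun p hp => ?_
      rw [mem_filter, mem_Icc] at hp
      exact Real.log_le_log (by exact_mod_cast hp.1.1) (by exact_mod_cast hp.1.2)
    have h5 : (((Icc 1 x).filter (fun p => p.Prime ∧ p ∈ G)).card : ℝ) * Real.log x ≤
        c'' * (Nat.primeCounting x : ℝ) * Real.log x :=
      mul_le_mul_of_nonneg_right h1.le hlx
    have h6 : c'' * (Nat.primeCounting x : ℝ) * Real.log x =
        c'' * ((Nat.primeCounting x : ℝ) * Real.log x / x) * x := by field_simp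
    have h7 : c'' * ((Nat.primeCounting x : ℝ) * Real.log x / x) * x ≤ c3 * x :=
      mul_le_mul_of_nonneg_right h2.le hx0.le
    linarith
  obtain ⟨N, hN⟩ := eventually_atTop.mp hS
  have hex : ∃ C : ℝ, 0 ≤ C ∧ ∀ x : ℕ,
      ∑ p ∈ (Icc 1 x).filter (fun p => p.Prime ∧ p ∈ G), Real.log p ≤ c3 * x + C := by
    have hmono : ∀ x y : ℕ, x ≤ y → ∑ p ∈ (Icc 1 x).filter (fun p => p.Prime ∧ p ∈ G), Real.log p ≤
        ∑ p ∈ (Icc 1 y).filter (fun p => p.Prime ∧ p ∈ G), Real.log p := by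
      intro x y hxy
      refine sum_le_sum_of_subset_of_nonneg ?_ fun p _ _ => Real.log_natCast_nonneg p
      exact filter_subset_filter _ (Icc_subset_Icc_right hxy)
    refine ⟨∑ p ∈ (Icc 1 N).filter (fun p => p.Prime ∧ p ∈ G), Real.log p,
      sum_nonneg fun p _ => Real.log_natCast_nonneg p, fun x => ?_⟩
    have hx0 : 0 ≤ c3 * (x : ℝ) := by positivity
    rcases le_total N x with h | h
    · have h1 := hN x h
      have h2 : (0 : ℝ) ≤ ∑ p ∈ (Icc 1 N).filter (fun p => p.Prime ∧ p ∈ G), Real.log p :=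
        sum_nonneg fun p _ => Real.log_natCast_nonneg p
      linarith
    · have := hmono x N h
      linarith
  obtain ⟨C, hC, hA⟩ := hex
  -- contradiction
  have hlog : Tendsto (fun X : ℕ => (c' - c3) * Real.log (X : ℝ)) atTop atTop :=
    (Real.tendsto_log_atTop.comp tendsto_natCast_atTop_atTop).const_mul_atTop (by linarith)
  obtain ⟨X, h1, h2, h3⟩ := (hl.and ((hlog.eventually_gt_atTop (c3 + 2 * C)).and
    (eventually_ge_atTop 1))).exists
  have hX0 : (1 : ℝ) ≤ X := by exact_mod_cast h3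
  have h4 := abel G c3 C hc3.le hA X h3
  have h5 : (∑ p ∈ (Icc 1 X).filter (fun p => p.Prime ∧ p ∈ G), Real.log p) / X ≤ c3 + C := by
    rw [div_le_iff₀ (by linarith)]
    refine (hA X).trans ?_
    nlinarith
  have h6 : C * (1 - 1 / (X : ℝ)) ≤ C := by
    have : 0 ≤ 1 / (X : ℝ) := by positivity
    nlinarith
  nlinarith [h1, h2, h4, h5, h6]

end Pool.Agent.Work.MP_b73316_nt.Q
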