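import Pool.Agent.Work.MP_b73316_nt.Q.Defs
import Pool.Agent.Work.MP_b73316_nt.Q.HanE
import Pool.Agent.Work.MP_b73316_nt.Q.AllD
import Pool.Agent.Work.MP_b73316_nt.Q.GdI
import Pool.Agent.Work.MP_b73316_nt.Q.ArcB
import Pool.Agent.Work.MP_b73316_nt.Q.LogD
import Pool.Agent.Work.MP_b73316_nt.Q.LowD
import Pool.Agent.Work.MP_b73316_nt.Q.UppD
import Pool.Agent.Work.MP_b73316_nt.Q.Cnt
import Pool.Agent.Work.MP_b73316_nt.Q.NumQ

/-!
Module FinQ (assembly).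
-/

set_option autoImplicit false

open Finset Filter

namespace Pool.Agent.Work.MP_b73316_nt.Q

private theorem all_ineq (S κ : ℕ) (hS : S ≤ 5) (hκ : κ = 1 ∨ κ = 2) (ε : ℝ) (hε : 0 < ε) :
    ∃ D₀ : ℕ, ∀ D : ℕ, D₀ ≤ D → (cc S κ - ε) * (D : ℝ) ^ 2 ≤ sg (Gd S κ) S D := by
  have hκ1 : 1 ≤ κ := by rcases hκ with rfl | rfl <;> norm_num
  refine alld S hS κ (Gd S κ) (cc S κ) (fun ε hε => ?_) ε hε
  obtain ⟨D₀, h⟩ := gd_ineq S (by omega) κ hκ1 (fun ε hε => arcB κ hκ ε hε) ε hε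
  refine ⟨D₀, fun D hD hN => ?_⟩
  obtain ⟨δ, hδ⟩ := han_of κ D hκ1 hN
  exact h D hD δ hδ

open Classical in
private theorem fin_low (S κ : ℕ) (hS1 : 1 ≤ S) (hS : S ≤ 5) (hκ : κ = 1 ∨ κ = 2) (a a' : ℝ)
    (ha : (24 * S - 2 * S * (S + 1)) * a' < cc S κ) (haa : a < a') :
    ∀ᶠ X : ℕ in atTop, a * Nat.primeCounting X ≤
      (((Icc 1 X).filter (fun p => V.NV (2 * S) p (2 * κ + 1))).card : ℝ) := by
  have hκ1 : 1 ≤ κ := by rcases hκ with rfl | rfl <;> norm_num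
  exact cnt_low S κ hS1 hκ1 a' a haa
    (lowd S hS1 hS (Gd S κ) (cc S κ) (all_ineq S κ hS hκ) a' ha)

open Classical in
private theorem fin_log (S κ : ℕ) (hS1 : 1 ≤ S) (hS : S ≤ 5) (hκ : κ = 1 ∨ κ = 2) (b b' : ℝ)
    (hb : b' * V.gain S 12 2 < cc S κ) (hbb : b < b') :
    ∀ᶠ X : ℕ in atTop, b * Real.log X ≤
      ∑ p ∈ (Icc 1 X).filter (fun p => V.NV (2 * S) p (2 * κ + 1)), Real.log p / p := by
  have hκ1 : 1 ≤ κ := by rcases hκ with rfl | rfl <;> norm_num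
  exact cnt_log S κ hS1 hκ1 b' b hbb
    (logd S hS (Gd S κ) (cc S κ) (all_ineq S κ hS hκ) b' hb)

open Classical in
private theorem fin_upp (S κ : ℕ) (hS1 : 1 ≤ S) (hS : S ≤ 5) (hκ : κ = 1 ∨ κ = 2) (b b' : ℝ)
    (hb : b' * V.gain S 12 2 < cc S κ) (hbb : b < b') :
    ∃ᶠ X : ℕ in atTop, b * Nat.primeCounting X ≤
      (((Icc 1 X).filter (fun p => V.NV (2 * S) p (2 * κ + 1))).card : ℝ) := by
  have hκ1 : 1 ≤ κ := by rcases hκ with rfl | rfl <;> norm_num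
  have h2 := logd S hS (Gd S κ) (cc S κ) (all_ineq S κ hS hκ) b' hb
  refine cnt_upp S κ hS1 hκ1 ((b + b') / 2) b (by linarith) ?_
  exact uppd (Gd S κ) b' ((b + b') / 2) (by linarith) h2

open Classical in
/-- `n = 3`, lower density `1/16`, `p^6` -/
theorem low3 : ∀ᶠ X : ℕ in atTop, (1 / 16 : ℝ) * Nat.primeCounting X ≤
    (((Icc 1 X).filter (fun p => V.NV 6 p 3)).card : ℝ) :=
  fin_low 3 1 (by norm_num) (by norm_num) (Or.inl rfl) (1 / 16) (626 / 10000)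
    (by simpa using num3a) (by norm_num)

open Classical in
/-- `n = 3`, lower logarithmic density `1/4`, `p^8` -/
theorem log3 : ∀ᶠ X : ℕ in atTop, (1 / 4 : ℝ) * Real.log X ≤
    ∑ p ∈ (Icc 1 X).filter (fun p => V.NV 8 p 3), Real.log p / p :=
  fin_log 4 1 (by norm_num) (by norm_num) (Or.inl rfl) (1 / 4) (2501 / 10000) num3b (by norm_num)

open Classical in
/-- `n = 3`, upper density `1/4`, `p^8` -/
theorem upp3 : ∃ᶠ X : ℕ in atTop, (1 / 4 : ℝ) * Nat.primeCounting X ≤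
    (((Icc 1 X).filter (fun p => V.NV 8 p 3)).card : ℝ) :=
  fin_upp 4 1 (by norm_num) (by norm_num) (Or.inl rfl) (1 / 4) (2501 / 10000) num3b (by norm_num)

open Classical in
/-- `n = 5`, lower density `11/1000`, `p^10` -/
theorem low5 : ∀ᶠ X : ℕ in atTop, (11 / 1000 : ℝ) * Nat.primeCounting X ≤
    (((Icc 1 X).filter (fun p => V.NV 10 p 5)).card : ℝ) :=
  fin_low 5 2 (by norm_num) (by norm_num) (Or.inr rfl) (11 / 1000) (111 / 10000)
    (by simpa using num5a) (by norm_num)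

open Classical in
/-- `n = 5`, lower logarithmic density `9/200`, `p^10` -/
theorem log5 : ∀ᶠ X : ℕ in atTop, (9 / 200 : ℝ) * Real.log X ≤
    ∑ p ∈ (Icc 1 X).filter (fun p => V.NV 10 p 5), Real.log p / p :=
  fin_log 5 2 (by norm_num) (by norm_num) (Or.inr rfl) (9 / 200) (46 / 1000) num5b (by norm_num)

open Classical in
/-- `n = 5`, upper density `9/200`, `p^10` -/
theorem upp5 : ∃ᶠ X : ℕ in atTop, (9 / 200 : ℝ) * Nat.primeCounting X ≤
    (((Icc 1 X).filter (fun p => V.NV 10 p 5)).card : ℝ) :=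
  fin_upp 5 2 (by norm_num) (by norm_num) (Or.inr rfl) (9 / 200) (46 / 1000) num5b (by norm_num)

end Pool.Agent.Work.MP_b73316_nt.Q
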